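import Pool.Agent.Lib.TFP.Defs

/-!
Helper lemmas on connected vertex sets, stated with `(G.induce (T : Set V)).Connected`.
-/

set_option autoImplicit false

namespace Pool.Agent.TFP

open Finset

/-- induction along a connected set -/
theorem conn_induct {V : Type} {G : SimpleGraph V} {T : Set V} (h : (G.induce T).Connected)
    (p : V → Prop) {a : V} (ha : a ∈ T) (hpa : p a)
    (hstep : ∀ u ∈ T, ∀ v ∈ T, G.Adj u v → p u → p v) : ∀ v ∈ T, p v := by
  intro v hv
  obtain ⟨w⟩ := h.preconnected ⟨a, ha⟩ ⟨v, hv⟩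
  have key : ∀ (x y : T), (G.induce T).Walk x y → p x → p y := by
    intro x y w
    induction w with
    | nil => exact id
    | cons hadj _ ih =>
      intro hx
      exact ih (hstep _ (Subtype.property _) _ (Subtype.property _) hadj hx)
  exact key _ _ w hpa

theorem conn_of_induct {V : Type} {G : SimpleGraph V} {T : Set V} {a : V} (ha : a ∈ T)
    (h : ∀ p : V → Prop, p a → (∀ u ∈ T, ∀ v ∈ T, G.Adj u v → p u → p v) → ∀ v ∈ T, p v) :
    (G.induce T).Connected := by
  rw [SimpleGraph.connected_iff_exists_forall_reachable]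
  refine ⟨⟨a, ha⟩, ?_⟩
  rintro ⟨v, hv⟩
  have := h (fun v => ∃ hv : v ∈ T, (G.induce T).Reachable ⟨a, ha⟩ ⟨v, hv⟩)
    ⟨ha, SimpleGraph.Reachable.refl _⟩ (by
      rintro u hu w hw huw ⟨_, hr⟩
      refine ⟨hw, hr.trans (SimpleGraph.Adj.reachable ?_)⟩
      exact huw) v hv
  obtain ⟨_, h⟩ := this
  exact h

theorem conn_singleton {V : Type} {G : SimpleGraph V} (a : V) :
    (G.induce ({a} : Set V)).Connected := by
  refine conn_of_induct (Set.mem_singleton a) ?_
  intro p hp _ v hv
  rw [Set.mem_singleton_iff] at hv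
  rw [hv]; exact hp

theorem conn_insert {V : Type} {G : SimpleGraph V} {T : Set V} (h : (G.induce T).Connected)
    {t x : V} (ht : t ∈ T) (hadj : G.Adj t x) : (G.induce (insert x T)).Connected := by
  have := SimpleGraph.connected_induce_union (G := G) h.preconnected
    (conn_singleton (G := G) x).preconnected ht (Set.mem_singleton x) hadj
  rwa [Set.union_singleton] at this

theorem conn_nonempty {V : Type} {G : SimpleGraph V} {T : Set V} (h : (G.induce T).Connected) :
    T.Nonempty := by
  obtain ⟨⟨x, hx⟩⟩ := h.nonempty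
  exact ⟨x, hx⟩

end Pool.Agent.TFP
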