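import Pool.Agent.Lib.TFP.Defs

/-!
Module B2. Euler-type inequalities for MacLane planar graphs, `K₅`, and the hub construction.
(`MPlanar.minor` is in `Minor.lean`; import it where needed.)
-/

set_option autoImplicit false

namespace Pool.Agent.TFP

open Finset

section basics

variable {V : Type} [Fintype V]

theorem edgesIn_univ (G : SimpleGraph V) [DecidablePred (fun e : Sym2 V => e ∈ G.edgeSet)] :
    edgesIn G univ = (univ.filter (fun e : Sym2 V => e ∈ G.edgeSet)).card := by
  classical
  unfold edgesIn
  congr 1
  ext e
  simp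

/-- the boundary map -/
noncomputable def bdry : (Sym2 V → ZMod 2) →ₗ[ZMod 2] (V → ZMod 2) where
  toFun F v := ∑ u, F s(v, u)
  map_add' := by
    intro a b
    ext v
    simp [Finset.sum_add_distrib]
  map_smul' := by
    intro c a
    ext v
    simp [Finset.mul_sum]

/-- sum of the entries -/
noncomputable def totalSum : (V → ZMod 2) →ₗ[ZMod 2] ZMod 2 where
  toFun d := ∑ v, d v
  map_add' := by
    intro a b
    simp [Finset.sum_add_distrib]
  map_smul' := by
    intro c a
    simp [Finset.mul_sum]

theorem totalSum_bdry {G : SimpleGraph V} (F : Sym2 V → ZMod 2)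
    (hF : ∀ e, F e ≠ 0 → e ∈ G.edgeSet) : totalSum (bdry F) = 0 := by
  classical
  show ∑ v, ∑ u, F s(v, u) = 0
  rw [← Finset.sum_product' (f := fun v u => F s(v, u))]
  refine Finset.sum_involution (fun p _ => (p.2, p.1)) ?_ ?_ ?_ ?_
  · rintro ⟨a, b⟩ _
    simp only
    rw [Sym2.eq_swap]
    exact CharTwo.add_self_eq_zero _
  · rintro ⟨a, b⟩ _ h heq
    simp only [Prod.mk.injEq] at heq h
    obtain ⟨h1, _⟩ := heq
    subst h1
    have := hF _ h
    simp at this
  · rintro ⟨a, b⟩ _
    simp
  · rintro ⟨a, b⟩ _
    rfl

theorem finrank_cycleSpace [Nonempty V] (G : SimpleGraph V) :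
    edgesIn G univ + 1 ≤ Module.finrank (ZMod 2) (cycleSpace G) + Fintype.card V := by
  classical
  let E := {e : Sym2 V // e ∈ G.edgeSet}
  let ext : (E → ZMod 2) →ₗ[ZMod 2] (Sym2 V → ZMod 2) :=
    Function.ExtendByZero.linearMap (ZMod 2) (Subtype.val : E → Sym2 V)
  have hext1 : ∀ (F : E → ZMod 2) (e : E), ext F e.1 = F e := by
    intro F e
    exact Function.Injective.extend_apply Subtype.val_injective _ _ _
  have hext2 : ∀ (F : E → ZMod 2) (e : Sym2 V), e ∉ G.edgeSet → ext F e = 0 := by
    intro F e he
    refine Function.extend_apply' _ _ _ ?_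
    rintro ⟨a, ha⟩
    exact he (ha ▸ a.2)
  have hinj : Function.Injective ext := by
    intro a b hab
    funext e
    rw [← hext1 a e, ← hext1 b e, hab]
  let D : (E → ZMod 2) →ₗ[ZMod 2] (V → ZMod 2) := bdry.comp ext
  have hrange : LinearMap.range D ≤ LinearMap.ker (totalSum (V := V)) := by
    rintro _ ⟨F, rfl⟩
    rw [LinearMap.mem_ker]
    apply totalSum_bdry (G := G)
    intro e he
    by_contra h
    exact he (hext2 F e h)
  have hts : Function.Surjective (totalSum (V := V)) := by
    intro c
    obtain ⟨v0⟩ := ‹Nonempty V›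
    refine ⟨Pi.single v0 c, ?_⟩
    show ∑ v, (Pi.single v0 c : V → ZMod 2) v = c
    simp
  have h1 := LinearMap.finrank_range_add_finrank_ker (totalSum (V := V))
  rw [LinearMap.range_eq_top.mpr hts, finrank_top, Module.finrank_self,
    Module.finrank_fintype_fun_eq_card] at h1
  have h2 := LinearMap.finrank_range_add_finrank_ker D
  rw [Module.finrank_fintype_fun_eq_card] at h2
  have h3 := Submodule.finrank_mono hrange
  have h4 : (LinearMap.ker D).map ext ≤ cycleSpace G := by
    rintro _ ⟨F, hF, rfl⟩
    refine ⟨?_, ?_⟩
    · intro e he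
      by_contra h
      exact he (hext2 F e h)
    · intro v
      have : D F = 0 := hF
      exact congrFun this v
  have h5 := Submodule.finrank_mono h4
  rw [LinearEquiv.finrank_eq (Submodule.equivMapOfInjective ext hinj _).symm] at h5
  have h6 : Fintype.card E = edgesIn G univ := by
    rw [edgesIn_univ, Fintype.card_subtype]
  omega

end basics

theorem zmod2_ne_zero {a : ZMod 2} (h : a ≠ 0) : a = 1 := by
  revert h; revert a; decide

/-- A cycle basis in which every edge is covered exactly 0 or 2 times after adding the sum: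
normal form of MacLane planarity. `k + 1` members, nonzero, any edge in at most two of them,
spanning the cycle space, and `k + card V ≥ (number of edges) + 1`. -/
theorem MPlanar.normal_form {V : Type} [Fintype V] [Nonempty V] {G : SimpleGraph V}
    (hG : MPlanar G) (hcyc : Fintype.card V ≤ edgesIn G univ) :
    ∃ (k : ℕ) (B : Fin (k + 1) → Sym2 V → ZMod 2),
      (∀ i, B i ∈ cycleSpace G) ∧ (∀ i, B i ≠ 0) ∧
      (∀ e, (univ.filter (fun i => B i e ≠ 0)).card ≤ 2) ∧
      cycleSpace G ≤ Submodule.span (ZMod 2) (Set.range B) ∧
      edgesIn G univ + 1 ≤ k + Fintype.card V := by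
  classical
  obtain ⟨n, B, hB, h2, hspan⟩ := hG
  obtain ⟨κ, a, ha, hsp, hli⟩ := exists_linearIndependent' (ZMod 2) B
  have hfin : Finite κ := Finite.of_injective a ha
  have : Fintype κ := Fintype.ofFinite κ
  let k := Fintype.card κ
  let φ : Fin k ≃ κ := (Fintype.equivFin κ).symm
  let b : Fin k → Sym2 V → ZMod 2 := fun i => B (a (φ i))
  have hbmem : ∀ i, b i ∈ cycleSpace G := fun i => hB _
  have hli' : LinearIndependent (ZMod 2) b := hli.comp φ φ.injective
  have hspeq : Submodule.span (ZMod 2) (Set.range b) = cycleSpace G := by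
    have e1 : Set.range b = Set.range (B ∘ a) := by
      have : b = (B ∘ a) ∘ φ := rfl
      rw [this, φ.surjective.range_comp]
    rw [e1, hsp]
    apply le_antisymm
    · rw [Submodule.span_le]
      rintro _ ⟨i, rfl⟩
      exact hB i
    · exact hspan
  have hfr : Module.finrank (ZMod 2) (cycleSpace G) = k := by
    rw [← hspeq, finrank_span_eq_card hli', Fintype.card_fin]
  have hdim := finrank_cycleSpace G
  rw [hfr] at hdim
  have hk : 0 < k := by omega
  have hb2 : ∀ e, (univ.filter (fun i => b i e ≠ 0)).card ≤ 2 := by
    intro e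
    refine le_trans ?_ (h2 e)
    refine Finset.card_le_card_of_injOn (fun i => a (φ i)) ?_ ?_
    · intro i hi
      simp only [coe_filter, mem_univ, true_and, Set.mem_ofPred_eq] at hi ⊢
      exact hi
    · intro i _ j _ hij
      exact φ.injective (ha hij)
  refine ⟨k, Fin.cons (∑ i, b i) b, ?_, ?_, ?_, ?_, hdim⟩
  · intro i
    refine Fin.cases ?_ ?_ i
    · rw [Fin.cons_zero]
      exact Submodule.sum_mem _ (fun i _ => hbmem i)
    · intro i
      rw [Fin.cons_succ]
      exact hbmem i
  · intro i
    refine Fin.cases ?_ ?_ i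
    · rw [Fin.cons_zero]
      intro h0
      have := Fintype.linearIndependent_iff.mp hli' (fun _ => 1) (by simpa using h0) ⟨0, hk⟩
      exact one_ne_zero this
    · intro i
      rw [Fin.cons_succ]
      exact hli'.ne_zero i
  · intro e
    rw [Fin.card_filter_univ_succ]
    simp only [Fin.cons_zero, Fin.cons_succ]
    have hsum : (∑ i, b i) e = ((univ.filter (fun i => b i e ≠ 0)).card : ZMod 2) := by
      rw [Finset.sum_apply, Finset.card_filter, Nat.cast_sum]
      refine Finset.sum_congr rfl ?_
      intro i _
      by_cases h : b i e = 0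
      · simp [h]
      · rw [if_pos h, zmod2_ne_zero h]; simp
    have := hb2 e
    split_ifs with h
    · have h1 : (univ.filter (fun i => b i e ≠ 0)).card ≠ 2 := by
        intro h1
        apply h
        rw [hsum, h1]
        decide
      omega
    · exact this
  · rw [← hspeq]
    apply Submodule.span_mono
    rintro _ ⟨i, rfl⟩
    exact ⟨i.succ, by rw [Fin.cons_succ]⟩

section support

variable {V : Type} [Fintype V]

/-- another edge at the same vertex -/
theorem exists_other {G : SimpleGraph V} {F : Sym2 V → ZMod 2} (hF : F ∈ cycleSpace G) {v a : V}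
    (h : F s(v, a) ≠ 0) : ∃ b, b ≠ a ∧ F s(v, b) ≠ 0 := by
  classical
  by_contra hcon
  push Not at hcon
  have h1 := hF.2 v
  rw [Finset.sum_eq_single a (fun b _ hb => hcon b hb) (by simp)] at h1
  exact h h1

theorem adj_of_ne_zero {G : SimpleGraph V} {F : Sym2 V → ZMod 2} (hF : F ∈ cycleSpace G) {v a : V}
    (h : F s(v, a) ≠ 0) : G.Adj v a := hF.1 _ h

theorem three_le_support {G : SimpleGraph V} {F : Sym2 V → ZMod 2} (hF : F ∈ cycleSpace G)
    (h0 : F ≠ 0) : 3 ≤ (univ.filter (fun e => F e ≠ 0)).card := by
  classical
  obtain ⟨e, he⟩ := Function.ne_iff.mp h0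
  induction e with
  | _ v a =>
  simp only [Pi.zero_apply] at he
  have hva := adj_of_ne_zero hF he
  obtain ⟨b, hba, hvb⟩ := exists_other hF he
  have he' : F s(a, v) ≠ 0 := by rwa [Sym2.eq_swap]
  obtain ⟨c, hcv, hac⟩ := exists_other hF he'
  have : ({s(v, a), s(v, b), s(a, c)} : Finset (Sym2 V)).card = 3 := by
    rw [Finset.card_eq_three]
    refine ⟨_, _, _, ?_, ?_, ?_, rfl⟩
    · intro h
      rw [Sym2.congr_right] at h
      exact hba h.symm
    · intro h
      rw [Sym2.eq_iff] at h
      rcases h with ⟨h, _⟩ | ⟨h, _⟩
      · exact hva.ne h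
      · exact hcv h.symm
    · intro h
      rw [Sym2.eq_iff] at h
      rcases h with ⟨h, _⟩ | ⟨h, _⟩
      · exact hva.ne h
      · exact hcv h.symm
  rw [← this]
  apply Finset.card_le_card
  intro e he2
  simp only [mem_insert, mem_singleton] at he2
  rw [mem_filter]
  refine ⟨mem_univ _, ?_⟩
  rcases he2 with rfl | rfl | rfl
  · exact he
  · exact hvb
  · exact hac

/-- In a triangle-free graph, a nonzero even set contains a path with four distinct edges, and if
its support has exactly four elements it is a four-cycle. -/
theorem four_support {G : SimpleGraph V} {F : Sym2 V → ZMod 2} (hF : F ∈ cycleSpace G)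
    (h3 : ∀ a b c, G.Adj a b → G.Adj b c → G.Adj c a → False) (h0 : F ≠ 0) :
    4 ≤ (univ.filter (fun e => F e ≠ 0)).card ∧
    ((univ.filter (fun e => F e ≠ 0)).card = 4 → ∃ x y z u : V, G.Adj x y ∧ G.Adj y z ∧
      G.Adj z u ∧ G.Adj u x ∧ x ≠ z ∧ y ≠ u ∧
      ∀ e, F e ≠ 0 ↔ e = s(x, y) ∨ e = s(y, z) ∨ e = s(z, u) ∨ e = s(u, x)) := by
  classical
  obtain ⟨e, he⟩ := Function.ne_iff.mp h0
  induction e with
  | _ v a =>
  simp only [Pi.zero_apply] at he
  have hva := adj_of_ne_zero hF he
  obtain ⟨b, hba, hvb⟩ := exists_other hF he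
  have hvb' := adj_of_ne_zero hF hvb
  have he' : F s(a, v) ≠ 0 := by rwa [Sym2.eq_swap]
  obtain ⟨c, hcv, hac⟩ := exists_other hF he'
  have hac' := adj_of_ne_zero hF hac
  have hvb2 : F s(b, v) ≠ 0 := by rwa [Sym2.eq_swap]
  obtain ⟨d, hdv, hbd⟩ := exists_other hF hvb2
  have hbd' := adj_of_ne_zero hF hbd
  have hbc : b ≠ c := by
    rintro rfl
    exact h3 _ _ _ hva hac' hvb'.symm
  have hda : d ≠ a := by
    rintro rfl
    exact h3 _ _ _ hva hbd'.symm hvb'.symm
  set S : Finset (Sym2 V) := {s(v, a), s(v, b), s(a, c), s(b, d)} with hS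
  have hScard : S.card = 4 := by
    rw [hS, Finset.card_eq_succ]
    refine ⟨s(v, a), {s(v, b), s(a, c), s(b, d)}, ?_, rfl, ?_⟩
    · simp only [mem_insert, mem_singleton, not_or]
      refine ⟨?_, ?_, ?_⟩
      · intro h
        rw [Sym2.congr_right] at h
        exact hba h.symm
      · intro h
        rw [Sym2.eq_iff] at h
        rcases h with ⟨h, _⟩ | ⟨h, _⟩
        · exact hva.ne h
        · exact hcv h.symm
      · intro h
        rw [Sym2.eq_iff] at h
        rcases h with ⟨h, _⟩ | ⟨_, h⟩
        · exact hvb'.ne h
        · exact hba h.symm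
    · rw [Finset.card_eq_three]
      refine ⟨_, _, _, ?_, ?_, ?_, rfl⟩
      · intro h
        rw [Sym2.eq_iff] at h
        rcases h with ⟨h, _⟩ | ⟨h, _⟩
        · exact hva.ne h
        · exact hcv h.symm
      · intro h
        rw [Sym2.eq_iff] at h
        rcases h with ⟨h, _⟩ | ⟨h, _⟩
        · exact hvb'.ne h
        · exact hdv h.symm
      · intro h
        rw [Sym2.eq_iff] at h
        rcases h with ⟨h, _⟩ | ⟨_, h⟩
        · exact hba h.symm
        · exact hbc h.symm
  have hSsub : S ⊆ univ.filter (fun e => F e ≠ 0) := by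
    intro e he2
    simp only [hS, mem_insert, mem_singleton] at he2
    rw [mem_filter]
    refine ⟨mem_univ _, ?_⟩
    rcases he2 with rfl | rfl | rfl | rfl
    · exact he
    · exact hvb
    · exact hac
    · exact hbd
  refine ⟨by rw [← hScard]; exact Finset.card_le_card hSsub, ?_⟩
  intro hcard
  have hSeq : S = univ.filter (fun e => F e ≠ 0) :=
    Finset.eq_of_subset_of_card_le hSsub (by rw [hcard, hScard])
  have hmem : ∀ e, F e ≠ 0 ↔ e = s(v, a) ∨ e = s(v, b) ∨ e = s(a, c) ∨ e = s(b, d) := by
    intro e
    have : e ∈ S ↔ F e ≠ 0 := by rw [hSeq, mem_filter]; simp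
    rw [← this, hS]
    simp only [mem_insert, mem_singleton]
  have hcd : c = d := by
    have hca : F s(c, a) ≠ 0 := by rwa [Sym2.eq_swap]
    obtain ⟨c', hc', hcc'⟩ := exists_other hF hca
    rcases (hmem _).mp hcc' with h | h | h | h
    · rw [Sym2.eq_iff] at h
      rcases h with ⟨h, _⟩ | ⟨h, _⟩
      · exact (hcv h).elim
      · exact (hac'.ne h.symm).elim
    · rw [Sym2.eq_iff] at h
      rcases h with ⟨h, _⟩ | ⟨h, _⟩
      · exact (hcv h).elim
      · exact (hbc h.symm).elim
    · rw [Sym2.eq_iff] at h
      rcases h with ⟨h, _⟩ | ⟨_, h⟩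
      · exact (hac'.ne h.symm).elim
      · exact (hc' h).elim
    · rw [Sym2.eq_iff] at h
      rcases h with ⟨h, _⟩ | ⟨h, _⟩
      · exact (hbc h.symm).elim
      · exact h
  refine ⟨v, a, c, b, hva, hac', ?_, hvb'.symm, hcv.symm, hba.symm, ?_⟩
  · rw [hcd]; exact hbd'.symm
  · intro e
    rw [hmem e, ← hcd]
    rw [Sym2.eq_swap (a := v) (b := b), Sym2.eq_swap (a := b) (b := c)]
    tauto

theorem sum_support_le {G : SimpleGraph V} {m : ℕ} {B : Fin m → Sym2 V → ZMod 2}
    (hB : ∀ i, B i ∈ cycleSpace G) (h2 : ∀ e, (univ.filter (fun i => B i e ≠ 0)).card ≤ 2) :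
    ∑ i, (univ.filter (fun e => B i e ≠ 0)).card ≤ 2 * edgesIn G univ := by
  classical
  simp only [Finset.card_filter]
  rw [Finset.sum_comm]
  rw [edgesIn_univ, Finset.card_filter, Finset.mul_sum]
  refine Finset.sum_le_sum ?_
  intro e _
  by_cases he : e ∈ G.edgeSet
  · rw [if_pos he, ← Finset.card_filter]
    simpa using h2 e
  · rw [if_neg he]
    refine le_of_eq (Eq.trans (Finset.sum_eq_zero ?_) (by simp))
    intro i _
    rw [if_neg]
    intro h
    exact he ((hB i).1 e h)

theorem card_mul_le {G : SimpleGraph V} {m : ℕ} {B : Fin m → Sym2 V → ZMod 2}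
    (hB : ∀ i, B i ∈ cycleSpace G) (h2 : ∀ e, (univ.filter (fun i => B i e ≠ 0)).card ≤ 2)
    (t : ℕ) (ht : ∀ i, t ≤ (univ.filter (fun e => B i e ≠ 0)).card) :
    m * t ≤ 2 * edgesIn G univ := by
  refine le_trans ?_ (sum_support_le hB h2)
  have : ∑ _i : Fin m, t ≤ ∑ i, (univ.filter (fun e => B i e ≠ 0)).card :=
    Finset.sum_le_sum (fun i _ => ht i)
  simpa using this

end support

theorem not_mPlanar_K5 : ¬ MPlanar (⊤ : SimpleGraph (Fin 5)) := by
  classical
  intro h
  have hE : edgesIn (⊤ : SimpleGraph (Fin 5)) univ = 10 := by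
    rw [edgesIn_univ]
    have : (univ.filter (fun e : Sym2 (Fin 5) => e ∈ (⊤ : SimpleGraph (Fin 5)).edgeSet)) =
        univ.filter (fun e : Sym2 (Fin 5) => ¬ e.IsDiag) := by
      ext e
      simp [SimpleGraph.edgeSet_top]
    rw [this]
    decide
  obtain ⟨k, B, hB, hne, h2, -, hk⟩ := h.normal_form (by rw [hE]; simp)
  have := card_mul_le hB h2 3 (fun i => three_le_support (hB i) (hne i))
  rw [hE] at this hk
  simp only [Fintype.card_fin] at hk
  omega

theorem triangle_free_iff {V : Type} {G : SimpleGraph V} (h : G.CliqueFree 3) :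
    ∀ a b c, G.Adj a b → G.Adj b c → G.Adj c a → False := by
  classical
  intro a b c hab hbc hca
  exact h {a, b, c} (SimpleGraph.is3Clique_triple_iff.mpr ⟨hab, hca.symm, hbc⟩)

theorem MPlanar.edges_univ_le {V : Type} [Fintype V] {G : SimpleGraph V} (hG : MPlanar G)
    (h3 : G.CliqueFree 3) : edgesIn G univ ≤ 2 * Fintype.card V := by
  classical
  by_cases hcyc : Fintype.card V ≤ edgesIn G univ
  · by_cases hne : Nonempty V
    · obtain ⟨k, B, hB, hnz, h2, -, hk⟩ := hG.normal_form hcyc
      have := card_mul_le hB h2 4
        (fun i => (four_support (hB i) (triangle_free_iff h3) (hnz i)).1)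
      omega
    · rw [not_nonempty_iff] at hne
      have : edgesIn G univ = 0 := by
        rw [edgesIn_univ, Finset.card_eq_zero, Finset.filter_eq_empty_iff]
        intro e
        induction e with
        | _ a b => exact (hne.false a).elim
      omega
  · omega

theorem mPlanar_of_fintype {V : Type} [Fintype V] {G : SimpleGraph V} {ι : Type} [Fintype ι]
    (B : ι → Sym2 V → ZMod 2) (hB : ∀ i, B i ∈ cycleSpace G)
    (h2 : ∀ e, (univ.filter (fun i => B i e ≠ 0)).card ≤ 2)
    (hs : cycleSpace G ≤ Submodule.span (ZMod 2) (Set.range B)) : MPlanar G := by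
  classical
  let φ : Fin (Fintype.card ι) ≃ ι := (Fintype.equivFin ι).symm
  refine ⟨Fintype.card ι, fun i => B (φ i), fun i => hB _, ?_, ?_⟩
  · intro e
    refine le_trans ?_ (h2 e)
    refine Finset.card_le_card_of_injOn (fun i => φ i) ?_ ?_
    · intro i hi
      simp only [coe_filter, mem_univ, true_and, Set.mem_ofPred_eq] at hi ⊢
      exact hi
    · intro i _ j _ hij
      exact φ.injective hij
  · have : Set.range (fun i => B (φ i)) = Set.range B := φ.surjective.range_comp B
    rw [this]
    exact hs

section hubs

variable {V : Type}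

/-- extension by zero to the vertex set with a hub -/
noncomputable def liftO : (Sym2 V → ZMod 2) →ₗ[ZMod 2] (Sym2 (Option V) → ZMod 2) :=
  Function.ExtendByZero.linearMap (ZMod 2) (Sym2.map some)

theorem liftO_map (F : Sym2 V → ZMod 2) (e : Sym2 V) : liftO F (Sym2.map some e) = F e :=
  Function.Injective.extend_apply (Sym2.map.injective (Option.some_injective _)) _ _ _

theorem liftO_some (F : Sym2 V → ZMod 2) (a b : V) : liftO F s(some a, some b) = F s(a, b) := by
  have := liftO_map F s(a, b)
  rwa [Sym2.map_mk] at this

theorem liftO_none (F : Sym2 V → ZMod 2) (o : Option V) : liftO F s(none, o) = 0 := by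
  refine Function.extend_apply' _ _ _ ?_
  rintro ⟨a, ha⟩
  induction a with
  | _ a b =>
    rw [Sym2.map_mk, Sym2.eq_iff] at ha
    rcases ha with ⟨h, _⟩ | ⟨_, h⟩ <;> simp at h

theorem liftO_mem [Fintype V] {G : SimpleGraph V} {S : Set V} {F : Sym2 V → ZMod 2}
    (hF : F ∈ cycleSpace G) : liftO F ∈ cycleSpace (hub G S) := by
  classical
  refine ⟨?_, ?_⟩
  · intro e he
    induction e with
    | _ a b =>
      rcases a with _ | a
      · exact (he (liftO_none F b)).elim
      · rcases b with _ | b
        · rw [Sym2.eq_swap] at he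
          exact (he (liftO_none F _)).elim
        · rw [liftO_some] at he
          exact hF.1 _ he
  · intro o
    rw [Fintype.sum_option]
    rcases o with _ | v
    · simp only [liftO_none, Finset.sum_const_zero, add_zero]
    · rw [Sym2.eq_swap, liftO_none, zero_add]
      simp only [liftO_some]
      exact hF.2 v

theorem bdry_single {W : Type} [Fintype W] [DecidableEq W] {a b : W} (hab : a ≠ b) (v : W) :
    ∑ u, (Pi.single s(a, b) 1 : Sym2 W → ZMod 2) s(v, u) =
      (if v = a then 1 else 0) + (if v = b then 1 else 0) := by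
  simp only [Pi.single_apply]
  by_cases hva : v = a
  · subst hva
    rw [if_pos rfl, if_neg hab]
    simp only [Sym2.congr_right]
    simp
  · by_cases hvb : v = b
    · subst hvb
      rw [if_neg hva, if_pos rfl, Sym2.eq_swap]
      simp only [Sym2.congr_right]
      simp
    · rw [if_neg hva, if_neg hvb, add_zero]
      refine Finset.sum_eq_zero ?_
      intro u _
      rw [if_neg]
      rw [Sym2.eq_iff]
      rintro (⟨h, _⟩ | ⟨h, _⟩)
      · exact hva h
      · exact hvb h

open Classical in
/-- the characteristic function of a triangle -/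
noncomputable def tri {W : Type} (a b c : W) : Sym2 W → ZMod 2 :=
  Pi.single s(a, b) 1 + Pi.single s(b, c) 1 + Pi.single s(c, a) 1

theorem tri_mem {W : Type} [Fintype W] {H : SimpleGraph W} {a b c : W} (hab : H.Adj a b)
    (hbc : H.Adj b c) (hca : H.Adj c a) : tri a b c ∈ cycleSpace H := by
  classical
  refine ⟨?_, ?_⟩
  · intro e he
    by_contra hcon
    apply he
    have h1 : e ≠ s(a, b) := by rintro rfl; exact hcon hab
    have h2 : e ≠ s(b, c) := by rintro rfl; exact hcon hbc
    have h3 : e ≠ s(c, a) := by rintro rfl; exact hcon hca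
    simp [tri, h1, h2, h3]
  · intro v
    simp only [tri, Pi.add_apply, Finset.sum_add_distrib]
    rw [bdry_single hab.ne, bdry_single hbc.ne, bdry_single hca.ne]
    have : ∀ p q r : ZMod 2, (p + q) + (q + r) + (r + p) = 0 := by decide
    exact this _ _ _

theorem tri_hub_some (a b c d : V) [DecidableEq V] :
    tri none (some a) (some b) s(some c, some d) = if s(c, d) = s(a, b) then 1 else 0 := by
  classical
  have h1 : s(some c, some d) ≠ s(none, some a) := by
    rw [Ne, Sym2.eq_iff]
    rintro (⟨h, _⟩ | ⟨_, h⟩) <;> simp at h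
  have h3 : s(some c, some d) ≠ s(some b, none) := by
    rw [Ne, Sym2.eq_iff]
    rintro (⟨_, h⟩ | ⟨h, _⟩) <;> simp at h
  have h2 : s(some c, some d) = s(some a, some b) ↔ s(c, d) = s(a, b) := by
    rw [Sym2.eq_iff, Sym2.eq_iff]
    simp
  simp only [tri, Pi.add_apply, Pi.single_apply, h1, h3, h2, if_false, zero_add, add_zero]

theorem tri_hub_none (a b c : V) [DecidableEq V] :
    tri none (some a) (some b) s(none, some c) = (if c = a then 1 else 0) +
      (if c = b then 1 else 0) := by
  classical
  have h1 : s(none, some c) = s(none, some a) ↔ c = a := by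
    rw [Sym2.congr_right]
    simp
  have h2 : s(none, some c) ≠ s(some a, some b) := by
    rw [Ne, Sym2.eq_iff]
    rintro (⟨h, _⟩ | ⟨h, _⟩) <;> simp at h
  have h3 : s(none, some c) = s(some b, none) ↔ c = b := by
    rw [Sym2.eq_swap (a := some b), Sym2.congr_right]
    simp
  simp only [tri, Pi.add_apply, Pi.single_apply, h1, h2, h3, if_false, add_zero]

theorem tri_hub_none_none (a b : V) :
    tri none (some a) (some b) s(none, none) = 0 := by
  classical
  have h1 : s((none : Option V), none) ≠ s(none, some a) := by
    rw [Ne, Sym2.congr_right]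
    simp
  have h2 : s((none : Option V), none) ≠ s(some a, some b) := by
    rw [Ne, Sym2.eq_iff]
    rintro (⟨h, _⟩ | ⟨h, _⟩) <;> simp at h
  have h3 : s((none : Option V), none) ≠ s(some b, none) := by
    rw [Sym2.eq_swap (a := some b), Ne, Sym2.congr_right]
    simp
  simp only [tri, Pi.add_apply, Pi.single_apply, h1, h2, h3, if_false, add_zero]

end hubs

/-- If a triangle-free MacLane planar graph has many edges then it has a facial 4-cycle:
adding a hub in that face keeps the graph MacLane planar. -/
theorem MPlanar.exists_hub {V : Type} [Fintype V] {G : SimpleGraph V} (hG : MPlanar G)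
    (h3 : G.CliqueFree 3) (hV : Nonempty V) (he : 5 * Fintype.card V ≤ 3 * edgesIn G univ + 2) :
    ∃ x y z u : V, G.Adj x y ∧ G.Adj y z ∧ G.Adj z u ∧ G.Adj u x ∧ x ≠ z ∧ y ≠ u ∧
      MPlanar (hub G {x, y, z, u}) := by
  classical
  have hn1 : 1 ≤ Fintype.card V := Fintype.card_pos
  have hcyc : Fintype.card V ≤ edgesIn G univ := by omega
  obtain ⟨k, B, hB, hnz, h2, hspan, hk⟩ := hG.normal_form hcyc
  have hex : ∃ i0, (univ.filter (fun e => B i0 e ≠ 0)).card = 4 := by
    by_contra hcon
    push Not at hcon
    have := card_mul_le hB h2 5 (fun i => by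
      have h4 := (four_support (hB i) (triangle_free_iff h3) (hnz i)).1
      have h5 := hcon i
      omega)
    omega
  obtain ⟨i0, hi0⟩ := hex
  obtain ⟨x, y, z, u, hxy, hyz, hzu, hux, hxz, hyu, hmem⟩ :=
    (four_support (hB i0) (triangle_free_iff h3) (hnz i0)).2 hi0
  refine ⟨x, y, z, u, hxy, hyz, hzu, hux, hxz, hyu, ?_⟩
  have n1 : x ≠ y := hxy.ne
  have n2 : y ≠ z := hyz.ne
  have n3 : z ≠ u := hzu.ne
  have n4 : u ≠ x := hux.ne
  -- distinctness of the four edges
  have d12 : s(x, y) ≠ s(y, z) := by
    rw [Ne, Sym2.eq_iff]; rintro (⟨h, _⟩ | ⟨h, _⟩) <;> contradiction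
  have d13 : s(x, y) ≠ s(z, u) := by
    rw [Ne, Sym2.eq_iff]; rintro (⟨h, _⟩ | ⟨h, _⟩)
    · exact hxz h
    · exact n4 h.symm
  have d14 : s(x, y) ≠ s(u, x) := by
    rw [Ne, Sym2.eq_iff]; rintro (⟨h, _⟩ | ⟨_, h⟩)
    · exact n4 h.symm
    · exact hyu h
  have d23 : s(y, z) ≠ s(z, u) := by
    rw [Ne, Sym2.eq_iff]; rintro (⟨h, _⟩ | ⟨h, _⟩) <;> contradiction
  have d24 : s(y, z) ≠ s(u, x) := by
    rw [Ne, Sym2.eq_iff]; rintro (⟨h, _⟩ | ⟨h, _⟩)
    · exact hyu h
    · exact n1 h.symm
  have d34 : s(z, u) ≠ s(u, x) := by
    rw [Ne, Sym2.eq_iff]; rintro (⟨h, _⟩ | ⟨h, _⟩)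
    · exact n3 h
    · exact hxz h.symm
  -- the four triangles
  let T : Fin 4 → Sym2 (Option V) → ZMod 2 :=
    ![tri none (some x) (some y), tri none (some y) (some z), tri none (some z) (some u),
      tri none (some u) (some x)]
  have T0 : T 0 = tri none (some x) (some y) := rfl
  have T1 : T 1 = tri none (some y) (some z) := rfl
  have T2 : T 2 = tri none (some z) (some u) := rfl
  have T3 : T 3 = tri none (some u) (some x) := rfl
  have hx0 : (hub G {x, y, z, u}).Adj none (some x) := by simp [hub]
  have hy0 : (hub G {x, y, z, u}).Adj none (some y) := by simp [hub]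
  have hz0 : (hub G {x, y, z, u}).Adj none (some z) := by simp [hub]
  have hu0 : (hub G {x, y, z, u}).Adj none (some u) := by simp [hub]
  have hT : ∀ j, T j ∈ cycleSpace (hub G {x, y, z, u}) := by
    intro j
    fin_cases j
    · exact tri_mem hx0 hxy hy0.symm
    · exact tri_mem hy0 hyz hz0.symm
    · exact tri_mem hz0 hzu hu0.symm
    · exact tri_mem hu0 hux hx0.symm
  let ι := {i : Fin (k + 1) // i ≠ i0} ⊕ Fin 4
  let B' : ι → Sym2 (Option V) → ZMod 2 := Sum.elim (fun i => liftO (B i.1)) T
  have hB'T : ∀ j, T j ∈ Submodule.span (ZMod 2) (Set.range B') := by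
    intro j
    apply Submodule.subset_span
    exact ⟨Sum.inr j, rfl⟩
  -- the old face is the sum of the triangles
  have hsumT : liftO (B i0) = T 0 + T 1 + T 2 + T 3 := by
    funext e
    induction e with
    | _ a b =>
      have hN : ∀ o : Option V, liftO (B i0) s(none, o) = (T 0 + T 1 + T 2 + T 3) s(none, o) := by
        intro o
        rw [liftO_none]
        rcases o with _ | v
        · simp only [T0, T1, T2, T3, Pi.add_apply, tri_hub_none_none, add_zero]
        · simp only [T0, T1, T2, T3, Pi.add_apply, tri_hub_none]
          have : ∀ p q r s : ZMod 2, 0 = (p + q) + (q + r) + (r + s) + (s + p) := by decide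
          exact this _ _ _ _
      rcases a with _ | a
      · exact hN _
      · rcases b with _ | b
        · rw [Sym2.eq_swap]
          exact hN _
        · rw [liftO_some]
          simp only [T0, T1, T2, T3, Pi.add_apply, tri_hub_some]
          by_cases hz : B i0 s(a, b) = 0
          · have := (hmem s(a, b)).not.mp (not_not.mpr hz)
            push Not at this
            obtain ⟨e1, e2, e3, e4⟩ := this
            rw [if_neg e1, if_neg e2, if_neg e3, if_neg e4, hz]
            simp
          · have := (hmem s(a, b)).mp hz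
            rw [zmod2_ne_zero hz]
            rcases this with h | h | h | h
            · rw [h, if_pos rfl, if_neg d12, if_neg d13, if_neg d14]; simp
            · rw [h, if_neg d12.symm, if_pos rfl, if_neg d23, if_neg d24]; simp
            · rw [h, if_neg d13.symm, if_neg d23.symm, if_pos rfl, if_neg d34]; simp
            · rw [h, if_neg d14.symm, if_neg d24.symm, if_neg d34.symm, if_pos rfl]; simp
  refine mPlanar_of_fintype B' ?_ ?_ ?_
  · rintro (i | j)
    · exact liftO_mem (hB i.1)
    · exact hT j
  · intro e
    rw [Finset.card_filter, Fintype.sum_sum_type]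
    simp only [B', Sum.elim_inl, Sum.elim_inr]
    have hN : ∀ o : Option V, ∑ i : {i : Fin (k + 1) // i ≠ i0},
        (if liftO (B i.1) s(none, o) ≠ 0 then 1 else 0) +
        ∑ j, (if T j s(none, o) ≠ 0 then 1 else 0) ≤ 2 := by
      intro o
      simp only [liftO_none, ne_eq, not_true_eq_false, if_false, Finset.sum_const_zero, zero_add]
      rw [Fin.sum_univ_four, T0, T1, T2, T3]
      rcases o with _ | v
      · simp only [tri_hub_none_none]
        simp
      · simp only [tri_hub_none]
        by_cases e1 : v = x
        · subst e1; simp [n1, hxz, n4.symm]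
        · by_cases e2 : v = y
          · subst e2; simp [n1.symm, n2, hyu]
          · by_cases e3 : v = z
            · subst e3; simp [hxz.symm, n2.symm, n3]
            · by_cases e4 : v = u
              · subst e4; simp [n4, hyu.symm, n3.symm]
              · simp [e1, e2, e3, e4]
    induction e with
    | _ a b =>
      rcases a with _ | a
      · exact hN _
      · rcases b with _ | b
        · rw [Sym2.eq_swap]; exact hN _
        · simp only [liftO_some]
          have hcount := h2 s(a, b)
          rw [Finset.card_filter, Fintype.sum_eq_add_sum_subtype_ne _ i0] at hcount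
          rw [Fin.sum_univ_four]
          simp only [T0, T1, T2, T3, tri_hub_some]
          by_cases hz : B i0 s(a, b) = 0
          · have := (hmem s(a, b)).not.mp (not_not.mpr hz)
            push Not at this
            obtain ⟨e1, e2, e3, e4⟩ := this
            rw [if_neg e1, if_neg e2, if_neg e3, if_neg e4]
            simp only [ne_eq, not_true_eq_false, if_false, add_zero]
            simp only [hz, ne_eq, not_true_eq_false, if_false, zero_add] at hcount
            exact hcount
          · have := (hmem s(a, b)).mp hz
            rw [if_pos hz] at hcount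
            rcases this with h | h | h | h
            · rw [h, if_pos rfl, if_neg d12, if_neg d13, if_neg d14]
              rw [h] at hcount
              simp only [ne_eq, not_true_eq_false, if_false, add_zero, one_ne_zero,
                not_false_eq_true, if_true]
              simp only [ne_eq] at hcount
              omega
            · rw [h, if_neg d12.symm, if_pos rfl, if_neg d23, if_neg d24]
              rw [h] at hcount
              simp only [ne_eq, not_true_eq_false, if_false, add_zero, one_ne_zero,
                not_false_eq_true, if_true]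
              simp only [ne_eq] at hcount
              omega
            · rw [h, if_neg d13.symm, if_neg d23.symm, if_pos rfl, if_neg d34]
              rw [h] at hcount
              simp only [ne_eq, not_true_eq_false, if_false, add_zero, one_ne_zero,
                not_false_eq_true, if_true]
              simp only [ne_eq] at hcount
              omega
            · rw [h, if_neg d14.symm, if_neg d24.symm, if_neg d34.symm, if_pos rfl]
              rw [h] at hcount
              simp only [ne_eq, not_true_eq_false, if_false, add_zero, one_ne_zero,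
                not_false_eq_true, if_true]
              simp only [ne_eq] at hcount
              omega
  · intro F hF
    -- remove the spokes
    let a0 := F s(none, some x)
    let a1 := F s(none, some y)
    let a2 := F s(none, some z)
    let a3 := F s(none, some u)
    have hspoke : ∀ v, v ≠ x → v ≠ y → v ≠ z → v ≠ u → F s(none, some v) = 0 := by
      intro v h1 h2 h3 h4
      by_contra h
      have := hF.1 _ h
      have h5 : v ∈ ({x, y, z, u} : Set V) := this
      simp only [Set.mem_insert_iff, Set.mem_singleton_iff] at h5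
      tauto
    have hnn : F s(none, none) = 0 := by
      by_contra h
      have h5 : (hub G {x, y, z, u}).Adj none none := hF.1 _ h
      exact (hub G {x, y, z, u}).irrefl h5
    have hsum : a0 + a1 + a2 + a3 = 0 := by
      have h1 := hF.2 none
      rw [Fintype.sum_option, hnn, zero_add] at h1
      have h2 : ∑ v, F s(none, some v) = ∑ v ∈ ({x, y, z, u} : Finset V), F s(none, some v) := by
        symm
        apply Finset.sum_subset (Finset.subset_univ _)
        intro v _ hv
        simp only [mem_insert, mem_singleton, not_or] at hv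
        exact hspoke v hv.1 hv.2.1 hv.2.2.1 hv.2.2.2
      rw [h2, Finset.sum_insert (by simp [n1, hxz, n4.symm]),
        Finset.sum_insert (by simp [n2, hyu]), Finset.sum_insert (by simp [n3]),
        Finset.sum_singleton] at h1
      rw [← h1]
      ring
    let C := a0 • T 0 + (a0 + a1) • T 1 + (a0 + a1 + a2) • T 2
    have hC : C ∈ Submodule.span (ZMod 2) (Set.range B') :=
      Submodule.add_mem _ (Submodule.add_mem _ (Submodule.smul_mem _ _ (hB'T 0))
        (Submodule.smul_mem _ _ (hB'T 1))) (Submodule.smul_mem _ _ (hB'T 2))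
    have hC' : C ∈ cycleSpace (hub G {x, y, z, u}) :=
      Submodule.add_mem _ (Submodule.add_mem _ (Submodule.smul_mem _ _ (hT 0))
        (Submodule.smul_mem _ _ (hT 1))) (Submodule.smul_mem _ _ (hT 2))
    have hF' : F + C ∈ cycleSpace (hub G {x, y, z, u}) := Submodule.add_mem _ hF hC'
    have hno : ∀ o, (F + C) s(none, o) = 0 := by
      intro o
      rcases o with _ | v
      · simp only [C, T0, T1, T2, Pi.add_apply, Pi.smul_apply, tri_hub_none_none, hnn, smul_zero,
          add_zero]
      · simp only [C, T0, T1, T2, Pi.add_apply, Pi.smul_apply, tri_hub_none, smul_eq_mul]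
        have key1 : ∀ p : ZMod 2, p + p = 0 := by decide
        by_cases e1 : v = x
        · subst e1
          simp only [if_true, if_neg n1, if_neg hxz, if_neg n4.symm, add_zero, mul_zero, mul_one]
          exact key1 _
        · by_cases e2 : v = y
          · subst e2
            simp only [if_true, if_neg e1, if_neg n2, if_neg hyu, add_zero, zero_add, mul_zero,
              mul_one]
            show a1 + (a0 + (a0 + a1)) = 0
            revert hsum
            generalize a0 = p; generalize a1 = q; generalize a2 = r; generalize a3 = s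
            revert p q r s
            decide
          · by_cases e3 : v = z
            · subst e3
              simp only [if_true, if_neg e1, if_neg e2, if_neg n3, add_zero, zero_add, mul_zero,
                mul_one]
              show a2 + ((a0 + a1) + (a0 + a1 + a2)) = 0
              revert hsum
              generalize a0 = p; generalize a1 = q; generalize a2 = r; generalize a3 = s
              revert p q r s
              decide
            · by_cases e4 : v = u
              · subst e4
                simp only [if_true, if_neg e1, if_neg e2, if_neg e3, add_zero, zero_add, mul_zero,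
                  mul_one]
                show a3 + (a0 + a1 + a2) = 0
                revert hsum
                generalize a0 = p; generalize a1 = q; generalize a2 = r; generalize a3 = s
                revert p q r s
                decide
              · simp only [if_neg e1, if_neg e2, if_neg e3, if_neg e4, add_zero, mul_zero]
                exact hspoke v e1 e2 e3 e4
    -- restriction
    let R : Sym2 V → ZMod 2 := fun e => (F + C) (Sym2.map some e)
    have hR : R ∈ cycleSpace G := by
      refine ⟨?_, ?_⟩
      · intro e he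
        induction e with
        | _ a b =>
          have := hF'.1 _ he
          rw [Sym2.map_mk] at this
          exact this
      · intro v
        have := hF'.2 (some v)
        rw [Fintype.sum_option, Sym2.eq_swap, hno, zero_add] at this
        exact this
    have hlift : F + C = liftO R := by
      funext e
      induction e with
      | _ a b =>
        rcases a with _ | a
        · rw [hno, liftO_none]
        · rcases b with _ | b
          · rw [Sym2.eq_swap, hno, liftO_none]
          · rw [liftO_some]
            rfl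
    have hRs : R ∈ Submodule.span (ZMod 2) (Set.range B) := hspan hR
    have hmap : Submodule.span (ZMod 2) (Set.range B) ≤
        (Submodule.span (ZMod 2) (Set.range B')).comap liftO := by
      rw [Submodule.span_le]
      rintro _ ⟨i, rfl⟩
      show liftO (B i) ∈ Submodule.span (ZMod 2) (Set.range B')
      by_cases hi : i = i0
      · subst hi
        rw [hsumT]
        exact Submodule.add_mem _ (Submodule.add_mem _ (Submodule.add_mem _ (hB'T 0) (hB'T 1))
          (hB'T 2)) (hB'T 3)
      · apply Submodule.subset_span
        exact ⟨Sum.inl ⟨i, hi⟩, rfl⟩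
    have hFC : F + C ∈ Submodule.span (ZMod 2) (Set.range B') := by
      rw [hlift]
      exact hmap hRs
    have : F = (F + C) - C := by abel
    rw [this]
    exact Submodule.sub_mem _ hFC hC

end Pool.Agent.TFP
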