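import Pool.Agent.Lib.TFP.Defs

/-!
Module B1. MacLane planarity is closed under minors.
-/

set_option autoImplicit false

namespace Pool.Agent.TFP

open Finset

/-! ### The boundary map -/

/-- The boundary of a chain of edges. -/
def bd {V : Type} [Fintype V] : (Sym2 V → ZMod 2) →ₗ[ZMod 2] (V → ZMod 2) where
  toFun F v := ∑ u, F s(v, u)
  map_add' F F' := by
    funext v
    simp [Finset.sum_add_distrib]
  map_smul' c F := by
    funext v
    simp [Finset.mul_sum]

theorem bd_apply {V : Type} [Fintype V] (F : Sym2 V → ZMod 2) (v : V) :
    bd F v = ∑ u, F s(v, u) := rfl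

theorem mem_cycleSpace_iff {V : Type} [Fintype V] {G : SimpleGraph V} {F : Sym2 V → ZMod 2} :
    F ∈ cycleSpace G ↔ (∀ e, F e ≠ 0 → e ∈ G.edgeSet) ∧ ∀ v, bd F v = 0 := Iff.rfl

theorem bd_single {V : Type} [Fintype V] [DecidableEq V] {a b : V} (h : a ≠ b) (v : V) :
    bd (Pi.single s(a, b) (1 : ZMod 2)) v =
      (if v = a then 1 else 0) + (if v = b then 1 else 0) := by
  rw [bd_apply]
  by_cases hva : v = a
  · subst hva
    rw [Finset.sum_eq_single b]
    · simp [h]
    · intro u _ hu
      rw [Pi.single_eq_of_ne]
      intro h'
      rw [Sym2.eq_iff] at h'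
      rcases h' with h' | h'
      · exact hu h'.2
      · exact h h'.1
    · intro h'
      exact absurd (Finset.mem_univ _) h'
  · by_cases hvb : v = b
    · subst hvb
      rw [Finset.sum_eq_single a]
      · rw [Sym2.eq_swap, Pi.single_eq_same]
        simp [hva]
      · intro u _ hu
        rw [Pi.single_eq_of_ne]
        intro h'
        rw [Sym2.eq_iff] at h'
        rcases h' with h' | h'
        · exact hva h'.1
        · exact hu h'.2
      · intro h'
        exact absurd (Finset.mem_univ _) h'
    · rw [Finset.sum_eq_zero]
      · simp [hva, hvb]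
      · intro u _
        rw [Pi.single_eq_of_ne]
        intro h'
        rw [Sym2.eq_iff] at h'
        rcases h' with h' | h'
        · exact hva h'.1
        · exact hvb h'.1

/-- Every function of sum zero supported on a connected set is the boundary of a chain of edges
inside the set. -/
theorem exists_chain {V : Type} [Fintype V] {G : SimpleGraph V} {A : Set V}
    (hA : (G.induce A).Connected) (d : V → ZMod 2) (hd : ∀ v, v ∉ A → d v = 0)
    (hsum : ∑ v, d v = 0) :
    ∃ F : Sym2 V → ZMod 2, (∀ e, F e ≠ 0 → e ∈ G.edgeSet ∧ ∀ v ∈ e, v ∈ A) ∧ bd F = d := by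
  classical
  -- realizable boundaries
  let R : Submodule (ZMod 2) (V → ZMod 2) :=
    { carrier := {d | ∃ F : Sym2 V → ZMod 2,
        (∀ e, F e ≠ 0 → e ∈ G.edgeSet ∧ ∀ v ∈ e, v ∈ A) ∧ bd F = d}
      add_mem' := by
        rintro d d' ⟨F, hF, rfl⟩ ⟨F', hF', rfl⟩
        refine ⟨F + F', ?_, map_add _ _ _⟩
        intro e he
        by_cases h : F e = 0
        · by_cases h' : F' e = 0
          · simp [h, h'] at he
          · exact hF' e h'
        · exact hF e h
      zero_mem' := ⟨0, by simp, map_zero _⟩
      smul_mem' := by
        rintro c d ⟨F, hF, rfl⟩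
        refine ⟨c • F, ?_, map_smul _ _ _⟩
        intro e he
        apply hF e
        intro h
        simp [h] at he }
  have hR : ∀ d, d ∈ R ↔ ∃ F : Sym2 V → ZMod 2,
        (∀ e, F e ≠ 0 → e ∈ G.edgeSet ∧ ∀ v ∈ e, v ∈ A) ∧ bd F = d := fun d => Iff.rfl
  have hadj : ∀ a ∈ A, ∀ b ∈ A, G.Adj a b →
      (Pi.single a (1 : ZMod 2) + Pi.single b (1 : ZMod 2) : V → ZMod 2) ∈ R := by
    intro a ha b hb hab
    refine ⟨Pi.single s(a, b) 1, ?_, ?_⟩
    · intro e he
      have : e = s(a, b) := by
        by_contra h
        exact he (Pi.single_eq_of_ne h _)
      subst this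
      refine ⟨hab, ?_⟩
      intro v hv
      rw [Sym2.mem_iff] at hv
      rcases hv with rfl | rfl
      · exact ha
      · exact hb
    · funext v
      rw [bd_single hab.ne, Pi.add_apply, Pi.single_apply, Pi.single_apply]
  have htwo : ∀ x : V → ZMod 2, x + x = 0 := by
    intro x
    funext v
    exact CharTwo.add_self_eq_zero _
  obtain ⟨⟨a₀, ha₀⟩⟩ := hA.nonempty
  have hwalk : ∀ (x y : A), (G.induce A).Walk x y →
      (Pi.single (x : V) (1 : ZMod 2) + Pi.single (y : V) (1 : ZMod 2) : V → ZMod 2) ∈ R := by
    intro x y w
    induction w with
    | nil => rw [htwo]; exact R.zero_mem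
    | @cons u v w h _ ih =>
      have h1 := hadj u u.2 v v.2 h
      have h2 := R.add_mem h1 ih
      have h3 : (Pi.single (u : V) (1 : ZMod 2) + Pi.single (v : V) (1 : ZMod 2) : V → ZMod 2) +
          (Pi.single (v : V) (1 : ZMod 2) + Pi.single (w : V) (1 : ZMod 2)) =
          (Pi.single (u : V) (1 : ZMod 2) + Pi.single (w : V) (1 : ZMod 2)) +
          (Pi.single (v : V) (1 : ZMod 2) + Pi.single (v : V) (1 : ZMod 2)) := by abel
      rw [h3, htwo, add_zero] at h2
      exact h2
  have hpair : ∀ v ∈ A, (Pi.single v (1 : ZMod 2) + Pi.single a₀ (1 : ZMod 2) : V → ZMod 2) ∈ R := by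
    intro v hv
    obtain ⟨w⟩ := hA.preconnected ⟨v, hv⟩ ⟨a₀, ha₀⟩
    exact hwalk _ _ w
  rw [← hR]
  have hdec : d = ∑ v, d v • (Pi.single v (1 : ZMod 2) + Pi.single a₀ (1 : ZMod 2) : V → ZMod 2) := by
    simp only [smul_add, Finset.sum_add_distrib]
    rw [← Finset.sum_smul, hsum, zero_smul, add_zero]
    funext u
    rw [Finset.sum_apply, Finset.sum_eq_single u]
    · simp
    · intro v _ hv
      simp [Pi.single_eq_of_ne hv.symm]
    · intro h
      exact absurd (Finset.mem_univ _) h
  rw [hdec]
  refine R.sum_mem fun v _ => ?_
  by_cases hv : v ∈ A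
  · exact R.smul_mem _ (hpair v hv)
  · rw [hd v hv, zero_smul]
    exact R.zero_mem

/-! ### Spaces with a family covering every coordinate at most twice -/

/-- A space of functions generated by a family covering each coordinate at most twice. -/
def TwoCov {E : Type} (C : Submodule (ZMod 2) (E → ZMod 2)) : Prop :=
  ∃ (n : ℕ) (B : Fin n → E → ZMod 2), (∀ i, B i ∈ C) ∧
    (∀ e, (univ.filter (fun i => B i e ≠ 0)).card ≤ 2) ∧
    C ≤ Submodule.span (ZMod 2) (Set.range B)

/-- the functions vanishing on `X` -/
def vanish {E : Type} (X : Set E) : Submodule (ZMod 2) (E → ZMod 2) where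
  carrier := {F | ∀ e ∈ X, F e = 0}
  add_mem' := by
    intro F F' hF hF' e he
    simp [hF e he, hF' e he]
  zero_mem' := by
    intro e _
    rfl
  smul_mem' := by
    intro c F hF e he
    simp [hF e he]

theorem mem_vanish {E : Type} {X : Set E} {F : E → ZMod 2} :
    F ∈ vanish X ↔ ∀ e ∈ X, F e = 0 := Iff.rfl

theorem zmod2_eq_one {x : ZMod 2} (h : x ≠ 0) : x = 1 := by
  revert x
  decide

theorem TwoCov.delete {E : Type} {C : Submodule (ZMod 2) (E → ZMod 2)} (h : TwoCov C) (e : E) :
    TwoCov (C ⊓ vanish {e}) := by
  classical
  obtain ⟨n, B, hB, hcov, hspan⟩ := h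
  by_cases h0 : ∃ i, B i e ≠ 0
  · obtain ⟨i, hi⟩ := h0
    by_cases h1 : ∃ j, j ≠ i ∧ B j e ≠ 0
    · obtain ⟨j, hji, hj⟩ := h1
      have honly : ∀ k, k ≠ i → k ≠ j → B k e = 0 := by
        intro k hki hkj
        by_contra hk
        have hsub : ({i, j, k} : Finset (Fin n)) ⊆ univ.filter (fun i => B i e ≠ 0) := by
          intro x hx
          simp only [Finset.mem_insert, Finset.mem_singleton] at hx
          simp only [Finset.mem_filter, Finset.mem_univ, true_and]
          rcases hx with rfl | rfl | rfl
          · exact hi
          · exact hj
          · exact hk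
        have hc := Finset.card_le_card hsub
        rw [Finset.card_insert_of_notMem (by simp [hji.symm, hki.symm]),
          Finset.card_insert_of_notMem (by simp [hkj.symm]), Finset.card_singleton] at hc
        have := hcov e
        omega
      set B' : Fin n → E → ZMod 2 := fun k => if k = i then B i + B j else if k = j then 0 else B k
        with hB'
      have hB'i : B' i = B i + B j := by simp [hB']
      have hB'j : B' j = 0 := by simp [hB', hji]
      have hB'k : ∀ k, k ≠ i → k ≠ j → B' k = B k := by
        intro k h1 h2
        simp [hB', h1, h2]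
      refine ⟨n, B', ?_, ?_, ?_⟩
      · intro k
        by_cases hki : k = i
        · subst hki
          rw [hB'i]
          refine ⟨C.add_mem (hB _) (hB _), ?_⟩
          intro x hx
          rw [Set.mem_singleton_iff] at hx
          subst hx
          rw [Pi.add_apply, zmod2_eq_one hi, zmod2_eq_one hj]
          decide
        · by_cases hkj : k = j
          · subst hkj
            rw [hB'j]
            exact Submodule.zero_mem _
          · rw [hB'k k hki hkj]
            refine ⟨hB k, ?_⟩
            intro x hx
            rw [Set.mem_singleton_iff] at hx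
            subst hx
            exact honly k hki hkj
      · intro x
        refine le_trans ?_ (hcov x)
        by_cases hxi : B i x ≠ 0
        · apply Finset.card_le_card
          intro k hk
          simp only [Finset.mem_filter, Finset.mem_univ, true_and] at hk ⊢
          by_cases hki : k = i
          · subst hki; exact hxi
          · by_cases hkj : k = j
            · subst hkj
              rw [hB'j] at hk
              exact absurd rfl hk
            · rwa [hB'k k hki hkj] at hk
        · push Not at hxi
          have hmap : ∀ k ∈ univ.filter (fun k => B' k x ≠ 0),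
              (if k = i then j else k) ∈ univ.filter (fun k => B k x ≠ 0) := by
            intro k hk
            simp only [Finset.mem_filter, Finset.mem_univ, true_and] at hk ⊢
            by_cases hki : k = i
            · subst hki
              rw [hB'i, Pi.add_apply, hxi, zero_add] at hk
              simpa using hk
            · by_cases hkj : k = j
              · subst hkj
                rw [hB'j] at hk
                exact absurd rfl hk
              · rw [hB'k k hki hkj] at hk
                simpa [hki] using hk
          refine Finset.card_le_card_of_injOn (fun k => if k = i then j else k) hmap ?_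
          intro k hk l hl hkl
          simp only [Finset.coe_filter, Finset.mem_univ, true_and, Set.mem_ofPred_eq] at hk hl
          have hkj : k ≠ j := by
            rintro rfl
            rw [hB'j] at hk
            exact hk rfl
          have hlj : l ≠ j := by
            rintro rfl
            rw [hB'j] at hl
            exact hl rfl
          simp only at hkl
          split_ifs at hkl with h1 h2 h2
          · rw [h1, h2]
          · exact absurd hkl.symm hlj
          · exact absurd hkl hkj
          · exact hkl
      · rintro F ⟨hFC, hFe⟩
        have hF := hspan hFC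
        rw [Submodule.mem_span_range_iff_exists_fun] at hF
        obtain ⟨c, rfl⟩ := hF
        have hcij : c i = c j := by
          have h1 := hFe e rfl
          rw [Finset.sum_apply, ← Finset.sum_subset (Finset.subset_univ {i, j})] at h1
          · rw [Finset.sum_pair hji.symm] at h1
            simp only [Pi.smul_apply, smul_eq_mul, zmod2_eq_one hi, zmod2_eq_one hj, mul_one] at h1
            exact CharTwo.add_eq_zero.mp h1
          · intro k _ hk
            simp only [Finset.mem_insert, Finset.mem_singleton, not_or] at hk
            rw [Pi.smul_apply, honly k hk.1 hk.2, smul_zero]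
        have hsum : ∑ k, c k • B k = ∑ k, c k • B' k := by
          rw [← Finset.sum_compl_add_sum {i, j} (fun k => c k • B k),
            ← Finset.sum_compl_add_sum {i, j} (fun k => c k • B' k)]
          congr 1
          · apply Finset.sum_congr rfl
            intro k hk
            simp only [Finset.mem_compl, Finset.mem_insert, Finset.mem_singleton, not_or] at hk
            rw [hB'k k hk.1 hk.2]
          · rw [Finset.sum_pair hji.symm, Finset.sum_pair hji.symm, hB'i, hB'j, hcij, smul_zero,
              add_zero, smul_add]
        rw [hsum]
        exact Submodule.sum_mem _ fun k _ => Submodule.smul_mem _ _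
          (Submodule.subset_span ⟨k, rfl⟩)
    · push Not at h1
      set B' : Fin n → E → ZMod 2 := fun k => if k = i then 0 else B k with hB'
      refine ⟨n, B', ?_, ?_, ?_⟩
      · intro k
        by_cases hki : k = i
        · simp only [hB', hki, if_true]
          exact Submodule.zero_mem _
        · simp only [hB', hki, if_false]
          refine ⟨hB k, ?_⟩
          intro x hx
          rw [Set.mem_singleton_iff] at hx
          subst hx
          exact h1 k hki
      · intro x
        refine le_trans (Finset.card_le_card ?_) (hcov x)
        intro k hk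
        simp only [Finset.mem_filter, Finset.mem_univ, true_and] at hk ⊢
        by_cases hki : k = i
        · simp [hB', hki] at hk
        · simpa [hB', hki] using hk
      · rintro F ⟨hFC, hFe⟩
        have hF := hspan hFC
        rw [Submodule.mem_span_range_iff_exists_fun] at hF
        obtain ⟨c, rfl⟩ := hF
        have hci : c i = 0 := by
          have h2 := hFe e rfl
          rw [Finset.sum_apply, Finset.sum_eq_single i] at h2
          · simpa [zmod2_eq_one hi] using h2
          · intro k _ hk
            rw [Pi.smul_apply, h1 k hk, smul_zero]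
          · intro h
            exact absurd (Finset.mem_univ _) h
        have hsum : ∑ k, c k • B k = ∑ k, c k • B' k := by
          apply Finset.sum_congr rfl
          intro k _
          by_cases hki : k = i
          · rw [hki, hci, zero_smul, zero_smul]
          · simp [hB', hki]
        rw [hsum]
        exact Submodule.sum_mem _ fun k _ => Submodule.smul_mem _ _
          (Submodule.subset_span ⟨k, rfl⟩)
  · push Not at h0
    refine ⟨n, B, ?_, hcov, fun F hF => hspan hF.1⟩
    intro i
    refine ⟨hB i, ?_⟩
    intro x hx
    rw [Set.mem_singleton_iff] at hx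
    subst hx
    exact h0 i

theorem TwoCov.deleteSet {E : Type} [Fintype E] {C : Submodule (ZMod 2) (E → ZMod 2)}
    (h : TwoCov C) (X : Set E) : TwoCov (C ⊓ vanish X) := by
  classical
  have key : ∀ s : Finset E, TwoCov (C ⊓ vanish (s : Set E)) := by
    intro s
    induction s using Finset.induction_on with
    | empty =>
      have : C ⊓ vanish ((∅ : Finset E) : Set E) = C := by
        rw [inf_eq_left]
        intro F _ e he
        simp at he
      rw [this]
      exact h
    | insert a s _ ih =>
      have : C ⊓ vanish ((insert a s : Finset E) : Set E) = (C ⊓ vanish (s : Set E)) ⊓ vanish {a} := by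
        ext F
        simp only [Submodule.mem_inf, mem_vanish, Finset.coe_insert, Set.mem_insert_iff,
          Set.mem_singleton_iff]
        constructor
        · rintro ⟨h1, h2⟩
          exact ⟨⟨h1, fun e he => h2 e (Or.inr he)⟩, fun e he => h2 e (Or.inl he)⟩
        · rintro ⟨⟨h1, h2⟩, h3⟩
          refine ⟨h1, ?_⟩
          rintro e (he | he)
          · exact h3 e he
          · exact h2 e he
      rw [this]
      exact ih.delete a
  have := key (Set.toFinset X)
  rwa [Set.coe_toFinset] at this

theorem TwoCov.map {E E' : Type} {C : Submodule (ZMod 2) (E → ZMod 2)}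
    {C' : Submodule (ZMod 2) (E' → ZMod 2)} (h : TwoCov C)
    (π : (E → ZMod 2) →ₗ[ZMod 2] (E' → ZMod 2))
    (hπ : ∀ e', (∃ e, ∀ F, π F e' = F e) ∨ ∀ F, π F e' = 0)
    (hinto : ∀ F ∈ C, π F ∈ C') (honto : ∀ F' ∈ C', ∃ F ∈ C, π F = F') : TwoCov C' := by
  classical
  obtain ⟨n, B, hB, hcov, hspan⟩ := h
  refine ⟨n, fun i => π (B i), fun i => hinto _ (hB i), ?_, ?_⟩
  · intro e'
    rcases hπ e' with ⟨e, he⟩ | he
    · simp only [he]
      exact hcov e
    · simp [he]
  · intro F' hF'
    obtain ⟨F, hF, rfl⟩ := honto F' hF'
    have h1 := hspan hF
    rw [Submodule.mem_span_range_iff_exists_fun] at h1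
    obtain ⟨c, rfl⟩ := h1
    rw [map_sum]
    refine Submodule.sum_mem _ fun k _ => ?_
    rw [map_smul]
    exact Submodule.smul_mem _ _ (Submodule.subset_span ⟨k, rfl⟩)

/-! ### The main statement -/

/-- minors of MacLane planar graphs are MacLane planar -/
theorem MPlanar.minor {V W : Type} [Fintype V] [Fintype W] {G : SimpleGraph V} {H : SimpleGraph W}
    (hG : MPlanar G) (hH : IsMinorOf H G) : MPlanar H := by
  classical
  obtain ⟨f, hconn, hadj⟩ := hH
  -- a representing edge for every edge of `H`
  have hrep : ∀ e : Sym2 W, ∃ x : Sym2 V, e ∈ H.edgeSet →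
      x ∈ G.edgeSet ∧ Sym2.map f x = Sym2.map some e := by
    intro e
    by_cases he : e ∈ H.edgeSet
    · induction e using Sym2.ind with
      | _ w w' =>
        obtain ⟨v, v', hv, hv', hvv'⟩ := hadj w w' he
        refine ⟨s(v, v'), fun _ => ⟨hvv', ?_⟩⟩
        rw [Sym2.map_mk, Sym2.map_mk, hv, hv']
    · obtain ⟨v, hv⟩ : ∃ v : V, True := by
        induction e using Sym2.ind with
        | _ w w' =>
          obtain ⟨⟨v, _⟩⟩ := (hconn w).nonempty
          exact ⟨v, trivial⟩
      exact ⟨s(v, v), fun h => absurd h he⟩
  choose t ht using hrep
  have htinj : ∀ e ∈ H.edgeSet, ∀ e' ∈ H.edgeSet, t e = t e' → e = e' := by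
    intro e he e' he' h
    have h1 := (ht e he).2
    have h2 := (ht e' he').2
    rw [h, h2] at h1
    exact (Sym2.map.injective (Option.some_injective W) h1).symm
  -- the edges that are kept
  set T : Set (Sym2 V) := {x | x ∈ G.edgeSet ∧ ((∃ w, ∀ v ∈ x, f v = some w) ∨
    ∃ e ∈ H.edgeSet, x = t e)} with hT
  have h1 : TwoCov (cycleSpace G ⊓ vanish Tᶜ) := TwoCov.deleteSet hG _
  -- the projection
  let π : (Sym2 V → ZMod 2) →ₗ[ZMod 2] (Sym2 W → ZMod 2) :=
    { toFun := fun F e => if e ∈ H.edgeSet then F (t e) else 0
      map_add' := by
        intro F F'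
        funext e
        by_cases he : e ∈ H.edgeSet <;> simp [he]
      map_smul' := by
        intro c F
        funext e
        by_cases he : e ∈ H.edgeSet <;> simp [he] }
  have hπ : ∀ F e, π F e = if e ∈ H.edgeSet then F (t e) else 0 := fun F e => rfl
  -- the sum of the boundary over a fibre
  let L : (Sym2 V → ZMod 2) →ₗ[ZMod 2] (W → ZMod 2) :=
    { toFun := fun F w => ∑ v, if f v = some w then bd F v else 0
      map_add' := by
        intro F F'
        funext w
        rw [Pi.add_apply, ← Finset.sum_add_distrib]
        apply Finset.sum_congr rfl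
        intro v _
        by_cases h : f v = some w <;> simp [h]
      map_smul' := by
        intro c F
        funext w
        rw [Pi.smul_apply, Finset.smul_sum]
        apply Finset.sum_congr rfl
        intro v _
        by_cases h : f v = some w <;> simp [h] }
  have hL : ∀ F w, L F w = ∑ v, if f v = some w then bd F v else 0 := fun F w => rfl
  -- an edge whose ends have different images is not kept inside a fibre
  have hsingle : ∀ x ∈ T, L (Pi.single x 1) = bd (π (Pi.single x 1)) := by
    rintro x ⟨hxG, hx⟩
    have hLx : ∀ a b : V, a ≠ b → ∀ w, L (Pi.single s(a, b) 1) w =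
        (if f a = some w then 1 else 0) + (if f b = some w then 1 else 0) := by
      intro a b hab w
      rw [hL]
      have h2 : ∀ v, (if f v = some w then bd (Pi.single s(a, b) (1 : ZMod 2)) v else 0) =
          (if v = a then (if f a = some w then 1 else 0) else 0) +
          (if v = b then (if f b = some w then 1 else 0) else 0) := by
        intro v
        rw [bd_single hab]
        by_cases hva : v = a
        · subst hva
          by_cases hw : f v = some w <;> simp [hw, hab]
        · by_cases hvb : v = b
          · subst hvb
            by_cases hw : f v = some w <;> simp [hw, hva]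
          · simp [hva, hvb]
      rw [Finset.sum_congr rfl (fun v _ => h2 v), Finset.sum_add_distrib]
      simp
    by_cases hx' : ∃ e ∈ H.edgeSet, x = t e
    · obtain ⟨e, he, rfl⟩ := hx'
      have hπe : π (Pi.single (t e) 1) = Pi.single e 1 := by
        funext e'
        rw [hπ]
        by_cases hee' : e' = e
        · subst hee'
          simp [he]
        · rw [Pi.single_eq_of_ne hee']
          by_cases he' : e' ∈ H.edgeSet
          · rw [if_pos he', Pi.single_eq_of_ne]
            intro h
            exact hee' (htinj e' he' e he h)
          · rw [if_neg he']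
      rw [hπe]
      have hmap := (ht e he).2
      have hte := (ht e he).1
      revert hmap hte he
      generalize t e = x
      induction e using Sym2.ind with
      | _ w₁ w₂ =>
        induction x using Sym2.ind with
        | _ a b =>
          intro he hmap hte
          have hab : a ≠ b := by
            rintro rfl
            exact G.loopless.irrefl _ hte
          have hww : w₁ ≠ w₂ := by
            rintro rfl
            exact H.loopless.irrefl _ he
          funext w
          rw [hLx a b hab, bd_single hww]
          rw [Sym2.map_mk, Sym2.map_mk, Sym2.eq_iff] at hmap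
          rcases hmap with ⟨ha, hb⟩ | ⟨ha, hb⟩
          · rw [ha, hb]
            simp only [Option.some.injEq, eq_comm]
          · rw [ha, hb, add_comm]
            simp only [Option.some.injEq, eq_comm]
    · have hπ0 : π (Pi.single x 1) = 0 := by
        funext e
        rw [hπ]
        by_cases he : e ∈ H.edgeSet
        · rw [if_pos he, Pi.single_eq_of_ne]
          · rfl
          · rintro h
            exact hx' ⟨e, he, h.symm⟩
        · rw [if_neg he]
          rfl
      rw [hπ0, map_zero]
      rcases hx with ⟨w₀, hw₀⟩ | hx
      · revert hw₀ hxG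
        induction x using Sym2.ind with
        | _ a b =>
          intro hxG hw₀
          have hab : a ≠ b := by
            rintro rfl
            exact G.loopless.irrefl _ hxG
          funext w
          rw [hLx a b hab, hw₀ a (Sym2.mem_mk_left _ _), hw₀ b (Sym2.mem_mk_right _ _)]
          exact CharTwo.add_self_eq_zero _
      · exact absurd hx hx'
  have hLbd : ∀ F : Sym2 V → ZMod 2, (∀ x, x ∉ T → F x = 0) → L F = bd (π F) := by
    intro F hF
    have hdec : F = ∑ x, F x • (Pi.single x (1 : ZMod 2) : Sym2 V → ZMod 2) := by
      funext y
      rw [Finset.sum_apply, Finset.sum_eq_single y]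
      · simp
      · intro x _ hx
        simp [Pi.single_eq_of_ne hx.symm]
      · intro h
        exact absurd (Finset.mem_univ _) h
    rw [hdec]
    simp only [map_sum, map_smul]
    apply Finset.sum_congr rfl
    intro x _
    by_cases hx : x ∈ T
    · rw [hsingle x hx]
    · rw [hF x hx, zero_smul, zero_smul]
  have hvan : ∀ F : Sym2 V → ZMod 2, F ∈ vanish Tᶜ ↔ ∀ x, x ∉ T → F x = 0 := fun F => Iff.rfl
  refine TwoCov.map h1 π ?_ ?_ ?_
  · intro e
    by_cases he : e ∈ H.edgeSet
    · left
      exact ⟨t e, fun F => by rw [hπ, if_pos he]⟩
    · right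
      intro F
      rw [hπ, if_neg he]
  · rintro F ⟨hF1, hF2⟩
    rw [mem_cycleSpace_iff]
    refine ⟨?_, ?_⟩
    · intro e he
      by_contra h
      rw [hπ, if_neg h] at he
      exact he rfl
    · intro w
      rw [← hLbd F ((hvan F).mp hF2), hL]
      apply Finset.sum_eq_zero
      intro v _
      have := (mem_cycleSpace_iff.mp hF1).2 v
      rw [this, ite_self]
  · intro F' hF'
    rw [mem_cycleSpace_iff] at hF'
    -- the lift of the chain to the representing edges
    set F₀ : Sym2 V → ZMod 2 := ∑ e, F' e • (Pi.single (t e) (1 : ZMod 2)) with hF₀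
    have hF₀T : ∀ x, x ∉ T → F₀ x = 0 := by
      intro x hx
      rw [hF₀, Finset.sum_apply]
      apply Finset.sum_eq_zero
      intro e _
      by_cases he : e ∈ H.edgeSet
      · have : x ≠ t e := by
          rintro rfl
          exact hx ⟨(ht e he).1, Or.inr ⟨e, he, rfl⟩⟩
        rw [Pi.smul_apply, Pi.single_eq_of_ne this, smul_zero]
      · have : F' e = 0 := by
          by_contra h
          exact he (hF'.1 e h)
        rw [this, zero_smul]
        rfl
    have hπF₀ : π F₀ = F' := by
      rw [hF₀, map_sum]
      funext e'
      rw [Finset.sum_apply, Finset.sum_eq_single e']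
      · rw [map_smul, Pi.smul_apply, hπ]
        by_cases he : e' ∈ H.edgeSet
        · simp [he]
        · have : F' e' = 0 := by
            by_contra h
            exact he (hF'.1 e' h)
          rw [this, zero_smul]
      · intro e _ hee'
        rw [map_smul, Pi.smul_apply, hπ]
        by_cases he : e ∈ H.edgeSet
        · by_cases he' : e' ∈ H.edgeSet
          · rw [if_pos he', Pi.single_eq_of_ne, smul_zero]
            intro h
            exact hee' (htinj e' he' e he h).symm
          · rw [if_neg he', smul_zero]
        · have : F' e = 0 := by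
            by_contra h
            exact he (hF'.1 e h)
          rw [this, zero_smul]
      · intro h
        exact absurd (Finset.mem_univ _) h
    clear_value F₀
    -- the boundary of the lift, fibre by fibre
    have hsum : ∀ w, ∑ v, (if f v = some w then bd F₀ v else 0) = 0 := by
      intro w
      rw [← hL, hLbd F₀ hF₀T, hπF₀]
      exact hF'.2 w
    have hnone : ∀ v, f v = none → bd F₀ v = 0 := by
      intro v hv
      rw [bd_apply]
      apply Finset.sum_eq_zero
      intro u _
      by_contra h
      have hT' : s(v, u) ∈ T := by
        by_contra h'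
        exact h (hF₀T _ h')
      rcases hT'.2 with ⟨w, hw⟩ | ⟨e, he, h2⟩
      · rw [hw v (Sym2.mem_mk_left _ _)] at hv
        exact absurd hv (by simp)
      · have h3 := (ht e he).2
        rw [← h2] at h3
        have h4 : f v ∈ Sym2.map some e := by
          rw [← h3, Sym2.map_mk]
          exact Sym2.mem_mk_left _ _
        rw [Sym2.mem_map] at h4
        obtain ⟨w, _, h5⟩ := h4
        rw [hv] at h5
        exact absurd h5 (by simp)
    have hfix : ∀ w, ∃ F : Sym2 V → ZMod 2,
        (∀ e, F e ≠ 0 → e ∈ G.edgeSet ∧ ∀ v ∈ e, v ∈ {v | f v = some w}) ∧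
        bd F = fun v => if f v = some w then bd F₀ v else 0 := by
      intro w
      apply exists_chain (hconn w)
      · intro v hv
        exact if_neg hv
      · exact hsum w
    choose Fw hFw1 hFw2 using hfix
    have hFwT : ∀ w x, x ∉ T → Fw w x = 0 := by
      intro w x hx
      by_contra h
      have := hFw1 w x h
      exact hx ⟨this.1, Or.inl ⟨w, this.2⟩⟩
    have hπFw : ∀ w, π (Fw w) = 0 := by
      intro w
      funext e
      rw [hπ]
      by_cases he : e ∈ H.edgeSet
      · rw [if_pos he]
        by_contra h
        have h2 := (hFw1 w _ h).2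
        have h3 := (ht e he).2
        revert h2 h3 he
        generalize t e = x
        induction e using Sym2.ind with
        | _ w₁ w₂ =>
          induction x using Sym2.ind with
          | _ a b =>
            intro he h2 h3
            have ha := h2 a (Sym2.mem_mk_left _ _)
            have hb := h2 b (Sym2.mem_mk_right _ _)
            simp only [Set.mem_ofPred_eq] at ha hb
            rw [Sym2.map_mk, Sym2.map_mk, ha, hb, Sym2.eq_iff] at h3
            simp only [Option.some.injEq] at h3
            have : w₁ = w₂ := by
              rcases h3 with ⟨h4, h5⟩ | ⟨h4, h5⟩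
              · rw [← h4, ← h5]
              · rw [← h4, ← h5]
            subst this
            exact H.loopless.irrefl _ he
      · rw [if_neg he]
        rfl
    refine ⟨F₀ + ∑ w, Fw w, ⟨?_, ?_⟩, ?_⟩
    · refine mem_cycleSpace_iff.mpr ?_
      have hall : ∀ x, x ∉ T → (F₀ + ∑ w, Fw w) x = 0 := by
        intro x hx
        rw [Pi.add_apply, hF₀T x hx, Finset.sum_apply,
          Finset.sum_eq_zero (fun w _ => hFwT w x hx), add_zero]
      refine ⟨?_, ?_⟩
      · intro x hx
        by_contra h
        apply hx
        apply hall
        intro h'
        exact h h'.1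
      · intro v
        rw [map_add, map_sum, Pi.add_apply, Finset.sum_apply,
          Finset.sum_congr rfl (fun w _ => congrFun (hFw2 w) v)]
        rcases hfv : f v with _ | w
        · rw [hnone v hfv]
          simp
        · rw [Finset.sum_eq_single w]
          · simp only [if_true]
            exact CharTwo.add_self_eq_zero _
          · intro w' _ hw'
            rw [if_neg]
            intro h
            exact hw' (Option.some_injective _ h).symm
          · intro h
            exact absurd (Finset.mem_univ _) h
    · refine (hvan _).mpr ?_
      intro x hx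
      rw [Pi.add_apply, hF₀T x hx, Finset.sum_apply,
          Finset.sum_eq_zero (fun w _ => hFwT w x hx), add_zero]
    · rw [map_add, map_sum, hπF₀, Finset.sum_eq_zero (fun w _ => hπFw w), add_zero]

end Pool.Agent.TFP
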