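import Pool.Agent.Lib.TFP.KY
import Pool.Agent.Lib.TFP.Minor
import Pool.Agent.Lib.TFP.Euler
import Pool.Agent.Lib.TFP.Conn

/-!
Module C. Groetzsch's theorem for MacLane planar graphs (from modules A and B), and
the consequences of MacLane planarity used elsewhere.
-/

set_option autoImplicit false

namespace Pool.Agent.TFP

open Finset

theorem MPlanar.not_hasK5Minor {V : Type} [Fintype V] {G : SimpleGraph V} (hG : MPlanar G) :
    ¬ HasK5Minor G := by
  classical
  rintro ⟨B, hconn, hdisj, hadj⟩
  refine not_mPlanar_K5 (hG.minor ⟨fun v => if h : ∃ i, v ∈ B i then some h.choose else none,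
    ?_, ?_⟩)
  · intro w
    have : {v | (if h : ∃ i, v ∈ B i then some h.choose else none) = some w} = B w := by
      ext v
      simp only [Set.mem_ofPred_eq]
      constructor
      · intro h
        split_ifs at h with h1
        have := h1.choose_spec
        rw [Option.some.inj h] at this
        exact this
      · intro h
        have h1 : ∃ i, v ∈ B i := ⟨w, h⟩
        rw [dif_pos h1]
        congr 1
        by_contra hne
        exact (Set.disjoint_left.mp (hdisj _ _ hne) h1.choose_spec) h
    rw [this]
    exact hconn w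
  · intro w w' hww
    obtain ⟨a, ha, b, hb, hab⟩ := hadj w w' hww.ne
    refine ⟨a, b, ?_, ?_, hab⟩
    · have h1 : ∃ i, a ∈ B i := ⟨w, ha⟩
      simp only [dif_pos h1]
      congr 1
      by_contra hne
      exact (Set.disjoint_left.mp (hdisj _ _ hne) h1.choose_spec) ha
    · have h1 : ∃ i, b ∈ B i := ⟨w', hb⟩
      simp only [dif_pos h1]
      congr 1
      by_contra hne
      exact (Set.disjoint_left.mp (hdisj _ _ hne) h1.choose_spec) hb

theorem isMinorOf_induce {V : Type} (G : SimpleGraph V) (U : Set V) :
    IsMinorOf (G.induce U) G := by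
  classical
  refine ⟨fun v => if h : v ∈ U then some ⟨v, h⟩ else none, ?_, ?_⟩
  · rintro ⟨w, hw⟩
    have : {v | (if h : v ∈ U then some (⟨v, h⟩ : U) else none) = some ⟨w, hw⟩} = {w} := by
      ext v
      simp only [Set.mem_ofPred_eq, Set.mem_singleton_iff]
      constructor
      · intro h
        split_ifs at h with h1
        have := Option.some.inj h
        exact congrArg Subtype.val this
      · rintro rfl
        rw [dif_pos hw]
    rw [this]
    exact conn_singleton w
  · rintro ⟨a, ha⟩ ⟨b, hb⟩ hab
    refine ⟨a, b, ?_, ?_, hab⟩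
    · simp [ha]
    · simp [hb]

theorem edgesIn_induce {V : Type} (G : SimpleGraph V) (U : Finset V)
    [Fintype ((U : Set V))] :
    edgesIn (G.induce (U : Set V)) univ = edgesIn G U := by
  classical
  unfold edgesIn
  refine Finset.card_bij (fun e _ => Sym2.map Subtype.val e) ?_ ?_ ?_
  · intro e he
    induction e with
    | _ a b =>
      simp only [mem_filter, Finset.mk_mem_sym2_iff, mem_univ, SimpleGraph.mem_edgeSet,
        SimpleGraph.comap_adj, Sym2.map_mk, true_and, and_self] at he ⊢
      refine ⟨⟨Finset.mem_coe.mp a.2, Finset.mem_coe.mp b.2⟩, ?_⟩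
      simpa using he
  · intro e _ e' _ h
    exact Sym2.map.injective Subtype.val_injective h
  · intro e he
    induction e with
    | _ a b =>
      simp only [mem_filter, Finset.mk_mem_sym2_iff, SimpleGraph.mem_edgeSet] at he
      obtain ⟨⟨ha, hb⟩, hab⟩ := he
      refine ⟨s(⟨a, Finset.mem_coe.mpr ha⟩, ⟨b, Finset.mem_coe.mpr hb⟩), ?_, ?_⟩
      · simp [hab]
      · simp

theorem cliqueFree_three_iff {V : Type} {G : SimpleGraph V} :
    G.CliqueFree 3 ↔ ∀ a b c, G.Adj a b → G.Adj b c → G.Adj c a → False := by
  classical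
  constructor
  · intro h a b c hab hbc hca
    exact h {a, b, c} (SimpleGraph.is3Clique_triple_iff.mpr ⟨hab, hca.symm, hbc⟩)
  · intro h s hs
    obtain ⟨a, b, c, hab, hac, hbc, rfl⟩ := SimpleGraph.is3Clique_iff.mp hs
    exact h a b c hab hbc hac.symm

theorem MPlanar.edgesIn_le {V : Type} [Fintype V] {G : SimpleGraph V} (hG : MPlanar G)
    (h3 : G.CliqueFree 3) (U : Finset V) : edgesIn G U ≤ 2 * U.card := by
  classical
  have h1 : MPlanar (G.induce (U : Set V)) := hG.minor (isMinorOf_induce G _)
  have h2 : (G.induce (U : Set V)).CliqueFree 3 := by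
    rw [cliqueFree_three_iff] at h3 ⊢
    intro a b c hab hbc hca
    exact h3 a b c hab hbc hca
  have := h1.edges_univ_le h2
  rw [edgesIn_induce] at this
  simpa using this

/-- identify the vertices `x` and `z` -/
def identify {V : Type} (G : SimpleGraph V) (x z : V) (_hxz : x ≠ z) [DecidableEq V] :
    SimpleGraph {v // v ≠ z} where
  Adj a b := a ≠ b ∧ ∃ a' b', G.Adj a' b' ∧ (if a' = z then x else a') = a.1 ∧
    (if b' = z then x else b') = b.1
  symm := ⟨by
    rintro a b ⟨h, a', b', h1, h2, h3⟩
    exact ⟨h.symm, b', a', h1.symm, h3, h2⟩⟩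
  loopless := ⟨by
    rintro a ⟨h, _⟩
    exact h rfl⟩

theorem colorable_of_identify {V : Type} (G : SimpleGraph V) (x z : V) (hxz : x ≠ z)
    (hn : ¬ G.Adj x z) [DecidableEq V] (h : (identify G x z hxz).Colorable 3) :
    G.Colorable 3 := by
  obtain ⟨c⟩ := h
  let f : V → {v // v ≠ z} := fun v => if h : v = z then ⟨x, hxz⟩ else ⟨v, h⟩
  have hf : ∀ v, (f v).1 = if v = z then x else v := by
    intro v
    by_cases hv : v = z
    · simp [f, hv]
    · simp [f, hv]
  refine ⟨SimpleGraph.Coloring.mk (fun v => c (f v)) ?_⟩
  intro a b hab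
  refine c.valid ?_
  refine ⟨?_, a, b, hab, (hf a).symm, (hf b).symm⟩
  intro hEq
  have h1 := congrArg Subtype.val hEq
  rw [hf, hf] at h1
  by_cases ha : a = z
  · by_cases hb : b = z
    · rw [ha, hb] at hab
      exact G.irrefl hab
    · rw [if_pos ha, if_neg hb] at h1
      rw [ha, ← h1] at hab
      exact hn hab.symm
  · by_cases hb : b = z
    · rw [if_neg ha, if_pos hb] at h1
      rw [h1, hb] at hab
      exact hn hab
    · rw [if_neg ha, if_neg hb] at h1
      rw [h1] at hab
      exact G.irrefl hab

theorem isMinorOf_identify {V : Type} (G : SimpleGraph V) (x z : V) (hxz : x ≠ z) (S : Set V)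
    (hx : x ∈ S) (hz : z ∈ S) [DecidableEq V] :
    IsMinorOf (identify G x z hxz) (hub G S) := by
  classical
  let f : Option V → Option {v // v ≠ z} := fun o => match o with
    | none => some ⟨x, hxz⟩
    | some v => if h : v = z then some ⟨x, hxz⟩ else some ⟨v, h⟩
  have fnone : f none = some ⟨x, hxz⟩ := rfl
  have fz : f (some z) = some ⟨x, hxz⟩ := by simp [f]
  have fv : ∀ v (h : v ≠ z), f (some v) = some ⟨v, h⟩ := by
    intro v h
    simp [f, h]
  refine ⟨f, ?_, ?_⟩
  · rintro ⟨w, hw⟩
    by_cases hwx : w = x
    · subst hwx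
      have : {v | f v = some ⟨w, hw⟩} = insert (some w) (insert (some z) {none}) := by
        ext o
        simp only [Set.mem_ofPred_eq, Set.mem_insert_iff, Set.mem_singleton_iff]
        constructor
        · intro h
          rcases o with _ | v
          · simp
          · by_cases hv : v = z
            · simp [hv]
            · rw [fv v hv] at h
              have := congrArg Subtype.val (Option.some.inj h)
              simp only at this
              simp [this]
        · rintro (rfl | rfl | rfl)
          · exact fv _ hw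
          · exact fz
          · exact fnone
      rw [this]
      have h1 : ((hub G S).induce (insert (some z) {none} : Set (Option V))).Connected :=
        conn_insert (conn_singleton none) (Set.mem_singleton _) hz
      exact conn_insert h1 (t := none) (by simp) hx
    · have : {v | f v = some ⟨w, hw⟩} = {some w} := by
        ext o
        simp only [Set.mem_ofPred_eq, Set.mem_singleton_iff]
        constructor
        · intro h
          rcases o with _ | v
          · rw [fnone] at h
            exact absurd (congrArg Subtype.val (Option.some.inj h)).symm hwx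
          · by_cases hv : v = z
            · rw [hv, fz] at h
              exact absurd (congrArg Subtype.val (Option.some.inj h)).symm hwx
            · rw [fv v hv] at h
              have := congrArg Subtype.val (Option.some.inj h)
              simp only at this
              simp [this]
        · rintro rfl
          exact fv _ hw
      rw [this]
      exact conn_singleton _
  · rintro a b ⟨_, a', b', hab, ha, hb⟩
    refine ⟨some a', some b', ?_, ?_, hab⟩
    · by_cases h : a' = z
      · rw [if_pos h] at ha
        rw [h, fz]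
        congr 1
        exact Subtype.ext ha
      · rw [if_neg h] at ha
        rw [fv a' h]
        congr 1
        exact Subtype.ext ha
    · by_cases h : b' = z
      · rw [if_pos h] at hb
        rw [h, fz]
        congr 1
        exact Subtype.ext hb
      · rw [if_neg h] at hb
        rw [fv b' h]
        congr 1
        exact Subtype.ext hb

/-- If identifying `x` and `z` creates a triangle in a triangle-free graph, there is a path with
three edges from `x` to `z`. -/
theorem path_of_identify {V : Type} (G : SimpleGraph V) (x z : V) (hxz : x ≠ z)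
    [DecidableEq V] (h3 : ∀ a b c, G.Adj a b → G.Adj b c → G.Adj c a → False)
    (h : ¬ (identify G x z hxz).CliqueFree 3) :
    ∃ p q, G.Adj x p ∧ G.Adj p q ∧ G.Adj q z := by
  rw [cliqueFree_three_iff] at h
  push Not at h
  obtain ⟨a, b, c, hab, hbc, hca, -⟩ := h
  -- adjacency in the identified graph
  have adj1 : ∀ a b : {v // v ≠ z}, (identify G x z hxz).Adj a b →
      a.1 ≠ x → b.1 ≠ x → G.Adj a.1 b.1 := by
    rintro a b ⟨_, a', b', hab, ha, hb⟩ hax hbx
    have h1 : a' ≠ z := by
      intro h1
      rw [if_pos h1] at ha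
      exact hax ha.symm
    have h2 : b' ≠ z := by
      intro h1
      rw [if_pos h1] at hb
      exact hbx hb.symm
    rw [if_neg h1] at ha
    rw [if_neg h2] at hb
    rwa [← ha, ← hb]
  have adj2 : ∀ a b : {v // v ≠ z}, (identify G x z hxz).Adj a b →
      a.1 = x → b.1 ≠ x ∧ (G.Adj x b.1 ∨ G.Adj z b.1) := by
    rintro a b ⟨hne, a', b', hab, ha, hb⟩ hax
    have hbx : b.1 ≠ x := by
      intro h
      apply hne
      apply Subtype.ext
      rw [hax, h]
    refine ⟨hbx, ?_⟩
    have h2 : b' ≠ z := by
      intro h1
      rw [if_pos h1] at hb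
      exact hbx hb.symm
    rw [if_neg h2] at hb
    rw [hb] at hab
    by_cases h1 : a' = z
    · right
      rwa [h1] at hab
    · left
      rw [if_neg h1, hax] at ha
      rwa [ha] at hab
  have main : ∀ a b c : {v // v ≠ z}, (identify G x z hxz).Adj a b →
      (identify G x z hxz).Adj b c → (identify G x z hxz).Adj c a → a.1 = x →
      ∃ p q, G.Adj x p ∧ G.Adj p q ∧ G.Adj q z := by
    intro a b c hab hbc hca hax
    obtain ⟨hbx, hb⟩ := adj2 a b hab hax
    obtain ⟨hcx, hc⟩ := adj2 a c hca.symm hax
    have hbc' := adj1 b c hbc hbx hcx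
    rcases hb with hb | hb
    · rcases hc with hc | hc
      · exact (h3 _ _ _ hb hbc' hc.symm).elim
      · exact ⟨b, c, hb, hbc', hc.symm⟩
    · rcases hc with hc | hc
      · exact ⟨c, b, hc, hbc'.symm, hb.symm⟩
      · exact (h3 _ _ _ hb hbc' hc.symm).elim
  by_cases ha : a.1 = x
  · exact main a b c hab hbc hca ha
  by_cases hb : b.1 = x
  · exact main b c a hbc hca hab hb
  by_cases hc : c.1 = x
  · exact main c a b hca hab hbc hc
  exact (h3 _ _ _ (adj1 a b hab ha hb) (adj1 b c hbc hb hc) (adj1 c a hca hc ha)).elim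

theorem conn_pair {V : Type} {G : SimpleGraph V} {a b : V} (h : G.Adj a b) :
    (G.induce ({a, b} : Set V)).Connected := by
  have := conn_insert (conn_singleton (G := G) b) (Set.mem_singleton b) h.symm
  exact this

theorem grotzsch {V : Type} [Fintype V] (G : SimpleGraph V) (hG : MPlanar G) (h3 : G.CliqueFree 3) :
    G.Colorable 3 := by
  classical
  obtain ⟨n, hn⟩ : ∃ n, n = Fintype.card V := ⟨_, rfl⟩
  induction n using Nat.strong_induction_on generalizing V with
  | _ n ih =>
  by_contra hcol
  have h3' := cliqueFree_three_iff.mp h3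
  obtain ⟨W, hW, hWe⟩ := kostochka_yancey G hcol
  have hWuniv : W = univ := by
    by_contra hne
    apply hW
    refine ih (Fintype.card (W : Set V)) ?_ (G.induce (W : Set V))
      (hG.minor (isMinorOf_induce G _)) ?_ rfl
    · have hc : Fintype.card (W : Set V) = W.card := by simp
      rw [hn, hc, ← Finset.card_univ]
      exact Finset.card_lt_card (Finset.ssubset_univ_iff.mpr hne)
    · rw [cliqueFree_three_iff]
      intro a b c hab hbc hca
      exact h3' a b c hab hbc hca
  rw [hWuniv, Finset.card_univ] at hWe
  have hne : Nonempty V := by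
    by_contra hne
    rw [not_nonempty_iff] at hne
    exact hcol ⟨SimpleGraph.Coloring.mk (fun v => (hne.false v).elim) (fun {v} => (hne.false v).elim)⟩
  obtain ⟨x, y, z, u, hxy, hyz, hzu, hux, hxz, hyu, hhub⟩ := hG.exists_hub h3 hne hWe
  have nxz : ¬ G.Adj x z := fun h => h3' _ _ _ hxy hyz h.symm
  have nyu : ¬ G.Adj y u := fun h => h3' _ _ _ hyz hzu h.symm
  have step : ∀ (s t : V) (hst : s ≠ t), ¬ G.Adj s t → s ∈ ({x, y, z, u} : Set V) →
      t ∈ ({x, y, z, u} : Set V) → ∃ p q, G.Adj s p ∧ G.Adj p q ∧ G.Adj q t := by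
    intro s t hst hnst hs ht
    apply path_of_identify G s t hst h3'
    intro hfree
    apply hcol
    apply colorable_of_identify G s t hst hnst
    refine ih (Fintype.card {v // v ≠ t}) ?_ (identify G s t hst) ?_ hfree rfl
    · rw [hn]
      exact Fintype.card_subtype_lt (p := fun v => v ≠ t) (x := t) (by simp)
    · exact hhub.minor (isMinorOf_identify G s t hst _ hs ht)
  obtain ⟨p, q, hxp, hpq, hqz⟩ := step x z hxz nxz (by simp) (by simp)
  obtain ⟨s, r, hys, hsr, hru⟩ := step y u hyu nyu (by simp) (by simp)
  apply hhub.not_hasK5Minor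
  have hub_adj : ∀ a b, G.Adj a b → (hub G {x, y, z, u}).Adj (some a) (some b) := fun a b h => h
  let B : Fin 5 → Set (Option V) := ![{none}, {some x, some p}, {some z, some q},
    {some y, some s}, {some u, some r}]
  have n1 : x ≠ y := hxy.ne
  have n2 : y ≠ z := hyz.ne
  have n3 : z ≠ u := hzu.ne
  have n4 : u ≠ x := hux.ne
  have n5 : x ≠ q := by rintro rfl; exact nxz hqz
  have n6 : p ≠ z := by rintro rfl; exact nxz hxp
  have n7 : p ≠ q := hpq.ne
  have n8 : y ≠ r := by rintro rfl; exact nyu hru
  have n9 : s ≠ u := by rintro rfl; exact nyu hys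
  have n10 : s ≠ r := hsr.ne
  have m1 : x ≠ s := by rintro rfl; exact h3' _ _ _ hsr hru hux
  have m2 : x ≠ r := by rintro rfl; exact h3' _ _ _ hys hsr hxy
  have m3 : p ≠ y := by rintro rfl; exact h3' _ _ _ hpq hqz hyz.symm
  have m4 : p ≠ s := by rintro rfl; exact h3' _ _ _ hxp hys.symm hxy.symm
  have m5 : p ≠ u := by rintro rfl; exact h3' _ _ _ hpq hqz hzu
  have m6 : p ≠ r := by rintro rfl; exact h3' _ _ _ hxp hru hux
  have m7 : z ≠ s := by rintro rfl; exact h3' _ _ _ hsr hru hzu.symm
  have m8 : z ≠ r := by rintro rfl; exact h3' _ _ _ hys hsr hyz.symm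
  have m9 : q ≠ y := by rintro rfl; exact h3' _ _ _ hxp hpq hxy.symm
  have m10 : q ≠ s := by rintro rfl; exact h3' _ _ _ hqz hyz.symm hys
  have m11 : q ≠ u := by rintro rfl; exact h3' _ _ _ hxp hpq hux
  have m12 : q ≠ r := by rintro rfl; exact h3' _ _ _ hqz hzu hru.symm
  have B0 : B 0 = {none} := rfl
  have B1 : B 1 = {some x, some p} := rfl
  have B2 : B 2 = {some z, some q} := rfl
  have B3 : B 3 = {some y, some s} := rfl
  have B4 : B 4 = {some u, some r} := rfl
  have hd : ∀ a b c d : V, a ≠ c → a ≠ d → b ≠ c → b ≠ d →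
      Disjoint ({some a, some b} : Set (Option V)) {some c, some d} := by
    intro a b c d h1 h2 h3 h4
    rw [Set.disjoint_left]
    intro v hv hv'
    simp only [Set.mem_insert_iff, Set.mem_singleton_iff] at hv hv'
    rcases hv with rfl | rfl <;> rcases hv' with h | h <;>
      simp only [Option.some.injEq] at h <;> contradiction
  have hd0 : ∀ a b : V, Disjoint ({none} : Set (Option V)) {some a, some b} := by
    intro a b
    rw [Set.disjoint_left]
    intro v hv hv'
    simp only [Set.mem_insert_iff, Set.mem_singleton_iff] at hv hv'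
    subst hv
    rcases hv' with h | h <;> simp at h
  -- symmetric statements for i < j
  have key : ∀ i j : Fin 5, i < j → Disjoint (B i) (B j) ∧
      ∃ a ∈ B i, ∃ b ∈ B j, (hub G {x, y, z, u}).Adj a b := by
    intro i j hij
    have hx0 : (hub G {x, y, z, u}).Adj none (some x) := by simp [hub]
    have hy0 : (hub G {x, y, z, u}).Adj none (some y) := by simp [hub]
    have hz0 : (hub G {x, y, z, u}).Adj none (some z) := by simp [hub]
    have hu0 : (hub G {x, y, z, u}).Adj none (some u) := by simp [hub]
    fin_cases i <;> fin_cases j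
    all_goals first
      | (exfalso; revert hij; decide)
      | skip
    · exact ⟨hd0 _ _, none, by simp [B], some x, by simp [B], hx0⟩
    · exact ⟨hd0 _ _, none, by simp [B], some z, by simp [B], hz0⟩
    · exact ⟨hd0 _ _, none, by simp [B], some y, by simp [B], hy0⟩
    · exact ⟨hd0 _ _, none, by simp [B], some u, by simp [B], hu0⟩
    · exact ⟨hd _ _ _ _ hxz n5 n6 n7, some p, by simp [B], some q, by simp [B], hpq⟩
    · exact ⟨hd _ _ _ _ n1 m1 m3 m4, some x, by simp [B], some y, by simp [B], hxy⟩
    · exact ⟨hd _ _ _ _ n4.symm m2 m5 m6, some x, by simp [B], some u, by simp [B], hux.symm⟩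
    · exact ⟨hd _ _ _ _ n2.symm m7 m9 m10, some z, by simp [B], some y, by simp [B], hyz.symm⟩
    · exact ⟨hd _ _ _ _ n3 m8 m11 m12, some z, by simp [B], some u, by simp [B], hzu⟩
    · exact ⟨hd _ _ _ _ hyu n8 n9 n10, some s, by simp [B], some r, by simp [B], hsr⟩
  refine ⟨B, ?_, ?_, ?_⟩
  · intro i
    fin_cases i
    · exact conn_singleton _
    · exact conn_pair (hub_adj _ _ hxp)
    · exact conn_pair (hub_adj _ _ hqz.symm)
    · exact conn_pair (hub_adj _ _ hys)
    · exact conn_pair (hub_adj _ _ hru.symm)
  · intro i j hij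
    rcases lt_or_gt_of_ne hij with h | h
    · exact (key i j h).1
    · exact (key j i h).1.symm
  · intro i j hij
    rcases lt_or_gt_of_ne hij with h | h
    · exact (key i j h).2
    · obtain ⟨a, ha, b, hb, hab⟩ := (key j i h).2
      exact ⟨b, hb, a, ha, hab.symm⟩

end Pool.Agent.TFP
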