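import Pool.Agent.Lib.TFP.Separator

/-!
Module E3. From separators to a bounded-size vertex set incident with few edges.
-/

set_option autoImplicit false

namespace Pool.Agent.TFP

open Finset

theorem inc_add_le {V : Type} (G : SimpleGraph V) (U W W1 W2 : Finset V)
    (h1 : W1 ⊆ W) (h2 : W2 ⊆ W) (hd : Disjoint W1 W2)
    (hno : ∀ x ∈ W1, ∀ y ∈ W2, ¬ G.Adj x y) : inc G U W1 + inc G U W2 ≤ inc G U W := by
  classical
  unfold inc
  rw [← Finset.card_union_of_disjoint]
  · refine Finset.card_le_card (Finset.union_subset ?_ ?_)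
    · intro e he
      obtain ⟨ha, hb, x, hx, hxW⟩ := Finset.mem_filter.mp he
      exact Finset.mem_filter.mpr ⟨ha, hb, x, hx, h1 hxW⟩
    · intro e he
      obtain ⟨ha, hb, x, hx, hxW⟩ := Finset.mem_filter.mp he
      exact Finset.mem_filter.mpr ⟨ha, hb, x, hx, h2 hxW⟩
  · rw [Finset.disjoint_left]
    intro e he he'
    obtain ⟨_, hG, x, hx, hxW⟩ := Finset.mem_filter.mp he
    obtain ⟨_, _, y, hy, hyW⟩ := Finset.mem_filter.mp he'
    have hxy : x ≠ y := by
      rintro rfl
      exact Finset.disjoint_left.mp hd hxW hyW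
    have : e = s(x, y) := ((Sym2.mem_and_mem_iff hxy).mp ⟨hx, hy⟩)
    rw [this, SimpleGraph.mem_edgeSet] at hG
    exact hno x hxW y hyW hG

/-- a closed subset of medium size -/
theorem exists_closed_medium {V : Type} [DecidableEq V] (G : SimpleGraph V) (W' : Finset V)
    (n : ℕ) (hcon : ∀ D ⊆ W', (G.induce (D : Set V)).Connected → 2 * D.card ≤ n)
    (hW' : W'.Nonempty) :
    ∃ S ⊆ W', (∀ x ∈ S, ∀ y ∈ W' \ S, ¬ G.Adj x y) ∧ W'.card ≤ 3 * S.card ∧
      (2 * S.card ≤ n ∨ 3 * S.card ≤ 2 * W'.card) := by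
  classical
  obtain ⟨S, hS, hmin⟩ := Finset.exists_min_image
    (W'.powerset.filter (fun S : Finset V => (∀ x ∈ S, ∀ y ∈ W' \ S, ¬ G.Adj x y) ∧
      W'.card ≤ 3 * S.card)) Finset.card
    ⟨W', Finset.mem_filter.mpr ⟨Finset.mem_powerset.mpr (Finset.Subset.refl _), by
      intro x _ y hy; simp at hy, by omega⟩⟩
  obtain ⟨hS1, hS2, hS3⟩ := Finset.mem_filter.mp hS
  rw [Finset.mem_powerset] at hS1
  refine ⟨S, hS1, hS2, hS3, ?_⟩
  by_cases hSc : (G.induce (S : Set V)).Connected
  · exact Or.inl (hcon S hS1 hSc)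
  · right
    have hSne : S.Nonempty := by
      rw [← Finset.card_pos]
      have := Finset.card_pos.mpr hW'
      omega
    obtain ⟨x, hx⟩ := hSne
    -- a maximal connected subset
    obtain ⟨D, hD, hmax⟩ := Finset.exists_max_image
      (S.powerset.filter (fun D : Finset V => (G.induce (D : Set V)).Connected)) Finset.card
      ⟨{x}, Finset.mem_filter.mpr ⟨Finset.mem_powerset.mpr (Finset.singleton_subset_iff.mpr hx), by
        rw [Finset.coe_singleton]; exact conn_singleton x⟩⟩
    obtain ⟨hDS, hDc⟩ := Finset.mem_filter.mp hD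
    rw [Finset.mem_powerset] at hDS
    have hDcl : ∀ d ∈ D, ∀ y ∈ S, G.Adj d y → y ∈ D := by
      intro d hd y hy hdy
      by_contra hyD
      have h2 := hmax (insert y D) (Finset.mem_filter.mpr
        ⟨Finset.mem_powerset.mpr (Finset.insert_subset hy hDS), by
          rw [Finset.coe_insert]
          exact conn_insert hDc (Finset.mem_coe.mpr hd) hdy⟩)
      rw [Finset.card_insert_of_notMem hyD] at h2
      omega
    have hDne : D.Nonempty := by
      obtain ⟨z, hz⟩ := conn_nonempty hDc
      exact ⟨z, hz⟩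
    have hDneS : D ≠ S := by
      rintro rfl
      exact hSc hDc
    have hss : D ⊂ S := (Finset.ssubset_iff_subset_ne).mpr ⟨hDS, hDneS⟩
    -- D and S \ D are closed
    have hD1 : ∀ x ∈ D, ∀ y ∈ W' \ D, ¬ G.Adj x y := by
      intro x hx y hy hxy
      rw [Finset.mem_sdiff] at hy
      by_cases hyS : y ∈ S
      · exact hy.2 (hDcl x hx y hyS hxy)
      · exact hS2 x (hDS hx) y (Finset.mem_sdiff.mpr ⟨hy.1, hyS⟩) hxy
    have hD2 : ∀ x ∈ S \ D, ∀ y ∈ W' \ (S \ D), ¬ G.Adj x y := by
      intro x hx y hy hxy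
      rw [Finset.mem_sdiff] at hx hy
      by_cases hyS : y ∈ S
      · have hyD : y ∈ D := by
          by_contra h
          exact hy.2 (Finset.mem_sdiff.mpr ⟨hyS, h⟩)
        exact hx.2 (hDcl y hyD x hx.1 hxy.symm)
      · exact hS2 x hx.1 y (Finset.mem_sdiff.mpr ⟨hy.1, hyS⟩) hxy
    have hcard : (S \ D).card + D.card = S.card := Finset.card_sdiff_add_card_eq_card hDS
    have hDpos := Finset.card_pos.mpr hDne
    have hDlt := Finset.card_lt_card hss
    have h3 : 3 * D.card < W'.card := by
      by_contra hcon'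
      push Not at hcon'
      have := hmin D (Finset.mem_filter.mpr
        ⟨Finset.mem_powerset.mpr (hDS.trans hS1), hD1, hcon'⟩)
      omega
    have h4 : 3 * (S \ D).card < W'.card := by
      by_contra hcon'
      push Not at hcon'
      have := hmin (S \ D) (Finset.mem_filter.mpr
        ⟨Finset.mem_powerset.mpr (Finset.sdiff_subset.trans hS1), hD2, hcon'⟩)
      omega
    omega

theorem sqrt_ineq (a b c : ℝ) (ha : c / 2 ≤ a) (hb : c / 2 ≤ b) (hc : 0 < c)
    (hab : (99 / 100) * c ^ 2 ≤ a ^ 2 + b ^ 2) : (13 / 10) * c ≤ a + b := by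
  by_contra hcon
  push Not at hcon
  have h1 : 0 ≤ (a - c / 2) * (b - c / 2) := mul_nonneg (by linarith) (by linarith)
  have h2 : c ≤ a + b := by linarith
  have h3 : (a + b) * (a + b) ≤ ((13 / 10) * c) * (a + b) := by
    apply mul_le_mul_of_nonneg_right hcon.le
    linarith
  have h4 : (3 / 10) * c * (a + b) < (3 / 10) * c * ((13 / 10) * c) := by
    apply mul_lt_mul_of_pos_left hcon
    positivity
  nlinarith

theorem descend {V : Type} [Fintype V] [DecidableEq V] (G : SimpleGraph V)
    (h5 : ¬ HasK5Minor G) (U : Finset V) :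
    ∀ (n : ℕ) (W : Finset V), W.card = n → W ⊆ U → 4000000 ≤ W.card →
      (inc G U W : ℝ) ≤ 2 * (W.card : ℝ) + 40 * Real.sqrt W.card →
      ∃ C ⊆ U, C.Nonempty ∧ C.card ≤ 16000000 ∧ 50 * inc G U C ≤ 101 * C.card := by
  classical
  intro n
  induction n using Nat.strong_induction_on with
  | _ n ih =>
  intro W hWn hWU hWbig hinc
  have hWR : (4000000 : ℝ) ≤ (W.card : ℝ) := by exact_mod_cast hWbig
  set c := Real.sqrt W.card with hc
  have hc2 : c ^ 2 = (W.card : ℝ) := Real.sq_sqrt (by positivity)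
  have hc2000 : 2000 ≤ c := by
    rw [hc]
    apply Real.le_sqrt_of_sq_le
    norm_num
    exact hWbig
  by_cases hsmall : W.card ≤ 16000000
  · refine ⟨W, hWU, ?_, hsmall, ?_⟩
    · rw [← Finset.card_pos]; omega
    · have h1 : 50 * (inc G U W : ℝ) ≤ 101 * (W.card : ℝ) := by
        have h2 : 2000 * c ≤ c ^ 2 := by nlinarith
        rw [hc2] at h2
        linarith
      exact_mod_cast h1
  · push Not at hsmall
    -- separator
    let r := Nat.sqrt (2 * W.card) + 1
    have hr : 2 * W.card ≤ r * r := by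
      have := Nat.lt_succ_sqrt (2 * W.card)
      exact this.le
    obtain ⟨X, hXW, hXc, hXD⟩ := separator G h5 W r hr
    -- bound on X
    have hXr : (X.card : ℝ) ≤ 6 * c := by
      have h1 : (X.card : ℝ) ≤ 4 * (Nat.sqrt (2 * W.card) + 1 : ℝ) := by
        have : (X.card : ℝ) ≤ ((4 * r : ℕ) : ℝ) := by exact_mod_cast hXc
        simpa [r] using this
      have h2 : ((Nat.sqrt (2 * W.card) : ℕ) : ℝ) ^ 2 ≤ 2 * c ^ 2 := by
        rw [hc2]
        have := Nat.sqrt_le' (2 * W.card)
        have h3 : ((Nat.sqrt (2 * W.card) ^ 2 : ℕ) : ℝ) ≤ ((2 * W.card : ℕ) : ℝ) := by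
          exact_mod_cast this
        push_cast at h3
        exact h3
      have h3 : ((Nat.sqrt (2 * W.card) : ℕ) : ℝ) ≤ (1415 / 1000) * c := by
        apply le_of_sq_le_sq _ (by positivity)
        nlinarith
      linarith
    -- the rest
    have hW'card : (W \ X).card + X.card = W.card := Finset.card_sdiff_add_card_eq_card hXW
    have hX12 : 100 * X.card ≤ W.card := by
      have : 100 * (X.card : ℝ) ≤ (W.card : ℝ) := by
        rw [← hc2]
        nlinarith
      exact_mod_cast this
    have hW'ne : (W \ X).Nonempty := by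
      rw [← Finset.card_pos]; omega
    obtain ⟨S, hSW', hScl, hS1, hS2⟩ := exists_closed_medium G (W \ X) W.card hXD hW'ne
    have hTcard : ((W \ X) \ S).card + S.card = (W \ X).card :=
      Finset.card_sdiff_add_card_eq_card hSW'
    set T := (W \ X) \ S with hT
    have hSW : S ⊆ W := hSW'.trans Finset.sdiff_subset
    have hTW : T ⊆ W := Finset.sdiff_subset.trans Finset.sdiff_subset
    have hSq : W.card ≤ 4 * S.card := by omega
    have hTq : W.card ≤ 4 * T.card := by omega
    have hsum := inc_add_le G U W S T hSW hTW Finset.disjoint_sdiff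
      (fun x hx y hy => hScl x hx y hy)
    -- one of them satisfies the inequality
    set a := Real.sqrt S.card with ha
    set b := Real.sqrt T.card with hb
    have ha2 : a ^ 2 = (S.card : ℝ) := Real.sq_sqrt (by positivity)
    have hb2 : b ^ 2 = (T.card : ℝ) := Real.sq_sqrt (by positivity)
    have hca : c / 2 ≤ a := by
      rw [ha]
      apply Real.le_sqrt_of_sq_le
      have : (W.card : ℝ) ≤ 4 * (S.card : ℝ) := by exact_mod_cast hSq
      nlinarith
    have hcb : c / 2 ≤ b := by
      rw [hb]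
      apply Real.le_sqrt_of_sq_le
      have : (W.card : ℝ) ≤ 4 * (T.card : ℝ) := by exact_mod_cast hTq
      nlinarith
    have hcards : (S.card : ℝ) + (T.card : ℝ) + (X.card : ℝ) = (W.card : ℝ) := by
      have : S.card + T.card + X.card = W.card := by omega
      exact_mod_cast this
    have hab : (99 / 100) * c ^ 2 ≤ a ^ 2 + b ^ 2 := by
      rw [ha2, hb2, hc2]
      have : 100 * (X.card : ℝ) ≤ (W.card : ℝ) := by exact_mod_cast hX12
      linarith
    have hkey := sqrt_ineq a b c hca hcb (by linarith) hab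
    have hsumR : (inc G U S : ℝ) + (inc G U T : ℝ) ≤ (inc G U W : ℝ) := by exact_mod_cast hsum
    by_cases hSok : (inc G U S : ℝ) ≤ 2 * (S.card : ℝ) + 40 * a
    · exact ih S.card (by omega) S rfl (hSW.trans hWU) (by omega) hSok
    · by_cases hTok : (inc G U T : ℝ) ≤ 2 * (T.card : ℝ) + 40 * b
      · exact ih T.card (by omega) T rfl (hTW.trans hWU) (by omega) hTok
      · exfalso
        push Not at hSok hTok
        nlinarith

theorem inc_self_le {V : Type} (G : SimpleGraph V) (U : Finset V) :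
    inc G U U ≤ edgesIn G U := by
  classical
  unfold inc edgesIn
  refine Finset.card_le_card ?_
  intro e he
  rw [Finset.mem_filter] at he ⊢
  exact ⟨he.1, he.2.1⟩

theorem exists_small_piece : ∃ R : ℕ, ∀ (V : Type) [Fintype V] (G : SimpleGraph V),
    ¬ HasK5Minor G → (∀ U : Finset V, edgesIn G U ≤ 2 * U.card) →
    ∀ U : Finset V, U.Nonempty →
      ∃ C ⊆ U, C.Nonempty ∧ C.card ≤ R ∧ 50 * inc G U C ≤ 101 * C.card := by
  classical
  refine ⟨16000000, ?_⟩
  intro V _ G h5 h2 U hU
  have hincU : inc G U U ≤ 2 * U.card := (inc_self_le G U).trans (h2 U)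
  by_cases hsmall : U.card ≤ 16000000
  · exact ⟨U, Finset.Subset.refl _, hU, hsmall, by omega⟩
  · refine descend G h5 U U.card U rfl (Finset.Subset.refl _) (by omega) ?_
    have h1 : (inc G U U : ℝ) ≤ 2 * (U.card : ℝ) := by exact_mod_cast hincU
    have h3 : 0 ≤ Real.sqrt U.card := Real.sqrt_nonneg _
    linarith

end Pool.Agent.TFP
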