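import Mathlib

/-!
Shared definitions for the project `MP_72f88e_co` (multiple list colouring of triangle-free planar graphs).
Everything lives in `Type` (universe 0), all graphs are on a `Fintype`.
-/

set_option autoImplicit false

namespace Pool.Agent.TFP

open Finset

/-- `G` has a `K₅` minor: five pairwise disjoint connected vertex sets, pairwise joined by an edge. -/
def HasK5Minor {V : Type} (G : SimpleGraph V) : Prop :=
  ∃ B : Fin 5 → Set V, (∀ i, (G.induce (B i)).Connected) ∧
    (∀ i j, i ≠ j → Disjoint (B i) (B j)) ∧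
    (∀ i j, i ≠ j → ∃ a ∈ B i, ∃ b ∈ B j, G.Adj a b)

open Classical in
/-- number of edges of `G` inside the vertex set `F` -/
noncomputable def edgesIn {V : Type} (G : SimpleGraph V) (F : Finset V) : ℕ :=
  (F.sym2.filter (fun e => e ∈ G.edgeSet)).card

open Classical in
/-- number of edges of `G` inside `U` having at least one end in `C` (used for `C ⊆ U`) -/
noncomputable def inc {V : Type} (G : SimpleGraph V) (U C : Finset V) : ℕ :=
  (U.sym2.filter (fun e => e ∈ G.edgeSet ∧ ∃ x ∈ e, x ∈ C)).card

/-- `H` is a minor of `G` via a partial map with nonempty connected fibres. -/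
def IsMinorOf {V W : Type} (H : SimpleGraph W) (G : SimpleGraph V) : Prop :=
  ∃ f : V → Option W, (∀ w, (G.induce {v | f v = some w}).Connected) ∧
    ∀ w w', H.Adj w w' → ∃ v v', f v = some w ∧ f v' = some w' ∧ G.Adj v v'

/-- the cycle space of `G` over `ZMod 2`: functions on unordered pairs, supported on edges,
with zero boundary at each vertex. -/
def cycleSpace {V : Type} [Fintype V] (G : SimpleGraph V) : Submodule (ZMod 2) (Sym2 V → ZMod 2) where
  carrier := {F | (∀ e, F e ≠ 0 → e ∈ G.edgeSet) ∧ ∀ v, ∑ u, F s(v, u) = 0}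
  add_mem' := by
    rintro a b ⟨ha, ha'⟩ ⟨hb, hb'⟩
    refine ⟨fun e he => ?_, fun v => ?_⟩
    · by_contra h
      have h1 : a e = 0 := by by_contra h2; exact h (ha e h2)
      have h2 : b e = 0 := by by_contra h2; exact h (hb e h2)
      simp [h1, h2] at he
    · simp [Finset.sum_add_distrib, ha', hb']
  zero_mem' := by simp
  smul_mem' := by
    rintro c a ⟨ha, ha'⟩
    refine ⟨fun e he => ?_, fun v => ?_⟩
    · apply ha
      intro h
      simp [h] at he
    · simp only [Pi.smul_apply, ← Finset.smul_sum, ha', smul_zero]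

/-- MacLane planarity: the cycle space is generated by a family of cycles (even sets) in which
each edge is covered at most twice. -/
def MPlanar {V : Type} [Fintype V] (G : SimpleGraph V) : Prop :=
  ∃ (n : ℕ) (B : Fin n → Sym2 V → ZMod 2), (∀ i, B i ∈ cycleSpace G) ∧
    (∀ e, (univ.filter (fun i => B i e ≠ 0)).card ≤ 2) ∧
    cycleSpace G ≤ Submodule.span (ZMod 2) (Set.range B)

/-- the graph obtained by adding a new vertex `none` adjacent exactly to `S` -/
def hub {V : Type} (G : SimpleGraph V) (S : Set V) : SimpleGraph (Option V) where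
  Adj a b := match a, b with
    | some a, some b => G.Adj a b
    | none, some b => b ∈ S
    | some a, none => a ∈ S
    | none, none => False
  symm := ⟨by
    rintro (_ | a) (_ | b) h
    · exact h
    · exact h
    · exact h
    · exact G.adj_symm h⟩
  loopless := ⟨by
    rintro (_ | a) h
    · exact h
    · exact G.irrefl h⟩

/-- A drawing in the plane with arcs, exactly as in the frozen statement S09475. -/
def HasDrawing {V : Type} (G : SimpleGraph V) : Prop :=
  ∃ (p : V → ℝ × ℝ) (γ : V → V → unitInterval → ℝ × ℝ),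
    Function.Injective p ∧
    (∀ u v, G.Adj u v →
      Continuous (γ u v) ∧ Function.Injective (γ u v) ∧
      γ u v 0 = p u ∧ γ u v 1 = p v ∧
      (∀ t, γ u v t ∈ Set.range p → t = 0 ∨ t = 1)) ∧
    (∀ u v x y, G.Adj u v → G.Adj x y →
      Sym2.mk (u, v) ≠ Sym2.mk (x, y) →
      ∀ s t, γ u v s = γ x y t → s = 0 ∨ s = 1)

end Pool.Agent.TFP
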