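import Pool.Agent.Lib.TFP.Defs

/-!
Module A. Kostochka-Yancey theorem for `k = 4` (Ore-type edge bound for 4-critical graphs).
-/

set_option autoImplicit false

namespace Pool.Agent.TFP

open Finset

namespace KY

open Classical

variable {V : Type}

/-- `G` restricted to `S` is 3-colourable. -/
def Col3 (G : SimpleGraph V) (S : Finset V) : Prop :=
  ∃ c : V → Fin 3, ∀ u ∈ S, ∀ v ∈ S, G.Adj u v → c u ≠ c v

/-- number of ordered adjacent pairs in `A × B` -/
noncomputable def ar (G : SimpleGraph V) (A B : Finset V) : ℤ :=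
  ∑ u ∈ A, ∑ v ∈ B, if G.Adj u v then 1 else 0

/-- twice the potential -/
noncomputable def pot (G : SimpleGraph V) (W : Finset V) : ℤ := 10 * (#W : ℤ) - 3 * ar G W W

theorem Col3.mono {G : SimpleGraph V} {S T : Finset V} (h : Col3 G S) (hT : T ⊆ S) :
    Col3 G T := by
  obtain ⟨c, hc⟩ := h
  exact ⟨c, fun u hu v hv => hc u (hT hu) v (hT hv)⟩

theorem ar_comm (G : SimpleGraph V) (A B : Finset V) : ar G A B = ar G B A := by
  unfold ar
  rw [sum_comm]
  refine sum_congr rfl fun u _ => sum_congr rfl fun v _ => ?_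
  simp only [G.adj_comm]

theorem ar_nonneg (G : SimpleGraph V) (A B : Finset V) : 0 ≤ ar G A B := by
  unfold ar
  refine sum_nonneg fun u _ => sum_nonneg fun v _ => ?_
  split_ifs <;> norm_num

theorem ar_union_left (G : SimpleGraph V) {A B : Finset V} (h : Disjoint A B) (C : Finset V) :
    ar G (A ∪ B) C = ar G A C + ar G B C := by
  unfold ar
  rw [sum_union h]

theorem ar_union_right (G : SimpleGraph V) {A B : Finset V} (h : Disjoint A B) (C : Finset V) :
    ar G C (A ∪ B) = ar G C A + ar G C B := by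
  rw [ar_comm, ar_union_left G h, ar_comm G A, ar_comm G B]

theorem pot_union (G : SimpleGraph V) {A B : Finset V} (h : Disjoint A B) :
    pot G (A ∪ B) = pot G A + pot G B - 6 * ar G A B := by
  unfold pot
  rw [ar_union_left G h, ar_union_right G h, ar_union_right G h, ar_comm G B A,
    card_union_of_disjoint h]
  push_cast
  ring

theorem ar_mono_left (G : SimpleGraph V) {A A' : Finset V} (h : A ⊆ A') (B : Finset V) :
    ar G A B ≤ ar G A' B := by
  unfold ar
  refine sum_le_sum_of_subset_of_nonneg h fun u _ _ => sum_nonneg fun v _ => ?_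
  split_ifs <;> norm_num

theorem ar_mono_right (G : SimpleGraph V) (A : Finset V) {B B' : Finset V} (h : B ⊆ B') :
    ar G A B ≤ ar G A B' := by
  rw [ar_comm G A B, ar_comm G A B']
  exact ar_mono_left G h A

/-- degree of `v` inside `S` -/
noncomputable def dg (G : SimpleGraph V) (S : Finset V) (v : V) : ℕ :=
  #(S.filter (fun u => G.Adj v u))

theorem ar_eq_sum_dg (G : SimpleGraph V) (A B : Finset V) : ar G A B = ∑ u ∈ A, (dg G B u : ℤ) := by
  unfold ar dg
  refine sum_congr rfl fun u _ => ?_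
  rw [card_filter]
  push_cast
  rfl

theorem ar_self_le (G : SimpleGraph V) (R : Finset V) : ar G R R ≤ (#R : ℤ) * (#R - 1) := by
  rw [ar_eq_sum_dg]
  calc ∑ u ∈ R, (dg G R u : ℤ) ≤ ∑ u ∈ R, ((#R : ℤ) - 1) := by
        refine sum_le_sum fun u hu => ?_
        have h1 : dg G R u ≤ #(R.erase u) := by
          unfold dg
          apply card_le_card
          intro v hv
          rw [mem_filter] at hv
          exact mem_erase.2 ⟨hv.2.ne', hv.1⟩
        rw [card_erase_of_mem hu] at h1
        have h2 : 0 < #R := card_pos.2 ⟨u, hu⟩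
        omega
    _ = (#R : ℤ) * (#R - 1) := by rw [sum_const, nsmul_eq_mul]

/-- sets with at most three vertices are 3-colourable -/
theorem col3_of_card_le {G : SimpleGraph V} {S : Finset V} (h : #S ≤ 3) : Col3 G S := by
  obtain ⟨f⟩ : Nonempty (S ↪ Fin 3) := by
    apply Function.Embedding.nonempty_of_card_le
    simpa using h
  refine ⟨fun v => if hv : v ∈ S then f ⟨v, hv⟩ else 0, fun u hu v hv huv h => ?_⟩
  simp only [dif_pos hu, dif_pos hv] at h
  have := f.injective h
  exact huv.ne (congrArg Subtype.val this)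

theorem four_le_card {G : SimpleGraph V} {S : Finset V} (h : ¬ Col3 G S) : 4 ≤ #S := by
  by_contra hcon
  exact h (col3_of_card_le (by omega))

theorem ar_insert_le (G G' : SimpleGraph V) (a b : V) (W : Finset V)
    (hG : ∀ u v, G'.Adj u v → G.Adj u v ∨ (u = a ∧ v = b) ∨ (u = b ∧ v = a)) :
    ar G' W W ≤ ar G W W + 2 := by
  unfold ar
  have h : ∀ u v, (if G'.Adj u v then (1 : ℤ) else 0)
      ≤ (if G.Adj u v then 1 else 0) + ((if u = a ∧ v = b then 1 else 0)
        + (if u = b ∧ v = a then 1 else 0)) := by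
    intro u v
    by_cases h1 : G.Adj u v
    · rw [if_pos h1]
      split_ifs <;> norm_num
    · by_cases h2 : G'.Adj u v
      · rw [if_pos h2, if_neg h1]
        rcases hG u v h2 with h2 | h2 | h2
        · exact absurd h2 h1
        · rw [if_pos h2]
          split_ifs <;> norm_num
        · rw [if_pos h2]
          split_ifs <;> norm_num
      · rw [if_neg h2]
        split_ifs <;> norm_num
  calc ∑ u ∈ W, ∑ v ∈ W, (if G'.Adj u v then (1 : ℤ) else 0)
      ≤ ∑ u ∈ W, ∑ v ∈ W, ((if G.Adj u v then 1 else 0) + ((if u = a ∧ v = b then 1 else 0)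
        + (if u = b ∧ v = a then 1 else 0))) :=
        sum_le_sum fun u _ => sum_le_sum fun v _ => h u v
    _ = ∑ u ∈ W, ∑ v ∈ W, (if G.Adj u v then (1 : ℤ) else 0)
        + (∑ u ∈ W, ∑ v ∈ W, (if u = a ∧ v = b then (1 : ℤ) else 0)
        + ∑ u ∈ W, ∑ v ∈ W, (if u = b ∧ v = a then (1 : ℤ) else 0)) := by
        simp only [sum_add_distrib]
    _ ≤ ∑ u ∈ W, ∑ v ∈ W, (if G.Adj u v then (1 : ℤ) else 0) + 2 := by
        have key : ∀ x y : V, ∑ u ∈ W, ∑ v ∈ W, (if u = x ∧ v = y then (1 : ℤ) else 0) ≤ 1 := by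
          intro x y
          have : ∀ u v, (if u = x ∧ v = y then (1 : ℤ) else 0)
              = (if u = x then 1 else 0) * (if v = y then 1 else 0) := by
            intro u v
            by_cases h1 : u = x <;> by_cases h2 : v = y <;> simp [h1, h2]
          simp only [this, ← mul_sum, ← sum_mul, sum_ite_eq']
          split_ifs <;> norm_num
        have := key a b
        have := key b a
        linarith

theorem pot_insert_edge (G : SimpleGraph V) (a b : V) (W : Finset V) :
    pot G W ≤ pot (G ⊔ SimpleGraph.edge a b) W + 6 := by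
  unfold pot
  have := ar_insert_le G (G ⊔ SimpleGraph.edge a b) a b W (by
    intro u v h
    rw [SimpleGraph.sup_adj, SimpleGraph.edge_adj] at h
    tauto)
  linarith

/-! ### The gluing construction -/

/-- contract the colour classes of `R` to a triangle -/
def glue (G : SimpleGraph V) (R : Finset V) (φ : V → Fin 3) : SimpleGraph (V ⊕ Fin 3) where
  Adj x y := match x, y with
    | .inl u, .inl v => G.Adj u v
    | .inl u, .inr i => ∃ r ∈ R, φ r = i ∧ G.Adj u r
    | .inr i, .inl u => ∃ r ∈ R, φ r = i ∧ G.Adj u r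
    | .inr i, .inr j => i ≠ j
  symm := ⟨by
    rintro (u | i) (v | j) h
    · exact h.symm
    · exact h
    · exact h
    · exact h.symm⟩
  loopless := ⟨by
    rintro (u | i) h
    · exact G.irrefl h
    · exact h rfl⟩

theorem glue_ll (G : SimpleGraph V) (R : Finset V) (φ : V → Fin 3) (u v : V) :
    (glue G R φ).Adj (Sum.inl u) (Sum.inl v) ↔ G.Adj u v := Iff.rfl

theorem glue_lr (G : SimpleGraph V) (R : Finset V) (φ : V → Fin 3) (u : V) (i : Fin 3) :
    (glue G R φ).Adj (Sum.inl u) (Sum.inr i) ↔ ∃ r ∈ R, φ r = i ∧ G.Adj u r := Iff.rfl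

theorem glue_rl (G : SimpleGraph V) (R : Finset V) (φ : V → Fin 3) (u : V) (i : Fin 3) :
    (glue G R φ).Adj (Sum.inr i) (Sum.inl u) ↔ ∃ r ∈ R, φ r = i ∧ G.Adj u r := Iff.rfl

theorem glue_rr (G : SimpleGraph V) (R : Finset V) (φ : V → Fin 3) (i j : Fin 3) :
    (glue G R φ).Adj (Sum.inr i) (Sum.inr j) ↔ i ≠ j := Iff.rfl

/-- number of pairs `(u, i)` with `u ∈ A`, `i ∈ J` such that `u` has a neighbour of colour `i` in
`R` -/
noncomputable def br (G : SimpleGraph V) (R : Finset V) (φ : V → Fin 3) (A : Finset V)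
    (J : Finset (Fin 3)) : ℤ :=
  ∑ u ∈ A, ∑ i ∈ J, if ∃ r ∈ R, φ r = i ∧ G.Adj u r then 1 else 0

theorem br_point_le (G : SimpleGraph V) (R : Finset V) (φ : V → Fin 3) (u : V)
    (J : Finset (Fin 3)) :
    (∑ i ∈ J, if ∃ r ∈ R, φ r = i ∧ G.Adj u r then (1 : ℤ) else 0)
      ≤ ∑ r ∈ R.filter (fun r => φ r ∈ J), if G.Adj u r then 1 else 0 := by
  have h1 : ∑ r ∈ R.filter (fun r => φ r ∈ J), (if G.Adj u r then (1 : ℤ) else 0)
      = ∑ i ∈ J, ∑ r ∈ (R.filter (fun r => φ r ∈ J)).filter (fun r => φ r = i),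
        if G.Adj u r then (1 : ℤ) else 0 := by
    rw [sum_fiberwise_of_maps_to]
    intro r hr
    exact (mem_filter.1 hr).2
  rw [h1]
  refine sum_le_sum fun i hi => ?_
  split_ifs with h
  · obtain ⟨r, hr, hri, hur⟩ := h
    have hmem : r ∈ (R.filter (fun r => φ r ∈ J)).filter (fun r => φ r = i) := by
      rw [mem_filter, mem_filter]
      exact ⟨⟨hr, by rw [hri]; exact hi⟩, hri⟩
    calc (1 : ℤ) = if G.Adj u r then 1 else 0 := by rw [if_pos hur]
      _ ≤ _ := single_le_sum (f := fun r => if G.Adj u r then (1 : ℤ) else 0)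
          (fun x _ => by split_ifs <;> norm_num) hmem
  · refine sum_nonneg fun r _ => ?_
    split_ifs <;> norm_num

theorem br_le (G : SimpleGraph V) (R : Finset V) (φ : V → Fin 3) (A : Finset V)
    (J : Finset (Fin 3)) : br G R φ A J ≤ ar G A R := by
  unfold br ar
  refine sum_le_sum fun u _ => (br_point_le G R φ u J).trans ?_
  refine sum_le_sum_of_subset_of_nonneg (filter_subset _ _) fun r _ _ => ?_
  split_ifs <;> norm_num

theorem br_lt (G : SimpleGraph V) (R : Finset V) (φ : V → Fin 3) (A : Finset V)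
    (J : Finset (Fin 3)) {v r : V} (hv : v ∈ A) (hr : r ∈ R) (hvr : G.Adj v r) (hφ : φ r ∉ J) :
    br G R φ A J + 1 ≤ ar G A R := by
  unfold br ar
  have h1 : ∑ u ∈ A, (∑ i ∈ J, if ∃ r ∈ R, φ r = i ∧ G.Adj u r then (1 : ℤ) else 0)
      < ∑ u ∈ A, ∑ r ∈ R, (if G.Adj u r then (1 : ℤ) else 0) := by
    apply sum_lt_sum
    · intro u _
      refine (br_point_le G R φ u J).trans ?_
      refine sum_le_sum_of_subset_of_nonneg (filter_subset _ _) fun r _ _ => ?_
      split_ifs <;> norm_num
    · refine ⟨v, hv, (br_point_le G R φ v J).trans_lt ?_⟩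
      apply sum_lt_sum_of_subset (filter_subset _ _) hr
      · simp [hφ]
      · rw [if_pos hvr]; norm_num
      · intro j _ _
        split_ifs <;> norm_num
  omega

theorem pot_glue (G : SimpleGraph V) (R : Finset V) (φ : V → Fin 3) (W : Finset (V ⊕ Fin 3)) :
    pot (glue G R φ) W = pot G W.toLeft + 10 * (#W.toRight : ℤ)
      - 3 * ((#W.toRight : ℤ) * (#W.toRight - 1)) - 6 * br G R φ W.toLeft W.toRight := by
  have hcard : (#W : ℤ) = #W.toLeft + #W.toRight := by
    exact_mod_cast card_toLeft_add_card_toRight.symm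
  have hsplit : ∀ f : V ⊕ Fin 3 → ℤ, ∑ x ∈ W, f x
      = ∑ u ∈ W.toLeft, f (Sum.inl u) + ∑ i ∈ W.toRight, f (Sum.inr i) := by
    intro f
    conv_lhs => rw [← toLeft_disjSum_toRight (u := W)]
    rw [sum_disjSum]
  have har : ar (glue G R φ) W W = ar G W.toLeft W.toLeft + 2 * br G R φ W.toLeft W.toRight
      + (#W.toRight : ℤ) * (#W.toRight - 1) := by
    unfold ar br
    rw [hsplit]
    simp only [hsplit, glue_ll, glue_lr, glue_rl, glue_rr, sum_add_distrib]
    have h1 : ∑ i ∈ W.toRight, ∑ u ∈ W.toLeft,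
        (if ∃ r ∈ R, φ r = i ∧ G.Adj u r then (1 : ℤ) else 0)
        = ∑ u ∈ W.toLeft, ∑ i ∈ W.toRight,
        (if ∃ r ∈ R, φ r = i ∧ G.Adj u r then (1 : ℤ) else 0) := sum_comm
    have h2 : ∑ i ∈ W.toRight, ∑ j ∈ W.toRight, (if i ≠ j then (1 : ℤ) else 0)
        = (#W.toRight : ℤ) * (#W.toRight - 1) := by
      have : ∀ i ∈ W.toRight, ∑ j ∈ W.toRight, (if i ≠ j then (1 : ℤ) else 0)
          = #W.toRight - 1 := by
        intro i hi
        have h3 : ∀ j, (if i ≠ j then (1 : ℤ) else 0) = 1 - (if i = j then 1 else 0) := by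
          intro j
          by_cases h : i = j <;> simp [h]
        simp only [h3, sum_sub_distrib, sum_const, nsmul_eq_mul, mul_one, sum_ite_eq, hi, if_true]
      rw [sum_congr rfl this, sum_const, nsmul_eq_mul]
    rw [h1, h2]
    ring
  unfold pot
  rw [har, hcard]
  ring

theorem not_col3_glue {G : SimpleGraph V} {S R : Finset V} {φ : V → Fin 3}
    (hφ : ∀ u ∈ R, ∀ v ∈ R, G.Adj u v → φ u ≠ φ v) (h : ¬ Col3 G S) :
    ¬ Col3 (glue G R φ) ((S \ R).disjSum (univ : Finset (Fin 3))) := by
  rintro ⟨ψ, hψ⟩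
  apply h
  have hπ : ∀ i j : Fin 3, i ≠ j → ψ (Sum.inr i) ≠ ψ (Sum.inr j) := by
    intro i j hij
    exact hψ _ (by simp) _ (by simp) hij
  have hmix : ∀ u ∈ S, u ∉ R → ∀ v ∈ R, G.Adj u v → ψ (Sum.inl u) ≠ ψ (Sum.inr (φ v)) := by
    intro u hu hu' v hv huv
    exact hψ _ (by simp [hu, hu']) _ (by simp) ⟨v, hv, rfl, huv⟩
  refine ⟨fun v => if v ∈ R then ψ (Sum.inr (φ v)) else ψ (Sum.inl v), fun u hu v hv huv => ?_⟩
  by_cases h1 : u ∈ R <;> by_cases h2 : v ∈ R
  · simp only [h1, h2, if_true]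
    exact hπ _ _ (hφ u h1 v h2 huv)
  · simp only [h1, h2, if_true, if_false]
    exact (hmix v hv h2 u h1 huv.symm).symm
  · simp only [h1, h2, if_true, if_false]
    exact hmix u hu h1 v h2 huv
  · simp only [h1, h2, if_false]
    exact hψ _ (by simp [hu, h1]) _ (by simp [hv, h2]) huv

/-! ### The minimal counterexample -/

/-- induction hypothesis for sets with fewer than `n` vertices -/
def IH (n : ℕ) : Prop :=
  ∀ (V : Type) (G : SimpleGraph V) (S : Finset V), #S < n → ¬ Col3 G S →
    ∃ W ⊆ S, ¬ Col3 G W ∧ pot G W ≤ 4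

/-- the gluing step -/
theorem glue_step {G : SimpleGraph V} {S R : Finset V} (ih : IH #S) (hS : ¬ Col3 G S)
    (hcrit : ∀ T, T ⊂ S → Col3 G T) (hRS : R ⊆ S) (hR : 4 ≤ #R) {φ : V → Fin 3}
    (hφ : ∀ u ∈ R, ∀ v ∈ R, G.Adj u v → φ u ≠ φ v) :
    ∃ (A : Finset V) (J : Finset (Fin 3)), A ⊆ S \ R ∧ J.Nonempty ∧
      pot G A + 10 * (#J : ℤ) - 3 * ((#J : ℤ) * (#J - 1)) - 6 * br G R φ A J ≤ 4 := by
  have h1 := not_col3_glue hφ hS
  obtain ⟨W, hW, hW1, hW2⟩ := ih _ (glue G R φ) ((S \ R).disjSum (univ : Finset (Fin 3))) (by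
    rw [card_disjSum, card_sdiff_of_subset hRS]
    have := card_le_card hRS
    simp only [card_univ, Fintype.card_fin]
    omega) h1
  rw [pot_glue] at hW2
  have hA : W.toLeft ⊆ S \ R := by
    intro v hv
    have := hW (mem_toLeft.1 hv)
    simpa using this
  refine ⟨W.toLeft, W.toRight, hA, ?_, hW2⟩
  rw [nonempty_iff_ne_empty]
  intro hJ
  have hR0 : R.Nonempty := card_pos.1 (by omega)
  have hss : S \ R ⊂ S := sdiff_ssubset hRS hR0
  obtain ⟨c, hc⟩ := (hcrit _ hss).mono hA
  apply hW1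
  refine ⟨Sum.elim c (fun _ => 0), ?_⟩
  rintro (u | i) hu (v | j) hv huv
  · exact hc u (mem_toLeft.2 hu) v (mem_toLeft.2 hv) huv
  · have : j ∈ W.toRight := mem_toRight.2 hv
    rw [hJ] at this
    exact absurd this (notMem_empty _)
  · have : i ∈ W.toRight := mem_toRight.2 hu
    rw [hJ] at this
    exact absurd this (notMem_empty _)
  · have : i ∈ W.toRight := mem_toRight.2 hu
    rw [hJ] at this
    exact absurd this (notMem_empty _)

/-- data of a minimal counterexample -/
structure Crit (G : SimpleGraph V) (S : Finset V) : Prop where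
  ih : IH #S
  nc : ¬ Col3 G S
  crit : ∀ T, T ⊂ S → Col3 G T
  pS : 4 < pot G S

theorem card_J_cases {J : Finset (Fin 3)} (hJ : J.Nonempty) : #J = 1 ∨ #J = 2 ∨ #J = 3 := by
  have h1 := card_pos.2 hJ
  have h2 := card_le_univ J
  simp only [Fintype.card_fin] at h2
  omega

/-- small sets have large potential -/
theorem pot_small {G : SimpleGraph V} {R : Finset V} (h2 : 2 ≤ #R) (h3 : #R ≤ 3) :
    10 < pot G R := by
  have h := ar_self_le G R
  unfold pot
  rcases Nat.lt_or_ge #R 3 with h4 | h4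
  · have h5 : #R = 2 := by omega
    rw [h5] at h ⊢
    push_cast at h ⊢
    linarith
  · have h5 : #R = 3 := by omega
    rw [h5] at h ⊢
    push_cast at h ⊢
    linarith

/-- Claim 2 -/
theorem claim2 {G : SimpleGraph V} {S : Finset V} (hc : Crit G S) (R : Finset V) (hRS : R ⊂ S)
    (h2 : 2 ≤ #R) : 10 < pot G R := by
  by_contra hcon
  push Not at hcon
  -- take a set of minimal potential
  let fam : Finset (Finset V) := S.powerset.filter (fun R => R ≠ S ∧ 2 ≤ #R)
  have hmem : ∀ T, T ∈ fam ↔ T ⊂ S ∧ 2 ≤ #T := by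
    intro T
    simp only [fam, mem_filter, mem_powerset]
    constructor
    · rintro ⟨h1, h2, h3⟩
      exact ⟨ssubset_of_subset_of_ne h1 h2, h3⟩
    · rintro ⟨h1, h2⟩
      exact ⟨h1.subset, h1.ne, h2⟩
  obtain ⟨T, hT, hmin⟩ := exists_min_image fam (fun R => pot G R) ⟨R, (hmem R).2 ⟨hRS, h2⟩⟩
  have hTR := hmin R ((hmem R).2 ⟨hRS, h2⟩)
  obtain ⟨hTS, hT2⟩ := (hmem T).1 hT
  have hT4 : 4 ≤ #T := by
    by_contra h4
    have := pot_small (G := G) hT2 (by omega)
    linarith
  obtain ⟨φ, hφ⟩ := hc.crit T hTS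
  obtain ⟨A, J, hA, hJ, hle⟩ := glue_step hc.ih hc.nc hc.crit hTS.subset hT4 hφ
  have hdisj : Disjoint A T := by
    rw [disjoint_left]
    intro v hv hv'
    exact (mem_sdiff.1 (hA hv)).2 hv'
  have hu := pot_union G hdisj
  have hb := br_le G T φ A J
  have hsub : A ∪ T ⊆ S := union_subset (hA.trans sdiff_subset) hTS.subset
  have hlt : pot G (A ∪ T) ≤ pot G T - 6 := by
    rcases card_J_cases hJ with h | h | h
    · rw [h] at hle; push_cast at hle; linarith
    · rw [h] at hle; push_cast at hle; linarith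
    · rw [h] at hle; push_cast at hle; linarith
  by_cases hEq : A ∪ T = S
  · have := hc.pS
    rw [hEq] at hlt
    linarith
  · have h5 := hmin (A ∪ T) ((hmem _).2 ⟨ssubset_of_subset_of_ne hsub hEq,
      hT2.trans (card_le_card subset_union_right)⟩)
    linarith

/-- Claim 3 -/
theorem claim3 {G : SimpleGraph V} {S : Finset V} (hc : Crit G S) (R : Finset V) (hRS : R ⊂ S)
    (h4 : 4 ≤ #R) : 12 < pot G R := by
  by_contra hcon
  push Not at hcon
  have hRne : R.Nonempty := card_pos.1 (by omega)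
  -- two boundary vertices
  obtain ⟨u1, hu1, u2, hu2, hne, ⟨v1, hv1, hv1', ha1⟩, ⟨v2, hv2, hv2', ha2⟩⟩ :
      ∃ u1 ∈ R, ∃ u2 ∈ R, u1 ≠ u2 ∧ (∃ v ∈ S, v ∉ R ∧ G.Adj u1 v) ∧
        (∃ v ∈ S, v ∉ R ∧ G.Adj u2 v) := by
    by_contra hno
    push Not at hno
    -- a vertex `u` carrying all the boundary edges
    obtain ⟨u, hu, hbd⟩ : ∃ u ∈ R, ∀ w ∈ R, w ≠ u → ∀ v ∈ S, v ∉ R → ¬ G.Adj w v := by
      by_cases hex : ∃ u ∈ R, ∃ v ∈ S, v ∉ R ∧ G.Adj u v
      · obtain ⟨u, hu, v, hv, hv', huv⟩ := hex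
        exact ⟨u, hu, fun w hw hwu v' hv1 hv2 =>
          hno u hu w hw (Ne.symm hwu) ⟨v, hv, hv', huv⟩ v' hv1 hv2⟩
      · push Not at hex
        obtain ⟨u, hu⟩ := hRne
        exact ⟨u, hu, fun w hw _ v hv hv' => hex w hw v hv hv'⟩
    obtain ⟨φ, hφ⟩ := hc.crit R hRS
    have hss : insert u (S \ R) ⊂ S := by
      refine ssubset_of_subset_of_ne ?_ ?_
      · intro x hx
        rcases mem_insert.1 hx with h | h
        · rw [h]; exact hRS.subset hu
        · exact (mem_sdiff.1 h).1
      · intro hEq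
        obtain ⟨a, ha, b, hb, hab⟩ := one_lt_card.1 (show 1 < #R by omega)
        have ha' : a ∈ insert u (S \ R) := by rw [hEq]; exact hRS.subset ha
        have hb' : b ∈ insert u (S \ R) := by rw [hEq]; exact hRS.subset hb
        rw [mem_insert, mem_sdiff] at ha' hb'
        have h1 : a = u := by
          rcases ha' with h | h
          · exact h
          · exact absurd ha h.2
        have h2 : b = u := by
          rcases hb' with h | h
          · exact h
          · exact absurd hb h.2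
        exact hab (h1.trans h2.symm)
    obtain ⟨ψ, hψ⟩ := hc.crit _ hss
    apply hc.nc
    let σ : Equiv.Perm (Fin 3) := Equiv.swap (ψ u) (φ u)
    have hσ : σ (ψ u) = φ u := Equiv.swap_apply_left _ _
    refine ⟨fun v => if v ∈ R then φ v else σ (ψ v), fun x hx y hy hxy => ?_⟩
    by_cases h1 : x ∈ R <;> by_cases h2 : y ∈ R
    · simp only [h1, h2, if_true]
      exact hφ x h1 y h2 hxy
    · simp only [h1, h2, if_true, if_false]
      have hxu : x = u := by
        by_contra h
        exact hbd x h1 h y hy h2 hxy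
      rw [hxu, ← hσ]
      intro h
      have h3 := σ.injective h
      exact hψ u (mem_insert_self _ _) y (mem_insert_of_mem (mem_sdiff.2 ⟨hy, h2⟩))
        (hxu ▸ hxy) h3
    · simp only [h1, h2, if_true, if_false]
      have hyu : y = u := by
        by_contra h
        exact hbd y h2 h x hx h1 hxy.symm
      rw [hyu, ← hσ]
      intro h
      have h3 := σ.injective h
      exact hψ u (mem_insert_self _ _) x (mem_insert_of_mem (mem_sdiff.2 ⟨hx, h1⟩))
        (hyu ▸ hxy.symm) h3.symm
    · simp only [h1, h2, if_false]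
      intro h
      exact hψ x (mem_insert_of_mem (mem_sdiff.2 ⟨hx, h1⟩)) y
        (mem_insert_of_mem (mem_sdiff.2 ⟨hy, h2⟩)) hxy (σ.injective h)
  -- a colouring separating the two boundary vertices
  have hlt : #R < #S := card_lt_card hRS
  obtain ⟨φ, hφ⟩ : Col3 (G ⊔ SimpleGraph.edge u1 u2) R := by
    by_contra hcol
    obtain ⟨U, hU, hU1, hU2⟩ := hc.ih _ _ R hlt hcol
    have h1 := pot_insert_edge G u1 u2 U
    have h2 := four_le_card hU1
    have h3 := claim2 hc U (hU.trans_ssubset hRS) (by omega)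
    linarith
  have hφG : ∀ u ∈ R, ∀ v ∈ R, G.Adj u v → φ u ≠ φ v := fun u hu v hv huv =>
    hφ u hu v hv (by rw [SimpleGraph.sup_adj]; exact Or.inl huv)
  have hφ12 : φ u1 ≠ φ u2 := hφ u1 hu1 u2 hu2 (by
    rw [SimpleGraph.sup_adj, SimpleGraph.edge_adj]
    exact Or.inr ⟨Or.inl ⟨rfl, rfl⟩, hne⟩)
  obtain ⟨A, J, hA, hJ, hle⟩ := glue_step hc.ih hc.nc hc.crit hRS.subset h4 hφG
  have hdisj : Disjoint A R := by
    rw [disjoint_left]
    intro v hv hv'
    exact (mem_sdiff.1 (hA hv)).2 hv'
  have hu := pot_union G hdisj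
  have hb := br_le G R φ A J
  have hsub : A ∪ R ⊆ S := union_subset (hA.trans sdiff_subset) hRS.subset
  have hle6 : pot G (A ∪ R) ≤ 6 := by
    rcases card_J_cases hJ with h | h | h
    · rw [h] at hle; push_cast at hle; linarith
    · rw [h] at hle; push_cast at hle; linarith
    · rw [h] at hle; push_cast at hle; linarith
  by_cases hEq : A ∪ R = S
  · have hAeq : ∀ v ∈ S, v ∉ R → v ∈ A := by
      intro v hv hv'
      rw [← hEq] at hv
      rcases mem_union.1 hv with h | h
      · exact h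
      · exact absurd h hv'
    have hpS := hc.pS
    rw [← hEq] at hpS
    rcases card_J_cases hJ with h | h | h
    · -- `J = {i}`
      obtain ⟨i, hi⟩ := card_eq_one.1 h
      rw [h] at hle; push_cast at hle
      have hex : ∃ u ∈ R, φ u ∉ J ∧ ∃ v ∈ A, G.Adj v u := by
        by_cases h5 : φ u1 = i
        · refine ⟨u2, hu2, ?_, v2, hAeq v2 hv2 hv2', ha2.symm⟩
          rw [hi, mem_singleton]
          intro h6
          exact hφ12 (h5.trans h6.symm)
        · refine ⟨u1, hu1, ?_, v1, hAeq v1 hv1 hv1', ha1.symm⟩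
          rw [hi, mem_singleton]
          exact h5
      obtain ⟨u, hu', huJ, v, hv, hvu⟩ := hex
      have := br_lt G R φ A J hv hu' hvu huJ
      linarith
    · rw [h] at hle; push_cast at hle; linarith
    · rw [h] at hle; push_cast at hle; linarith
  · have h5 := claim2 hc (A ∪ R) (ssubset_of_subset_of_ne hsub hEq)
      (by have := card_le_card (subset_union_right (s₁ := A) (s₂ := R)); omega)
    linarith

/-- Degrees are at least three. -/
theorem three_le_dg {G : SimpleGraph V} {S : Finset V} (hc : Crit G S) {v : V} (hv : v ∈ S) :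
    3 ≤ dg G S v := by
  by_contra hcon
  push Not at hcon
  obtain ⟨c, hcol⟩ := hc.crit (S.erase v) (erase_ssubset hv)
  apply hc.nc
  -- a free colour
  obtain ⟨γ, hγ⟩ : ∃ γ : Fin 3, ∀ u ∈ S, G.Adj v u → c u ≠ γ := by
    by_contra hno
    push Not at hno
    have h1 : (univ : Finset (Fin 3)) ⊆ (S.filter (fun u => G.Adj v u)).image c := by
      intro γ _
      obtain ⟨u, hu, huv, hcu⟩ := hno γ
      exact mem_image.2 ⟨u, mem_filter.2 ⟨hu, huv⟩, hcu⟩
    have h2 := (card_le_card h1).trans card_image_le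
    simp only [card_univ, Fintype.card_fin] at h2
    unfold dg at hcon
    omega
  refine ⟨fun u => if u = v then γ else c u, fun x hx y hy hxy => ?_⟩
  by_cases h1 : x = v <;> by_cases h2 : y = v
  · exact absurd (h1.trans h2.symm) hxy.ne
  · simp only [h1, h2, if_true, if_false]
    exact (hγ y hy (h1 ▸ hxy)).symm
  · simp only [h1, h2, if_true, if_false]
    exact hγ x hx (h2 ▸ hxy.symm)
  · simp only [h1, h2, if_false]
    exact hcol x (mem_erase.2 ⟨h1, hx⟩) y (mem_erase.2 ⟨h2, hy⟩) hxy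

/-- lower bound for `ar` from an explicit list of degrees -/
theorem ar_ge_of_nbrs (G : SimpleGraph V) (D : Finset V) (k : ℕ) (f : V → ℕ)
    (h : ∀ v ∈ D, f v ≤ dg G D v) (hk : k ≤ ∑ v ∈ D, f v) : (k : ℤ) ≤ ar G D D := by
  rw [ar_eq_sum_dg]
  calc (k : ℤ) ≤ ((∑ v ∈ D, f v : ℕ) : ℤ) := by exact_mod_cast hk
    _ = ∑ v ∈ D, (f v : ℤ) := by push_cast; rfl
    _ ≤ ∑ v ∈ D, (dg G D v : ℤ) := sum_le_sum fun v hv => by exact_mod_cast h v hv

theorem le_dg_of_subset {G : SimpleGraph V} {D N : Finset V} {v : V} (hN : N ⊆ D)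
    (h : ∀ u ∈ N, G.Adj v u) : #N ≤ dg G D v := by
  unfold dg
  apply card_le_card
  intro u hu
  exact mem_filter.2 ⟨hN hu, h u hu⟩

/-- Claim 4: no `K_4` minus an edge. -/
theorem claim4 {G : SimpleGraph V} {S : Finset V} (hc : Crit G S) {x1 x2 y z : V}
    (h1 : x1 ∈ S) (h2 : x2 ∈ S) (hy : y ∈ S) (hz : z ∈ S) (hyz : y ≠ z) (h12 : G.Adj x1 x2)
    (h1y : G.Adj x1 y) (h1z : G.Adj x1 z) (h2y : G.Adj x2 y) (h2z : G.Adj x2 z) : False := by
  set D : Finset V := {x1, x2, y, z} with hD
  have hDS : D ⊆ S := by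
    intro v hv
    simp only [hD, mem_insert, mem_singleton] at hv
    rcases hv with rfl | rfl | rfl | rfl <;> assumption
  have hcard : #D = 4 := by
    rw [hD, card_insert_of_notMem, card_insert_of_notMem, card_insert_of_notMem, card_singleton]
    · simpa using hyz
    · simp only [mem_insert, mem_singleton, not_or]
      exact ⟨h2y.ne, h2z.ne⟩
    · simp only [mem_insert, mem_singleton, not_or]
      exact ⟨h12.ne, h1y.ne, h1z.ne⟩
  have hsum : ∀ g : V → ℕ, ∑ v ∈ D, g v = g x1 + (g x2 + (g y + g z)) := by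
    intro g
    rw [hD, sum_insert, sum_insert, sum_insert, sum_singleton]
    · simpa using hyz
    · simp only [mem_insert, mem_singleton, not_or]
      exact ⟨h2y.ne, h2z.ne⟩
    · simp only [mem_insert, mem_singleton, not_or]
      exact ⟨h12.ne, h1y.ne, h1z.ne⟩
  have d1 : 3 ≤ dg G D x1 := by
    have h3 : #({x2, y, z} : Finset V) = 3 := by
      rw [card_insert_of_notMem, card_insert_of_notMem, card_singleton]
      · simpa using hyz
      · simp only [mem_insert, mem_singleton, not_or]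
        exact ⟨h2y.ne, h2z.ne⟩
    rw [← h3]
    apply le_dg_of_subset
    · intro u hu
      simp only [mem_insert, mem_singleton] at hu
      simp only [hD, mem_insert, mem_singleton]
      tauto
    · intro u hu
      simp only [mem_insert, mem_singleton] at hu
      rcases hu with rfl | rfl | rfl <;> assumption
  have d2 : 3 ≤ dg G D x2 := by
    have h3 : #({x1, y, z} : Finset V) = 3 := by
      rw [card_insert_of_notMem, card_insert_of_notMem, card_singleton]
      · simpa using hyz
      · simp only [mem_insert, mem_singleton, not_or]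
        exact ⟨h1y.ne, h1z.ne⟩
    rw [← h3]
    apply le_dg_of_subset
    · intro u hu
      simp only [mem_insert, mem_singleton] at hu
      simp only [hD, mem_insert, mem_singleton]
      tauto
    · intro u hu
      simp only [mem_insert, mem_singleton] at hu
      rcases hu with rfl | rfl | rfl
      · exact h12.symm
      · assumption
      · assumption
  have dy : 2 ≤ dg G D y := by
    have h3 : #({x1, x2} : Finset V) = 2 := card_pair h12.ne
    rw [← h3]
    apply le_dg_of_subset
    · intro u hu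
      simp only [mem_insert, mem_singleton] at hu
      simp only [hD, mem_insert, mem_singleton]
      tauto
    · intro u hu
      simp only [mem_insert, mem_singleton] at hu
      rcases hu with rfl | rfl
      · exact h1y.symm
      · exact h2y.symm
  have dz : 2 ≤ dg G D z := by
    have h3 : #({x1, x2} : Finset V) = 2 := card_pair h12.ne
    rw [← h3]
    apply le_dg_of_subset
    · intro u hu
      simp only [mem_insert, mem_singleton] at hu
      simp only [hD, mem_insert, mem_singleton]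
      tauto
    · intro u hu
      simp only [mem_insert, mem_singleton] at hu
      rcases hu with rfl | rfl
      · exact h1z.symm
      · exact h2z.symm
  by_cases hEq : D = S
  · -- then `S` has four vertices and must be complete
    by_cases hadj : G.Adj y z
    · have e1 : 12 ≤ ∑ v ∈ D, dg G D v := by
        have d3 : 3 ≤ dg G D y := by rw [hEq]; exact three_le_dg hc hy
        have d4 : 3 ≤ dg G D z := by rw [hEq]; exact three_le_dg hc hz
        rw [hsum]
        omega
      have h5 := ar_ge_of_nbrs G D 12 (fun v => dg G D v) (fun _ _ => le_rfl) e1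
      have h6 := hc.pS
      rw [← hEq] at h6
      unfold pot at h6
      rw [hcard] at h6
      push_cast at h5 h6
      linarith
    · apply hc.nc
      rw [← hEq]
      refine ⟨fun v => if v = x1 then 0 else if v = x2 then 1 else 2, fun u hu v hv huv => ?_⟩
      have hu' : u = x1 ∨ u = x2 ∨ (u = y ∨ u = z) := by
        simpa only [hD, mem_insert, mem_singleton] using hu
      have hv' : v = x1 ∨ v = x2 ∨ (v = y ∨ v = z) := by
        simpa only [hD, mem_insert, mem_singleton] using hv
      have n21 : x2 ≠ x1 := h12.ne'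
      have key : ∀ w, (w = y ∨ w = z) → w ≠ x1 ∧ w ≠ x2 := by
        rintro w (rfl | rfl)
        · exact ⟨h1y.ne', h2y.ne'⟩
        · exact ⟨h1z.ne', h2z.ne'⟩
      rcases hu' with rfl | rfl | hu' <;> rcases hv' with rfl | rfl | hv'
      · exact absurd rfl huv.ne
      · simp [n21]
      · obtain ⟨k1, k2⟩ := key v hv'
        simp [k1, k2]
      · simp [n21]
      · exact absurd rfl huv.ne
      · obtain ⟨k1, k2⟩ := key v hv'
        simp [k1, k2, n21]
      · obtain ⟨k1, k2⟩ := key u hu'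
        simp [k1, k2]
      · obtain ⟨k1, k2⟩ := key u hu'
        simp [k1, k2, n21]
      · exfalso
        rcases hu' with rfl | rfl <;> rcases hv' with rfl | rfl
        · exact huv.ne rfl
        · exact hadj huv
        · exact hadj huv.symm
        · exact huv.ne rfl
  · have h5 := ar_ge_of_nbrs G D 10 (fun v => dg G D v) (fun _ _ => le_rfl) (by
      rw [hsum]; omega)
    have h6 := claim2 hc D (ssubset_of_subset_of_ne hDS hEq) (by omega)
    unfold pot at h6
    rw [hcard] at h6
    push_cast at h5 h6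
    linarith

/-- a vertex of degree three with a given neighbour: the other two neighbours -/
theorem nbrs_of_dg_three {G : SimpleGraph V} {S : Finset V} {x y : V} (hd : dg G S x = 3)
    (hy : y ∈ S) (hxy : G.Adj x y) :
    ∃ u v, u ≠ v ∧ u ≠ y ∧ v ≠ y ∧ u ∈ S ∧ v ∈ S ∧ G.Adj x u ∧ G.Adj x v ∧
      ∀ w ∈ S, G.Adj x w → w = y ∨ w = u ∨ w = v := by
  unfold dg at hd
  have hyN : y ∈ S.filter (fun u => G.Adj x u) := mem_filter.2 ⟨hy, hxy⟩
  have h2 : #((S.filter (fun u => G.Adj x u)).erase y) = 2 := by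
    rw [card_erase_of_mem hyN, hd]
  obtain ⟨u, v, huv, hEq⟩ := card_eq_two.1 h2
  have hu : u ∈ (S.filter (fun u => G.Adj x u)).erase y := by rw [hEq]; simp
  have hv : v ∈ (S.filter (fun u => G.Adj x u)).erase y := by rw [hEq]; simp
  rw [mem_erase, mem_filter] at hu hv
  refine ⟨u, v, huv, hu.1, hv.1, hu.2.1, hv.2.1, hu.2.2, hv.2.2, fun w hw hxw => ?_⟩
  by_cases hwy : w = y
  · exact Or.inl hwy
  · right
    have : w ∈ (S.filter (fun u => G.Adj x u)).erase y :=
      mem_erase.2 ⟨hwy, mem_filter.2 ⟨hw, hxw⟩⟩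
    rw [hEq] at this
    simpa using this

/-- a vertex of degree three with two given neighbours: the third neighbour -/
theorem third_nbr {G : SimpleGraph V} {S : Finset V} {x y z : V} (hd : dg G S x = 3)
    (hy : y ∈ S) (hxy : G.Adj x y) (hz : z ∈ S) (hxz : G.Adj x z) (hyz : y ≠ z) :
    ∃ a, a ≠ y ∧ a ≠ z ∧ a ∈ S ∧ G.Adj x a ∧ ∀ w ∈ S, G.Adj x w → w = y ∨ w = z ∨ w = a := by
  obtain ⟨u, v, huv, huy, hvy, hu, hv, hxu, hxv, hall⟩ := nbrs_of_dg_three hd hy hxy
  rcases hall z hz hxz with h | h | h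
  · exact absurd h.symm hyz
  · subst h
    exact ⟨v, hvy, huv.symm, hv, hxv, hall⟩
  · subst h
    refine ⟨u, huy, huv, hu, hxu, fun w hw hxw => ?_⟩
    rcases hall w hw hxw with h | h | h
    · exact Or.inl h
    · exact Or.inr (Or.inr h)
    · exact Or.inr (Or.inl h)

/-- Claim 5: no triangle with two vertices of degree three. -/
theorem claim5 {G : SimpleGraph V} {S : Finset V} (hc : Crit G S) {x1 x2 x3 : V}
    (h1 : x1 ∈ S) (h2 : x2 ∈ S) (h3 : x3 ∈ S) (h12 : G.Adj x1 x2) (h13 : G.Adj x1 x3)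
    (h23 : G.Adj x2 x3) (d1 : dg G S x1 = 3) (d2 : dg G S x2 = 3) : False := by
  obtain ⟨a, ha2, ha3, haS, h1a, hN1⟩ := third_nbr d1 h2 h12 h3 h13 h23.ne
  obtain ⟨b, hb1, hb3, hbS, h2b, hN2⟩ := third_nbr d2 h1 h12.symm h3 h23 h13.ne
  have ha1 : a ≠ x1 := h1a.ne'
  have hb2 : b ≠ x2 := h2b.ne'
  by_cases hab : a = b
  · subst hab
    exact claim4 hc h1 h2 h3 haS ha3.symm h12 h13 h1a h23 h2b
  · set S' := (S.erase x1).erase x2 with hS'
    have hS'S : S' ⊆ S := (erase_subset _ _).trans (erase_subset _ _)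
    have hmem : ∀ v, v ∈ S' ↔ v ≠ x2 ∧ v ≠ x1 ∧ v ∈ S := by
      intro v
      rw [hS', mem_erase, mem_erase]
    have hss : S' ⊂ S := by
      refine ssubset_of_subset_of_ne hS'S ?_
      intro h
      have := (hmem x1).1 (by rw [h]; exact h1)
      exact this.2.1 rfl
    have hnc : ¬ Col3 (G ⊔ SimpleGraph.edge a b) S' := by
      rintro ⟨c, hcol⟩
      apply hc.nc
      have hcab : c a ≠ c b := hcol a ((hmem a).2 ⟨ha2, ha1, haS⟩) b ((hmem b).2 ⟨hb2, hb1, hbS⟩) (by
        rw [SimpleGraph.sup_adj, SimpleGraph.edge_adj]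
        exact Or.inr ⟨Or.inl ⟨rfl, rfl⟩, hab⟩)
      have hfin : ∀ p q r : Fin 3, p ≠ q → ∃ γ δ : Fin 3, γ ≠ p ∧ γ ≠ r ∧ δ ≠ q ∧ δ ≠ r ∧ γ ≠ δ := by
        decide
      obtain ⟨γ, δ, hγa, hγ3, hδb, hδ3, hγδ⟩ := hfin (c a) (c b) (c x3) hcab
      have n21 : x2 ≠ x1 := h12.ne'
      refine ⟨fun v => if v = x1 then γ else if v = x2 then δ else c v, fun u hu v hv huv => ?_⟩
      have hG : ∀ u v, u ∈ S → v ∈ S → u ≠ x1 → u ≠ x2 → v ≠ x1 → v ≠ x2 → G.Adj u v →
          c u ≠ c v := by
        intro u v hu hv e1 e2 e3 e4 huv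
        exact hcol u ((hmem u).2 ⟨e2, e1, hu⟩) v ((hmem v).2 ⟨e4, e3, hv⟩) (by
          rw [SimpleGraph.sup_adj]; exact Or.inl huv)
      have hx1 : ∀ w ∈ S, G.Adj x1 w → w ≠ x1 → w ≠ x2 → γ ≠ c w := by
        intro w hw hxw e1 e2
        rcases hN1 w hw hxw with h | h | h
        · exact absurd h e2
        · rw [h]; exact hγ3
        · rw [h]; exact hγa
      have hx2 : ∀ w ∈ S, G.Adj x2 w → w ≠ x1 → w ≠ x2 → δ ≠ c w := by
        intro w hw hxw e1 e2
        rcases hN2 w hw hxw with h | h | h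
        · exact absurd h e1
        · rw [h]; exact hδ3
        · rw [h]; exact hδb
      by_cases e1 : u = x1
      · subst e1
        by_cases e2 : v = x2
        · subst e2
          simp [n21, hγδ]
        · have e3 : v ≠ u := huv.ne'
          simp only [e2, e3, if_true, if_false]
          exact hx1 v hv huv e3 e2
      · by_cases e2 : u = x2
        · subst e2
          by_cases e3 : v = x1
          · subst e3
            simp [n21, hγδ.symm]
          · have e4 : v ≠ u := huv.ne'
            simp only [e1, e3, e4, if_true, if_false]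
            exact hx2 v hv huv e3 e4
        · by_cases e3 : v = x1
          · subst e3
            simp only [e1, e2, if_true, if_false]
            exact (hx1 u hu huv.symm e1 e2).symm
          · by_cases e4 : v = x2
            · subst e4
              simp only [e1, e2, e3, if_true, if_false]
              exact (hx2 u hu huv.symm e1 e2).symm
            · simp only [e1, e2, e3, e4, if_false]
              exact hG u v hu hv e1 e2 e3 e4 huv
    obtain ⟨W, hW, hW1, hW2⟩ := hc.ih _ _ S' (card_lt_card hss) hnc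
    have e1 := pot_insert_edge G a b W
    have e2 := four_le_card hW1
    have e3 := claim2 hc W (hW.trans_ssubset hss) (by omega)
    linarith

/-! ### Identification of two vertices -/

/-- give `u` also the neighbours of `v` -/
def mrg (G : SimpleGraph V) (u v : V) : SimpleGraph V where
  Adj p q := G.Adj p q ∨ (p = u ∧ q ≠ u ∧ G.Adj v q) ∨ (q = u ∧ p ≠ u ∧ G.Adj v p)
  symm := ⟨by
    rintro p q (h | h | h)
    · exact Or.inl h.symm
    · exact Or.inr (Or.inr h)
    · exact Or.inr (Or.inl h)⟩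
  loopless := ⟨by
    rintro p (h | h | h)
    · exact G.irrefl h
    · exact h.2.1 h.1
    · exact h.2.1 h.1⟩

theorem ar_mrg_le (G : SimpleGraph V) (u v : V) (W : Finset V) :
    ar (mrg G u v) W W ≤ ar G W W + 2 * (dg G W v : ℤ) := by
  have hdg : (dg G W v : ℤ) = ∑ q ∈ W, if G.Adj v q then 1 else 0 := by
    unfold dg
    rw [card_filter]
    push_cast
    rfl
  unfold ar
  have h : ∀ p q, (if (mrg G u v).Adj p q then (1 : ℤ) else 0)
      ≤ (if G.Adj p q then 1 else 0) + ((if p = u then 1 else 0) * (if G.Adj v q then 1 else 0)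
        + (if q = u then 1 else 0) * (if G.Adj v p then 1 else 0)) := by
    intro p q
    have e1 : (0 : ℤ) ≤ (if p = u then 1 else 0) * (if G.Adj v q then 1 else 0) := by
      split_ifs <;> norm_num
    have e2 : (0 : ℤ) ≤ (if q = u then 1 else 0) * (if G.Adj v p then 1 else 0) := by
      split_ifs <;> norm_num
    by_cases h1 : G.Adj p q
    · have h2 : (mrg G u v).Adj p q := Or.inl h1
      rw [if_pos h1, if_pos h2]
      linarith
    · by_cases h2 : (mrg G u v).Adj p q
      · rw [if_pos h2, if_neg h1]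
        rcases h2 with h2 | h2 | h2
        · exact absurd h2 h1
        · have e3 : (if p = u then (1 : ℤ) else 0) * (if G.Adj v q then 1 else 0) = 1 := by
            rw [if_pos h2.1, if_pos h2.2.2]; norm_num
          linarith
        · have e3 : (if q = u then (1 : ℤ) else 0) * (if G.Adj v p then 1 else 0) = 1 := by
            rw [if_pos h2.1, if_pos h2.2.2]; norm_num
          linarith
      · rw [if_neg h2, if_neg h1]
        linarith
  have hone : ∑ p ∈ W, (if p = u then (1 : ℤ) else 0) ≤ 1 := by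
    rw [sum_ite_eq']
    split_ifs <;> norm_num
  have hdg0 : (0 : ℤ) ≤ dg G W v := by positivity
  calc ∑ p ∈ W, ∑ q ∈ W, (if (mrg G u v).Adj p q then (1 : ℤ) else 0)
      ≤ ∑ p ∈ W, ∑ q ∈ W, ((if G.Adj p q then 1 else 0)
        + ((if p = u then 1 else 0) * (if G.Adj v q then 1 else 0)
        + (if q = u then 1 else 0) * (if G.Adj v p then 1 else 0))) :=
        sum_le_sum fun p _ => sum_le_sum fun q _ => h p q
    _ = ∑ p ∈ W, ∑ q ∈ W, (if G.Adj p q then (1 : ℤ) else 0)
        + (∑ p ∈ W, ∑ q ∈ W, (if p = u then (1 : ℤ) else 0) * (if G.Adj v q then 1 else 0)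
        + ∑ p ∈ W, ∑ q ∈ W, (if q = u then (1 : ℤ) else 0) * (if G.Adj v p then 1 else 0)) := by
        simp only [sum_add_distrib]
    _ = ∑ p ∈ W, ∑ q ∈ W, (if G.Adj p q then (1 : ℤ) else 0)
        + ((∑ p ∈ W, (if p = u then (1 : ℤ) else 0)) * (dg G W v : ℤ)
        + (∑ p ∈ W, (if p = u then (1 : ℤ) else 0)) * (dg G W v : ℤ)) := by
        congr 2
        · rw [hdg, sum_mul_sum]
        · rw [sum_comm, hdg, sum_mul_sum]
    _ ≤ _ := by nlinarith

theorem ar_insert (G : SimpleGraph V) {W : Finset V} {v : V} (hv : v ∉ W) :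
    ar G (insert v W) (insert v W) = ar G W W + 2 * (dg G W v : ℤ) := by
  have hd : Disjoint {v} W := by rwa [disjoint_singleton_left]
  rw [insert_eq, ar_union_left G hd, ar_union_right G hd, ar_union_right G hd, ar_comm G W {v}]
  have h1 : ar G {v} {v} = 0 := by simp [ar]
  have h2 : ar G {v} W = dg G W v := by
    rw [ar_eq_sum_dg, sum_singleton]
  rw [h1, h2]
  ring

/-- Claim 6: if two vertices of degree three are adjacent then they lie in a triangle. -/
theorem claim6 {G : SimpleGraph V} {S : Finset V} (hc : Crit G S) {x y : V}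
    (hx : x ∈ S) (hy : y ∈ S) (hxy : G.Adj x y) (dx : dg G S x = 3) (dy : dg G S y = 3) :
    ∃ p ∈ S, ∃ q ∈ S, G.Adj x p ∧ G.Adj x q ∧ G.Adj p q := by
  by_contra hno
  push Not at hno
  obtain ⟨u, v, huv, huy, hvy, huS, hvS, hxu, hxv, hall⟩ := nbrs_of_dg_three dx hy hxy
  have nuv : ¬ G.Adj u v := hno u huS v hvS hxu hxv
  have nyu : ¬ G.Adj y u := hno y hy u huS hxy hxu
  have nyv : ¬ G.Adj y v := hno y hy v hvS hxy hxv
  set S' := ((S.erase x).erase y).erase v with hS'
  have hmem : ∀ w, w ∈ S' ↔ w ≠ v ∧ w ≠ y ∧ w ≠ x ∧ w ∈ S := by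
    intro w
    rw [hS', mem_erase, mem_erase, mem_erase]
  have hS'S : S' ⊆ S := fun w hw => ((hmem w).1 hw).2.2.2
  have hss : S' ⊂ S := by
    refine ssubset_of_subset_of_ne hS'S ?_
    intro h
    have := (hmem x).1 (by rw [h]; exact hx)
    exact this.2.2.1 rfl
  have nxv : x ≠ v := hxv.ne
  have nxu : x ≠ u := hxu.ne
  have nxy : x ≠ y := hxy.ne
  have hnc : ¬ Col3 (mrg G u v) S' := by
    rintro ⟨c, hcol⟩
    apply hc.nc
    have huS' : u ∈ S' := (hmem u).2 ⟨huv, huy, nxu.symm, huS⟩
    -- colour of `y`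
    obtain ⟨s, t, _, hsx, htx, hsS, htS, hys, hyt, hally⟩ := nbrs_of_dg_three dy hx hxy.symm
    have hfin : ∀ p q : Fin 3, ∃ r : Fin 3, r ≠ p ∧ r ≠ q := by decide
    obtain ⟨β, hβs, hβt⟩ := hfin (c s) (c t)
    obtain ⟨α, hαβ, hαu⟩ := hfin β (c u)
    -- the colouring
    let d : V → Fin 3 := fun w => if w = x then α else if w = y then β else if w = v then c u else c w
    have dx' : d x = α := by simp [d]
    have dy' : d y = β := by simp [d, nxy.symm]
    have dv' : d v = c u := by simp [d, nxv.symm, hvy]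
    have dw' : ∀ w, w ≠ x → w ≠ y → w ≠ v → d w = c w := by
      intro w h1 h2 h3
      simp [d, h1, h2, h3]
    have du' : d u = c u := dw' u nxu.symm huy huv
    have px : ∀ w ∈ S, G.Adj x w → d x ≠ d w := by
      intro w hw hxw
      rw [dx']
      rcases hall w hw hxw with h | h | h
      · rw [h, dy']; exact hαβ
      · rw [h, du']; exact hαu
      · rw [h, dv']; exact hαu
    have py : ∀ w ∈ S, w ≠ x → G.Adj y w → d y ≠ d w := by
      intro w hw hwx hyw
      have e1 : w ≠ y := hyw.ne'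
      have e2 : w ≠ v := by rintro rfl; exact nyv hyw
      rw [dy', dw' w hwx e1 e2]
      rcases hally w hw hyw with h | h | h
      · exact absurd h hwx
      · rw [h]; exact hβs
      · rw [h]; exact hβt
    have pv : ∀ w ∈ S, w ≠ x → w ≠ y → G.Adj v w → d v ≠ d w := by
      intro w hw hwx hwy hvw
      have e2 : w ≠ v := hvw.ne'
      have e3 : w ≠ u := by rintro rfl; exact nuv hvw.symm
      rw [dv', dw' w hwx hwy e2]
      exact hcol u huS' w ((hmem w).2 ⟨e2, hwy, hwx, hw⟩) (Or.inr (Or.inl ⟨rfl, e3, hvw⟩))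
    refine ⟨d, fun p hp q hq hpq => ?_⟩
    by_cases p1 : p = x
    · subst p1; exact px q hq hpq
    · by_cases q1 : q = x
      · subst q1; exact (px p hp hpq.symm).symm
      · by_cases p2 : p = y
        · subst p2; exact py q hq q1 hpq
        · by_cases q2 : q = y
          · subst q2; exact (py p hp p1 hpq.symm).symm
          · by_cases p3 : p = v
            · subst p3; exact pv q hq q1 q2 hpq
            · by_cases q3 : q = v
              · subst q3; exact (pv p hp p1 p2 hpq.symm).symm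
              · rw [dw' p p1 p2 p3, dw' q q1 q2 q3]
                exact hcol p ((hmem p).2 ⟨p3, p2, p1, hp⟩) q ((hmem q).2 ⟨q3, q2, q1, hq⟩)
                  (Or.inl hpq)
  obtain ⟨W, hW, hW1, hW2⟩ := hc.ih _ _ S' (card_lt_card hss) hnc
  have huW : u ∈ W := by
    by_contra hu
    apply hW1
    obtain ⟨c, hcol⟩ := (hc.crit S' hss).mono hW
    refine ⟨c, fun p hp q hq hpq => ?_⟩
    rcases hpq with h | h | h
    · exact hcol p hp q hq h
    · exact absurd (h.1 ▸ hp) hu
    · exact absurd (h.1 ▸ hq) hu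
  have hvW : v ∉ W := fun h => ((hmem v).1 (hW h)).1 rfl
  have hxW : x ∉ insert v W := by
    rw [mem_insert, not_or]
    exact ⟨nxv, fun h => ((hmem x).1 (hW h)).2.2.1 rfl⟩
  have hyW : y ∉ insert x (insert v W) := by
    rw [mem_insert, mem_insert, not_or, not_or]
    exact ⟨nxy.symm, hvy.symm, fun h => ((hmem y).1 (hW h)).2.1 rfl⟩
  have hsub : insert x (insert v W) ⊂ S := by
    refine ssubset_of_subset_of_ne ?_ ?_
    · intro w hw
      rw [mem_insert, mem_insert] at hw
      rcases hw with h | h | h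
      · rw [h]; exact hx
      · rw [h]; exact hvS
      · exact hS'S (hW h)
    · intro h
      exact hyW (by rw [h]; exact hy)
  have h4 := four_le_card hW1
  have hcard : #(insert x (insert v W)) = #W + 2 := by
    rw [card_insert_of_notMem hxW, card_insert_of_notMem hvW]
  have h5 := claim3 hc _ hsub (by omega)
  have h6 : 2 ≤ dg G (insert v W) x := by
    have : #({u, v} : Finset V) = 2 := card_pair huv
    rw [← this]
    apply le_dg_of_subset
    · intro w hw
      simp only [mem_insert, mem_singleton] at hw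
      rcases hw with rfl | rfl
      · exact mem_insert_of_mem huW
      · exact mem_insert_self _ _
    · intro w hw
      simp only [mem_insert, mem_singleton] at hw
      rcases hw with rfl | rfl <;> assumption
  have h6' : (2 : ℤ) ≤ dg G (insert v W) x := by exact_mod_cast h6
  have h7 := ar_mrg_le G u v W
  unfold pot at h5 hW2
  rw [ar_insert G hxW, ar_insert G hvW, hcard] at h5
  push_cast at h5
  linarith

/-- A minimal counterexample does not exist. -/
theorem no_crit {G : SimpleGraph V} {S : Finset V} (hc : Crit G S) : False := by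
  set S3 := S.filter (fun v => dg G S v = 3) with hS3
  set S4 := S.filter (fun v => ¬ dg G S v = 3) with hS4
  have hunion : S3 ∪ S4 = S := filter_union_filter_not_eq _ _
  have hdisj : Disjoint S3 S4 := disjoint_filter_filter_not _ _ _
  -- at most one 3-neighbour
  have hone : ∀ x ∈ S3, dg G S3 x ≤ 1 := by
    intro x hx
    obtain ⟨hxS, dx⟩ := mem_filter.1 hx
    by_contra hcon
    push Not at hcon
    unfold dg at hcon
    obtain ⟨y1, hy1, y2, hy2, hne⟩ := one_lt_card.1 hcon
    rw [mem_filter] at hy1 hy2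
    obtain ⟨hy1S3, hxy1⟩ := hy1
    obtain ⟨hy2S3, hxy2⟩ := hy2
    obtain ⟨hy1S, dy1⟩ := mem_filter.1 hy1S3
    obtain ⟨hy2S, dy2⟩ := mem_filter.1 hy2S3
    obtain ⟨p, hp, q, hq, hxp, hxq, hpq⟩ := claim6 hc hxS hy1S hxy1 dx dy1
    obtain ⟨z, hz1, hz2, hzS, hxz, hall⟩ := third_nbr dx hy1S hxy1 hy2S hxy2 hne
    rcases hall p hp hxp with h | h | h
    · subst h; exact claim5 hc hxS hp hq hxp hxq hpq dx dy1
    · subst h; exact claim5 hc hxS hp hq hxp hxq hpq dx dy2
    · rcases hall q hq hxq with h' | h' | h'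
      · subst h'; exact claim5 hc hxS hq hp hxq hxp hpq.symm dx dy1
      · subst h'; exact claim5 hc hxS hq hp hxq hxp hpq.symm dx dy2
      · exact hpq.ne (h.trans h'.symm)
  have e33 : ar G S3 S3 ≤ #S3 := by
    rw [ar_eq_sum_dg]
    calc ∑ u ∈ S3, (dg G S3 u : ℤ) ≤ ∑ u ∈ S3, (1 : ℤ) :=
          sum_le_sum fun u hu => by exact_mod_cast hone u hu
      _ = #S3 := by simp
  have e3S : ar G S3 S = 3 * #S3 := by
    rw [ar_eq_sum_dg]
    calc ∑ u ∈ S3, (dg G S u : ℤ) = ∑ u ∈ S3, (3 : ℤ) :=
          sum_congr rfl fun u hu => by exact_mod_cast (mem_filter.1 hu).2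
      _ = 3 * #S3 := by rw [sum_const, nsmul_eq_mul]; ring
  have e3S' : ar G S3 S = ar G S3 S3 + ar G S3 S4 := by
    conv_lhs => rw [← hunion]
    exact ar_union_right G hdisj S3
  have e4S : 4 * (#S4 : ℤ) ≤ ar G S4 S := by
    rw [ar_eq_sum_dg]
    calc 4 * (#S4 : ℤ) = ∑ u ∈ S4, (4 : ℤ) := by rw [sum_const, nsmul_eq_mul]; ring
      _ ≤ ∑ u ∈ S4, (dg G S u : ℤ) := by
          refine sum_le_sum fun u hu => ?_
          obtain ⟨h1, h2⟩ := mem_filter.1 hu
          have := three_le_dg hc h1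
          have : 4 ≤ dg G S u := by omega
          exact_mod_cast this
  have e43 : ar G S3 S4 ≤ ar G S4 S := by
    rw [ar_comm]
    exact ar_mono_right G S4 (filter_subset _ _)
  have eSS : ar G S S = ar G S3 S + ar G S4 S := by
    conv_lhs => rw [← hunion]
    rw [ar_union_left G hdisj, hunion]
  have ecard : (#S : ℤ) = #S3 + #S4 := by
    have := card_union_of_disjoint hdisj
    rw [hunion] at this
    exact_mod_cast this
  have hp := hc.pS
  unfold pot at hp
  have h0 : (0 : ℤ) ≤ #S3 := by positivity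
  linarith

theorem main (n : ℕ) : ∀ (V : Type) (G : SimpleGraph V) (S : Finset V), #S = n → ¬ Col3 G S →
    ∃ W ⊆ S, ¬ Col3 G W ∧ pot G W ≤ 4 := by
  induction n using Nat.strong_induction_on with
  | _ n ih =>
    intro V G S hS hnc
    have hIH : IH #S := by
      intro V' G' S' hS' hnc'
      exact ih #S' (by omega) V' G' S' rfl hnc'
    by_cases hex : ∃ T, T ⊂ S ∧ ¬ Col3 G T
    · obtain ⟨T, hT, hT'⟩ := hex
      obtain ⟨W, hW, hW'⟩ := hIH V G T (card_lt_card hT) hT'
      exact ⟨W, hW.trans hT.subset, hW'⟩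
    · push Not at hex
      by_cases hp : pot G S ≤ 4
      · exact ⟨S, Subset.refl S, hnc, hp⟩
      · exact (no_crit ⟨hIH, hnc, hex, by linarith⟩).elim

theorem sum_dg_eq (G : SimpleGraph V) (F : Finset V) :
    ∑ v ∈ F, (F.filter (fun u => G.Adj v u)).card = 2 * edgesIn G F := by
  unfold edgesIn
  have h1 : ∑ v ∈ F, (F.filter (fun u => G.Adj v u)).card =
      ((F ×ˢ F).filter (fun p => G.Adj p.1 p.2)).card := by
    rw [Finset.card_filter, Finset.sum_product]
    refine Finset.sum_congr rfl (fun v _ => ?_)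
    rw [Finset.card_filter]
  rw [h1]
  rw [Finset.card_eq_sum_card_fiberwise (f := fun p : V × V => s(p.1, p.2))
    (t := F.sym2.filter (fun e => e ∈ G.edgeSet))]
  · rw [Finset.sum_const_nat (m := 2)]
    · ring
    · intro e he
      induction e using Sym2.ind with
      | _ a b =>
        simp only [Finset.mem_filter, Finset.mk_mem_sym2_iff, SimpleGraph.mem_edgeSet] at he
        obtain ⟨⟨ha, hb⟩, hab⟩ := he
        have : ((F ×ˢ F).filter (fun p => G.Adj p.1 p.2)).filter
            (fun p : V × V => s(p.1, p.2) = s(a, b)) = {(a, b), (b, a)} := by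
          ext ⟨x, y⟩
          simp only [Finset.mem_filter, Finset.mem_product, Finset.mem_insert,
            Finset.mem_singleton, Prod.mk.injEq, Sym2.eq_iff]
          constructor
          · rintro ⟨_, h⟩
            exact h
          · rintro (⟨rfl, rfl⟩ | ⟨rfl, rfl⟩)
            · exact ⟨⟨⟨ha, hb⟩, hab⟩, Or.inl ⟨rfl, rfl⟩⟩
            · exact ⟨⟨⟨hb, ha⟩, hab.symm⟩, Or.inr ⟨rfl, rfl⟩⟩
        rw [this, Finset.card_pair]
        intro h
        rw [Prod.mk.injEq] at h
        exact hab.ne h.1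
  · intro p hp
    simp only [Finset.coe_filter, Finset.mem_product, Set.mem_ofPred_eq,
      Finset.mk_mem_sym2_iff, SimpleGraph.mem_edgeSet] at hp ⊢
    exact hp

theorem ar_eq_edgesIn (G : SimpleGraph V) (F : Finset V) : ar G F F = 2 * (edgesIn G F : ℤ) := by
  rw [ar_eq_sum_dg]
  have := sum_dg_eq G F
  unfold dg
  exact_mod_cast this

theorem col3_iff (G : SimpleGraph V) (W : Finset V) :
    Col3 G W ↔ (G.induce (W : Set V)).Colorable 3 := by
  constructor
  · rintro ⟨c, hc⟩
    exact ⟨SimpleGraph.Coloring.mk (fun v => c v.1) (by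
      intro u v huv
      exact hc u.1 u.2 v.1 v.2 huv)⟩
  · rintro ⟨c⟩
    refine ⟨fun v => if h : v ∈ (W : Set V) then c ⟨v, h⟩ else 0, fun u hu v hv huv => ?_⟩
    have hu' : u ∈ (W : Set V) := hu
    have hv' : v ∈ (W : Set V) := hv
    simp only [dif_pos hu', dif_pos hv']
    exact c.valid huv

end KY

/-- Every finite graph that is not 3-colourable contains a vertex set `W` inducing a non-3-colourable
graph with potential `5|W| - 3 e(W) ≤ 2`. -/
theorem kostochka_yancey {V : Type} [Fintype V] (G : SimpleGraph V) (h : ¬ G.Colorable 3) :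
    ∃ W : Finset V, ¬ (G.induce (W : Set V)).Colorable 3 ∧ 5 * W.card ≤ 3 * edgesIn G W + 2 := by
  have hnc : ¬ KY.Col3 G univ := by
    rintro ⟨c, hc⟩
    exact h ⟨SimpleGraph.Coloring.mk c (fun {u v} huv => hc u (mem_univ _) v (mem_univ _) huv)⟩
  obtain ⟨W, _, hW1, hW2⟩ := KY.main _ V G univ rfl hnc
  refine ⟨W, fun hcol => hW1 ((KY.col3_iff G W).2 hcol), ?_⟩
  unfold KY.pot at hW2
  rw [KY.ar_eq_edgesIn] at hW2
  have : (10 * #W : ℤ) ≤ 6 * edgesIn G W + 4 := by linarith
  have h2 : 10 * #W ≤ 6 * edgesIn G W + 4 := by exact_mod_cast this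
  omega

end Pool.Agent.TFP
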