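import Pool.Agent.Lib.TFP.Defs

/-!
Module F. The main list-colouring argument.
-/

set_option autoImplicit false

namespace Pool.Agent.TFP

open Finset

/-! ### Splitting colours evenly on types -/

theorem split_one (T : Finset ℕ) (N : ℕ) (hN : 0 < N) :
    ∃ s : ℕ → Fin N, ∀ i, T.card ≤ N * ((T.filter (fun c => s c = i)).card + 1) := by
  classical
  have : NeZero N := ⟨hN.ne'⟩
  let e := T.equivFin
  let s : ℕ → Fin N := fun c => if h : c ∈ T then Fin.ofNat N (e ⟨c, h⟩ : ℕ) else 0
  refine ⟨s, fun i => ?_⟩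
  have h1 : T.card / N ≤ (T.filter (fun c => s c = i)).card := by
    have hcount : T.card / N ≤ T.card.count (· ≡ (i : ℕ) [MOD N]) := by
      rw [Nat.count_modEq_card _ hN]
      omega
    refine hcount.trans ?_
    rw [Nat.count_eq_card_filter_range]
    -- inject the filtered range to T.filter
    refine Finset.card_le_card_of_injOn
      (fun j => if h : j < T.card then ((e.symm ⟨j, h⟩ : T) : ℕ) else 0) ?_ ?_
    · intro j hj
      simp only [Finset.coe_filter, Finset.mem_range, Set.mem_ofPred_eq] at hj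
      obtain ⟨hj1, hj2⟩ := hj
      simp only [hj1, dite_true, Finset.coe_filter, Set.mem_ofPred_eq]
      refine ⟨(e.symm ⟨j, hj1⟩).2, ?_⟩
      have : s ((e.symm ⟨j, hj1⟩ : T) : ℕ) = Fin.ofNat N j := by
        simp only [s, (e.symm ⟨j, hj1⟩).2, dite_true]
        simp
      rw [this]
      apply Fin.ext
      simp only [Fin.ofNat]
      have h3 : j % N = (i : ℕ) % N := hj2
      rw [h3, Nat.mod_eq_of_lt i.2]
    · intro j hj k hk hjk
      simp only [Finset.coe_filter, Finset.mem_range, Set.mem_ofPred_eq] at hj hk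
      simp only [hj.1, hk.1, dite_true] at hjk
      have := e.symm.injective (Subtype.ext hjk)
      simpa using this
  have h2 : T.card < N * (T.card / N + 1) := by
    have := Nat.lt_mul_div_succ T.card hN
    simpa using this
  calc T.card ≤ N * (T.card / N + 1) := h2.le
    _ ≤ _ := Nat.mul_le_mul_left _ (by omega)

theorem split_types {V : Type} (K : Finset V) (A : V → Finset ℕ) (N : ℕ) (hN : 0 < N) :
    ∃ s : ℕ → Fin N, ∀ v ∈ K, ∀ i,
      (A v).card ≤ N * (((A v).filter (fun c => s c = i)).card + 2 ^ K.card) := by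
  classical
  let τ : ℕ → Finset V := fun c => K.filter (fun v => c ∈ A v)
  let T : Finset V → Finset ℕ := fun S => (K.biUnion A).filter (fun c => τ c = S)
  choose s hs using fun S => split_one (T S) N hN
  refine ⟨fun c => s (τ c) c, fun v hv i => ?_⟩
  -- A v is the disjoint union of T S over S ∋ v
  have hA : A v = (K.powerset.filter (fun S => v ∈ S)).biUnion T := by
    ext c
    simp only [Finset.mem_biUnion, Finset.mem_filter, Finset.mem_powerset, T, τ]
    constructor
    · intro hc
      refine ⟨K.filter (fun v => c ∈ A v), ⟨Finset.filter_subset _ _, ?_⟩, ⟨v, hv, hc⟩, rfl⟩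
      simp [hv, hc]
    · rintro ⟨S, ⟨hS1, hS2⟩, hS3, hS4⟩
      rw [← hS4] at hS2
      exact (Finset.mem_filter.mp hS2).2
  have hdisj : ∀ S ∈ K.powerset.filter (fun S => v ∈ S), ∀ S' ∈ K.powerset.filter (fun S => v ∈ S),
      S ≠ S' → Disjoint (T S) (T S') := by
    intro S _ S' _ hne
    rw [Finset.disjoint_left]
    intro c hc hc'
    simp only [T, Finset.mem_filter] at hc hc'
    exact hne (hc.2.symm.trans hc'.2)
  have hcard : (A v).card = ∑ S ∈ K.powerset.filter (fun S => v ∈ S), (T S).card := by
    conv_lhs => rw [hA]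
    exact Finset.card_biUnion hdisj
  have hcard2 : ((A v).filter (fun c => s (τ c) c = i)).card =
      ∑ S ∈ K.powerset.filter (fun S => v ∈ S), ((T S).filter (fun c => s S c = i)).card := by
    have : (A v).filter (fun c => s (τ c) c = i) =
        (K.powerset.filter (fun S => v ∈ S)).biUnion
          (fun S => (T S).filter (fun c => s S c = i)) := by
      ext c
      rw [Finset.mem_filter]
      conv_lhs => rw [hA]
      simp only [Finset.mem_biUnion, Finset.mem_filter]
      constructor
      · rintro ⟨⟨S, hS, hc⟩, hi⟩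
        refine ⟨S, hS, hc, ?_⟩
        have : τ c = S := (Finset.mem_filter.mp hc).2
        rw [← this]; exact hi
      · rintro ⟨S, hS, hc, hi⟩
        refine ⟨⟨S, hS, hc⟩, ?_⟩
        have : τ c = S := (Finset.mem_filter.mp hc).2
        rw [this]; exact hi
    rw [this]
    refine Finset.card_biUnion ?_
    intro S hS S' hS' hne
    exact Finset.disjoint_of_subset_left (Finset.filter_subset _ _)
      (Finset.disjoint_of_subset_right (Finset.filter_subset _ _) (hdisj S hS S' hS' hne))
  rw [hcard, hcard2]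
  have hpow : (K.powerset.filter (fun S => v ∈ S)).card ≤ 2 ^ K.card := by
    calc _ ≤ K.powerset.card := Finset.card_filter_le _ _
      _ = 2 ^ K.card := Finset.card_powerset K
  calc ∑ S ∈ K.powerset.filter (fun S => v ∈ S), (T S).card
      ≤ ∑ S ∈ K.powerset.filter (fun S => v ∈ S),
          N * (((T S).filter (fun c => s S c = i)).card + 1) :=
        Finset.sum_le_sum (fun S _ => hs S i)
    _ = N * (∑ S ∈ K.powerset.filter (fun S => v ∈ S), ((T S).filter (fun c => s S c = i)).card
          + (K.powerset.filter (fun S => v ∈ S)).card) := by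
        rw [← Finset.mul_sum, Finset.sum_add_distrib, Finset.sum_const, smul_eq_mul, mul_one]
    _ ≤ _ := Nat.mul_le_mul_left _ (Nat.add_le_add_left hpow _)

/-! ### Counting edges -/

open Classical in
theorem sum_deg_eq {V : Type} (G : SimpleGraph V) (F : Finset V) :
    ∑ v ∈ F, (F.filter (fun u => G.Adj v u)).card = 2 * edgesIn G F := by
  unfold edgesIn
  have h1 : ∑ v ∈ F, (F.filter (fun u => G.Adj v u)).card =
      ((F ×ˢ F).filter (fun p => G.Adj p.1 p.2)).card := by
    rw [Finset.card_filter, Finset.sum_product]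
    refine Finset.sum_congr rfl (fun v _ => ?_)
    rw [Finset.card_filter]
  rw [h1]
  rw [Finset.card_eq_sum_card_fiberwise (f := fun p : V × V => s(p.1, p.2))
    (t := F.sym2.filter (fun e => e ∈ G.edgeSet))]
  · rw [Finset.sum_const_nat (m := 2)]
    · ring
    · intro e he
      induction e using Sym2.ind with
      | _ a b =>
        simp only [Finset.mem_filter, Finset.mk_mem_sym2_iff, SimpleGraph.mem_edgeSet] at he
        obtain ⟨⟨ha, hb⟩, hab⟩ := he
        have : ((F ×ˢ F).filter (fun p => G.Adj p.1 p.2)).filter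
            (fun p : V × V => s(p.1, p.2) = s(a, b)) = {(a, b), (b, a)} := by
          ext ⟨x, y⟩
          simp only [Finset.mem_filter, Finset.mem_product, Finset.mem_insert,
            Finset.mem_singleton, Prod.mk.injEq, Sym2.eq_iff]
          constructor
          · rintro ⟨_, h⟩
            exact h
          · rintro (⟨rfl, rfl⟩ | ⟨rfl, rfl⟩)
            · exact ⟨⟨⟨ha, hb⟩, hab⟩, Or.inl ⟨rfl, rfl⟩⟩
            · exact ⟨⟨⟨hb, ha⟩, hab.symm⟩, Or.inr ⟨rfl, rfl⟩⟩
        rw [this, Finset.card_pair]
        intro h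
        rw [Prod.mk.injEq] at h
        exact hab.ne h.1
  · intro p hp
    simp only [Finset.coe_filter, Finset.mem_product, Set.mem_ofPred_eq,
      Finset.mk_mem_sym2_iff, SimpleGraph.mem_edgeSet] at hp ⊢
    exact hp

theorem edgesIn_le_out {V : Type} [DecidableEq V] (G : SimpleGraph V) (F : Finset V) (out : V → Finset V)
    (h : ∀ u ∈ F, ∀ v ∈ F, G.Adj u v → v ∈ out u ∨ u ∈ out v) :
    edgesIn G F ≤ ∑ v ∈ F, (out v ∩ F).card := by
  classical
  unfold edgesIn
  have hsub : F.sym2.filter (fun e => e ∈ G.edgeSet) ⊆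
      (F.sigma (fun v => out v ∩ F)).image (fun p => s(p.1, p.2)) := by
    intro e he
    induction e using Sym2.ind with
    | _ a b =>
      simp only [Finset.mem_filter, Finset.mk_mem_sym2_iff, SimpleGraph.mem_edgeSet] at he
      obtain ⟨⟨ha, hb⟩, hab⟩ := he
      rw [Finset.mem_image]
      rcases h a ha b hb hab with h' | h'
      · exact ⟨⟨a, b⟩, by simp [ha, hb, h'], rfl⟩
      · exact ⟨⟨b, a⟩, by simp [ha, hb, h'], Sym2.eq_swap⟩
  calc _ ≤ _ := Finset.card_le_card hsub
    _ ≤ _ := Finset.card_image_le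
    _ = _ := Finset.card_sigma _ _

/-! ### Homomorphism to the 5-cycle -/

theorem walk4 : ∀ p q : ZMod 5, ∃ x y z : ZMod 5, (x - p = 1 ∨ x - p = -1) ∧
    (y - x = 1 ∨ y - x = -1) ∧ (z - y = 1 ∨ z - y = -1) ∧ (q - z = 1 ∨ q - z = -1) := by
  decide

theorem pm_symm {p q : ZMod 5} (h : p - q = 1 ∨ p - q = -1) : q - p = 1 ∨ q - p = -1 := by
  rcases h with h | h
  · right; rw [← h]; ring
  · left; rw [← neg_eq_iff_eq_neg.mpr h]; ring

theorem hom_C5 {V : Type} (G : SimpleGraph V) (h3 : G.CliqueFree 3) :
    ∀ (n : ℕ) (W : Finset V), W.card = n → (∀ F ⊆ W, edgesIn G F ≤ F.card) →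
      ∃ φ : V → ZMod 5, ∀ u ∈ W, ∀ v ∈ W, G.Adj u v → (φ u - φ v = 1 ∨ φ u - φ v = -1) := by
  classical
  intro n
  induction n using Nat.strong_induction_on with
  | _ n ih =>
  intro W hW hF
  rcases W.eq_empty_or_nonempty with rfl | hne
  · exact ⟨fun _ => 0, by simp⟩
  by_cases hlow : ∃ v ∈ W, (W.filter (fun u => G.Adj v u)).card ≤ 1
  · obtain ⟨v, hv, hdeg⟩ := hlow
    obtain ⟨φ, hφ⟩ := ih (W.erase v).card (by rw [← hW]; exact Finset.card_erase_lt_of_mem hv)
      (W.erase v) rfl (fun F hF' => hF F (hF'.trans (Finset.erase_subset _ _)))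
    have : Nonempty V := ⟨v⟩
    rw [Finset.card_le_one_iff_subset_singleton] at hdeg
    obtain ⟨w, hw⟩ := hdeg
    refine ⟨Function.update φ v (φ w + 1), ?_⟩
    have hnb : ∀ u ∈ W, G.Adj v u → u = w := by
      intro u hu huv
      have : u ∈ W.filter (fun u => G.Adj v u) := by simp [hu, huv]
      simpa using hw this
    intro a ha b hb hab
    by_cases hav : a = v
    · subst hav
      have hbw := hnb b hb hab
      subst hbw
      have hba : b ≠ a := hab.ne'
      left
      rw [Function.update_self, Function.update_of_ne hba]; ring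
    · by_cases hbv : b = v
      · subst hbv
        have haw := hnb a ha hab.symm
        subst haw
        right
        rw [Function.update_self, Function.update_of_ne hav]; ring
      · rw [Function.update_of_ne hav, Function.update_of_ne hbv]
        exact hφ a (Finset.mem_erase.mpr ⟨hav, ha⟩) b (Finset.mem_erase.mpr ⟨hbv, hb⟩) hab
  · push Not at hlow
    -- all degrees are exactly 2
    have hdeg2 : ∀ v ∈ W, (W.filter (fun u => G.Adj v u)).card = 2 := by
      have hsum := sum_deg_eq G W
      have hle := hF W (Finset.Subset.refl W)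
      by_contra hcon
      push Not at hcon
      obtain ⟨v, hv, hv2⟩ := hcon
      have h1 : ∑ v ∈ W, 2 < ∑ v ∈ W, (W.filter (fun u => G.Adj v u)).card := by
        refine Finset.sum_lt_sum (fun u hu => hlow u hu) ⟨v, hv, ?_⟩
        have := hlow v hv
        omega
      rw [Finset.sum_const, smul_eq_mul] at h1
      omega
    obtain ⟨c, hc⟩ := hne
    obtain ⟨b, e, hbe, hcN⟩ := Finset.card_eq_two.mp (hdeg2 c hc)
    have hb : b ∈ W ∧ G.Adj c b := by
      have : b ∈ W.filter (fun u => G.Adj c u) := by rw [hcN]; simp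
      simpa using this
    have he : e ∈ W ∧ G.Adj c e := by
      have : e ∈ W.filter (fun u => G.Adj c u) := by rw [hcN]; simp
      simpa using this
    have hnbe : ¬ G.Adj b e := by
      intro h
      exact h3 {c, b, e} (SimpleGraph.is3Clique_triple_iff.mpr ⟨hb.2, he.2, h⟩)
    -- other neighbour of b
    have hexa : ∃ a, a ≠ c ∧ (W.filter (fun u => G.Adj b u)) = {a, c} := by
      obtain ⟨x, y, hxy, hN⟩ := Finset.card_eq_two.mp (hdeg2 b hb.1)
      have hcmem : c ∈ W.filter (fun u => G.Adj b u) := by simp [hc, hb.2.symm]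
      rw [hN] at hcmem
      simp only [Finset.mem_insert, Finset.mem_singleton] at hcmem
      rcases hcmem with rfl | rfl
      · exact ⟨y, hxy.symm, by rw [hN, Finset.pair_comm]⟩
      · exact ⟨x, hxy, hN⟩
    have hexd : ∃ d, d ≠ c ∧ (W.filter (fun u => G.Adj e u)) = {d, c} := by
      obtain ⟨x, y, hxy, hN⟩ := Finset.card_eq_two.mp (hdeg2 e he.1)
      have hcmem : c ∈ W.filter (fun u => G.Adj e u) := by simp [hc, he.2.symm]
      rw [hN] at hcmem
      simp only [Finset.mem_insert, Finset.mem_singleton] at hcmem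
      rcases hcmem with rfl | rfl
      · exact ⟨y, hxy.symm, by rw [hN, Finset.pair_comm]⟩
      · exact ⟨x, hxy, hN⟩
    obtain ⟨a, hac, hbN⟩ := hexa
    obtain ⟨d, hdc, heN⟩ := hexd
    have ha : a ∈ W ∧ G.Adj b a := by
      have : a ∈ W.filter (fun u => G.Adj b u) := by rw [hbN]; simp
      simpa using this
    have hd : d ∈ W ∧ G.Adj e d := by
      have : d ∈ W.filter (fun u => G.Adj e u) := by rw [heN]; simp
      simpa using this
    have hab : a ≠ b := ha.2.ne'
    have hae : a ≠ e := by rintro rfl; exact hnbe ha.2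
    have hde : d ≠ e := hd.2.ne'
    have hdb : d ≠ b := by rintro rfl; exact hnbe hd.2.symm
    have hcb : c ≠ b := hb.2.ne
    have hce : c ≠ e := he.2.ne
    let W' := ((W.erase b).erase c).erase e
    have hW'sub : W' ⊆ W := (Finset.erase_subset _ _).trans
      ((Finset.erase_subset _ _).trans (Finset.erase_subset _ _))
    have hW'card : W'.card < n := by
      rw [← hW]
      apply Finset.card_lt_card
      refine ⟨hW'sub, fun h => ?_⟩
      have := h hb.1
      simp [W'] at this
    obtain ⟨φ, hφ⟩ := ih W'.card hW'card W' rfl (fun F hF' => hF F (hF'.trans hW'sub))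
    obtain ⟨x, y, z, hx, hy, hz, hq⟩ := walk4 (φ a) (φ d)
    let ψ : V → ZMod 5 := fun v => if v = b then x else if v = c then y else if v = e then z else φ v
    have ψb : ψ b = x := by simp [ψ]
    have ψc : ψ c = y := by simp [ψ, hcb]
    have ψe : ψ e = z := by simp [ψ, hbe.symm, hce.symm]
    have ψo : ∀ v, v ≠ b → v ≠ c → v ≠ e → ψ v = φ v := by
      intro v h1 h2 h3; simp [ψ, h1, h2, h3]
    have ψa : ψ a = φ a := ψo a hab hac hae
    have ψd : ψ d = φ d := ψo d hdb hdc hde
    refine ⟨ψ, ?_⟩
    -- directed statement: if u is one of b, c, e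
    have key : ∀ u ∈ W, ∀ v ∈ W, G.Adj u v → (u = b ∨ u = c ∨ u = e) →
        (ψ u - ψ v = 1 ∨ ψ u - ψ v = -1) := by
      intro u hu v hv huv hu3
      rcases hu3 with rfl | rfl | rfl
      · have : v ∈ W.filter (fun w => G.Adj u w) := by simp [hv, huv]
        rw [hbN] at this
        simp only [Finset.mem_insert, Finset.mem_singleton] at this
        rcases this with rfl | rfl
        · rw [ψb, ψa]; exact hx
        · rw [ψb, ψc]; exact pm_symm hy
      · have : v ∈ W.filter (fun w => G.Adj u w) := by simp [hv, huv]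
        rw [hcN] at this
        simp only [Finset.mem_insert, Finset.mem_singleton] at this
        rcases this with rfl | rfl
        · rw [ψb, ψc]; exact hy
        · rw [ψc, ψe]; exact pm_symm hz
      · have : v ∈ W.filter (fun w => G.Adj u w) := by simp [hv, huv]
        rw [heN] at this
        simp only [Finset.mem_insert, Finset.mem_singleton] at this
        rcases this with rfl | rfl
        · rw [ψe, ψd]; exact pm_symm hq
        · rw [ψe, ψc]; exact hz
    intro u hu v hv huv
    by_cases hu3 : u = b ∨ u = c ∨ u = e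
    · exact key u hu v hv huv hu3
    · by_cases hv3 : v = b ∨ v = c ∨ v = e
      · exact pm_symm (key v hv u hu huv.symm hv3)
      · push Not at hu3 hv3
        rw [ψo u hu3.1 hu3.2.1 hu3.2.2, ψo v hv3.1 hv3.2.1 hv3.2.2]
        refine hφ u ?_ v ?_ huv
        · simp [W', hu, hu3.1, hu3.2.1, hu3.2.2]
        · simp [W', hv, hv3.1, hv3.2.1, hv3.2.2]

/-! ### Colouring when all out-degrees are 1 or 2 -/

theorem zmod5_aux : ∀ (p r j : ZMod 5), (p = j ∨ p = j + 2) → (r = j ∨ r = j + 2) →
    ¬ (p - r = 1 ∨ p - r = -1) := by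
  decide

/-- the allowed strategies for a vertex with 3-colour `k` and `C₅`-colour `x`
(`b` tells whether the vertex has out-degree 1) -/
def strat (k : Fin 3) (b : Bool) (x : ZMod 5) : Finset (Fin 23) :=
  univ.filter (fun i : Fin 23 => (i.val < 18 ∧ i.val / 6 = k.val) ∨
    (18 ≤ i.val ∧ b = true ∧ (x = ((i.val - 18 : ℕ) : ZMod 5) ∨ x = ((i.val - 18 : ℕ) : ZMod 5) + 2)))

theorem strat_card_false : ∀ (k : Fin 3) (x : ZMod 5), (strat k false x).card = 6 := by
  decide

theorem strat_card_true : ∀ (k : Fin 3) (x : ZMod 5), (strat k true x).card = 8 := by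
  decide

theorem colour_step {V : Type} (G : SimpleGraph V) (h3 : G.CliqueFree 3) (κ : G.Coloring (Fin 3))
    (R q : ℕ) (hq : 920 * 2 ^ R ≤ q) (W : Finset V) (hW : W.card ≤ R) (out : V → Finset V)
    (hcov : ∀ u ∈ W, ∀ v ∈ W, G.Adj u v → v ∈ out u ∨ u ∈ out v)
    [DecidableEq V]
    (hout : ∀ v ∈ W, (out v ∩ W).card = 1 ∨ (out v ∩ W).card = 2)
    (A : V → Finset ℕ) (hA : ∀ v ∈ W, (10 * (out v ∩ W).card + 19) * q ≤ 10 * (A v).card) :
    ∃ C : V → Finset ℕ, (∀ v ∈ W, C v ⊆ A v ∧ (C v).card = q) ∧
      ∀ u ∈ W, ∀ v ∈ W, G.Adj u v → Disjoint (C u) (C v) := by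
  classical
  let W3 := W.filter (fun v => (out v ∩ W).card = 1)
  have hW3 : W3 ⊆ W := Finset.filter_subset _ _
  obtain ⟨φ, hφ⟩ := hom_C5 G h3 W3.card W3 rfl (by
    intro F hF
    refine (edgesIn_le_out G F out (fun u hu v hv huv =>
      hcov u (hW3 (hF hu)) v (hW3 (hF hv)) huv)).trans ?_
    calc ∑ v ∈ F, (out v ∩ F).card ≤ ∑ v ∈ F, 1 := by
          refine Finset.sum_le_sum (fun v hv => ?_)
          have h1 : (out v ∩ W).card = 1 := (Finset.mem_filter.mp (hF hv)).2
          rw [← h1]
          exact Finset.card_le_card (Finset.inter_subset_inter_left (hF.trans hW3))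
      _ = F.card := by simp)
  obtain ⟨s, hs⟩ := split_types W A 23 (by norm_num)
  let st : V → Finset (Fin 23) := fun v => strat (κ v) (decide ((out v ∩ W).card = 1)) (φ v)
  let C' : V → Finset ℕ := fun v => (A v).filter (fun c => s c ∈ st v)
  have hcardC' : ∀ v ∈ W, q ≤ (C' v).card := by
    intro v hv
    have h1 : (C' v).card = ∑ i ∈ st v, ((A v).filter (fun c => s c = i)).card := by
      have : C' v = (st v).biUnion (fun i => (A v).filter (fun c => s c = i)) := by
        ext c
        simp only [C', Finset.mem_filter, Finset.mem_biUnion]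
        constructor
        · rintro ⟨h1, h2⟩
          exact ⟨s c, h2, h1, rfl⟩
        · rintro ⟨i, hi, h1, h2⟩
          exact ⟨h1, h2 ▸ hi⟩
      rw [this]
      refine Finset.card_biUnion ?_
      intro i _ j _ hij
      change Disjoint _ _
      rw [Finset.disjoint_left]
      intro c hc hc'
      exact hij ((Finset.mem_filter.mp hc).2.symm.trans (Finset.mem_filter.mp hc').2)
    have h2 : (st v).card * (A v).card ≤ 23 * ((C' v).card + (st v).card * 2 ^ R) := by
      calc (st v).card * (A v).card = ∑ i ∈ st v, (A v).card := by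
            rw [Finset.sum_const, smul_eq_mul]
        _ ≤ ∑ i ∈ st v, 23 * (((A v).filter (fun c => s c = i)).card + 2 ^ R) := by
            refine Finset.sum_le_sum (fun i _ => (hs v hv i).trans ?_)
            refine Nat.mul_le_mul_left _ (Nat.add_le_add_left ?_ _)
            exact Nat.pow_le_pow_right (by norm_num) hW
        _ = 23 * ((C' v).card + (st v).card * 2 ^ R) := by
            rw [← Finset.mul_sum, Finset.sum_add_distrib, h1, Finset.sum_const, smul_eq_mul]
    have h3' := hA v hv
    rcases hout v hv with ho | ho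
    · have hst : (st v).card = 8 := by
        simp only [st, ho, decide_true]
        exact strat_card_true _ _
      rw [hst] at h2
      rw [ho] at h3'
      omega
    · have hst : (st v).card = 6 := by
        have : decide ((out v ∩ W).card = 1) = false := by rw [ho]; decide
        simp only [st, this]
        exact strat_card_false _ _
      rw [hst] at h2
      rw [ho] at h3'
      omega
  have hdisj : ∀ u ∈ W, ∀ v ∈ W, G.Adj u v → Disjoint (C' u) (C' v) := by
    intro u hu v hv huv
    rw [Finset.disjoint_left]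
    intro c hcu hcv
    simp only [C', Finset.mem_filter, st, strat, Finset.mem_univ, true_and,
      decide_eq_true_eq] at hcu hcv
    obtain ⟨_, hcu⟩ := hcu
    obtain ⟨_, hcv⟩ := hcv
    rcases hcu with ⟨h1, h2⟩ | ⟨h1, h2, h2'⟩
    · rcases hcv with ⟨h3, h4⟩ | ⟨h3, h4, h4'⟩
      · apply κ.valid huv
        apply Fin.ext
        omega
      · omega
    · rcases hcv with ⟨h3, h4⟩ | ⟨h3, h4, h4'⟩
      · omega
      · have hu3 : u ∈ W3 := Finset.mem_filter.mpr ⟨hu, h2⟩
        have hv3 : v ∈ W3 := Finset.mem_filter.mpr ⟨hv, h4⟩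
        exact zmod5_aux _ _ _ h2' h4' (hφ u hu3 v hv3 huv)
  -- choose subsets of size exactly q
  have hex : ∀ v, ∃ D : Finset ℕ, v ∈ W → D ⊆ C' v ∧ D.card = q := by
    intro v
    by_cases hv : v ∈ W
    · obtain ⟨D, hD1, hD2⟩ := Finset.exists_subset_card_eq (hcardC' v hv)
      exact ⟨D, fun _ => ⟨hD1, hD2⟩⟩
    · exact ⟨∅, fun h => absurd h hv⟩
  choose C hC using hex
  refine ⟨C, fun v hv => ⟨(hC v hv).1.trans (Finset.filter_subset _ _), (hC v hv).2⟩, ?_⟩
  intro u hu v hv huv
  exact Finset.disjoint_of_subset_left (hC u hu).1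
    (Finset.disjoint_of_subset_right (hC v hv).1 (hdisj u hu v hv huv))

/-! ### Colouring an oriented piece -/

theorem colour_oriented {V : Type} [DecidableEq V] (G : SimpleGraph V) (h3 : G.CliqueFree 3)
    (κ : G.Coloring (Fin 3)) (R q : ℕ) (hq : 920 * 2 ^ R ≤ q) (out : V → Finset V) :
    ∀ (n : ℕ) (W : Finset V), W.card = n → n ≤ R →
    (∀ u ∈ W, ∀ v ∈ W, G.Adj u v → v ∈ out u ∨ u ∈ out v) →
    (∀ v ∈ W, (out v ∩ W).card ≤ 2) →
    ∀ (A : V → Finset ℕ), (∀ v ∈ W, (10 * (out v ∩ W).card + 19) * q ≤ 10 * (A v).card) →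
    ∃ C : V → Finset ℕ, (∀ v ∈ W, C v ⊆ A v ∧ (C v).card = q) ∧
      ∀ u ∈ W, ∀ v ∈ W, G.Adj u v → Disjoint (C u) (C v) := by
  classical
  intro n
  induction n using Nat.strong_induction_on with
  | _ n ih =>
  intro W hWn hnR hcov hout A hA
  by_cases hz : ∃ v ∈ W, (out v ∩ W).card = 0
  · obtain ⟨v, hv, hv0⟩ := hz
    have hv0' : out v ∩ W = ∅ := Finset.card_eq_zero.mp hv0
    have hAv := hA v hv
    rw [hv0] at hAv
    obtain ⟨Cv, hCv1, hCv2⟩ := Finset.exists_subset_card_eq (show q ≤ (A v).card by omega)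
    let A' : V → Finset ℕ := fun u => if v ∈ out u then A u \ Cv else A u
    have hlt : (W.erase v).card < n := by rw [← hWn]; exact Finset.card_erase_lt_of_mem hv
    obtain ⟨C, hC1, hC2⟩ := ih (W.erase v).card hlt (W.erase v) rfl (hlt.le.trans hnR)
      (fun u hu w hw => hcov u (Finset.mem_of_mem_erase hu) w (Finset.mem_of_mem_erase hw))
      (fun u hu => (Finset.card_le_card
        (Finset.inter_subset_inter_left (Finset.erase_subset _ _))).trans
          (hout u (Finset.mem_of_mem_erase hu)))
      A' (by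
        intro u hu
        have hu' := Finset.mem_of_mem_erase hu
        have hAu := hA u hu'
        by_cases hvu : v ∈ out u
        · have h1 : (out u ∩ W.erase v).card + 1 = (out u ∩ W).card := by
            have : out u ∩ W.erase v = (out u ∩ W).erase v := by
              ext x; simp only [Finset.mem_inter, Finset.mem_erase]; tauto
            rw [this, Finset.card_erase_add_one (Finset.mem_inter.mpr ⟨hvu, hv⟩)]
          have h2 : (A u).card ≤ (A' u).card + q := by
            simp only [A', hvu, if_true]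
            rw [← hCv2]
            have := Finset.le_card_sdiff Cv (A u)
            omega
          rw [← h1] at hAu
          ring_nf at hAu ⊢
          omega
        · have h1 : (out u ∩ W.erase v).card ≤ (out u ∩ W).card :=
            Finset.card_le_card (Finset.inter_subset_inter_left (Finset.erase_subset _ _))
          simp only [A', hvu, if_false]
          refine le_trans (Nat.mul_le_mul_right _ ?_) hAu
          omega)
    refine ⟨Function.update C v Cv, ?_, ?_⟩
    · intro u hu
      by_cases huv : u = v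
      · subst huv
        rw [Function.update_self]
        exact ⟨hCv1, hCv2⟩
      · rw [Function.update_of_ne huv]
        obtain ⟨h1, h2⟩ := hC1 u (Finset.mem_erase.mpr ⟨huv, hu⟩)
        refine ⟨h1.trans ?_, h2⟩
        simp only [A']
        split_ifs
        · exact Finset.sdiff_subset
        · exact Finset.Subset.refl _
    · have key : ∀ u ∈ W, u ≠ v → G.Adj u v → Disjoint (C u) Cv := by
        intro u hu huv hadj
        have hvu : v ∈ out u := by
          rcases hcov u hu v hv hadj with h | h
          · exact h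
          · exfalso
            have : u ∈ out v ∩ W := Finset.mem_inter.mpr ⟨h, hu⟩
            rw [hv0'] at this
            simp at this
        have := (hC1 u (Finset.mem_erase.mpr ⟨huv, hu⟩)).1
        simp only [A', hvu, if_true] at this
        exact Finset.disjoint_of_subset_left this Finset.sdiff_disjoint
      intro a ha b hb hab
      by_cases hav : a = v
      · subst hav
        have hba : b ≠ a := hab.ne'
        rw [Function.update_self, Function.update_of_ne hba]
        exact (key b hb hba hab.symm).symm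
      · by_cases hbv : b = v
        · subst hbv
          rw [Function.update_self, Function.update_of_ne hav]
          exact key a ha hav hab
        · rw [Function.update_of_ne hav, Function.update_of_ne hbv]
          exact hC2 a (Finset.mem_erase.mpr ⟨hav, ha⟩) b (Finset.mem_erase.mpr ⟨hbv, hb⟩) hab
  · push Not at hz
    refine colour_step G h3 κ R q hq W (hWn ▸ hnR) out hcov ?_ A hA
    intro v hv
    have h1 := hz v hv
    have h2 := hout v hv
    omega

/-! ### Orientations from Hall's theorem -/

/-- the vertex of a slot -/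
def slotV {V : Type} : (V × Fin 50 × ℕ) ⊕ V → V
  | Sum.inl x => x.1
  | Sum.inr v => v

theorem hall_orient {V : Type} [DecidableEq V] (G : SimpleGraph V) (K : Finset V)
    (cap : V → ℕ) (h : ∀ F ⊆ K, 50 * edgesIn G F ≤ 50 * ∑ v ∈ F, cap v + F.card) :
    ∃ out : Fin 50 → V → Finset V,
      (∀ i, ∀ u ∈ K, ∀ v ∈ K, G.Adj u v → v ∈ out i u ∨ u ∈ out i v) ∧
      ∀ v ∈ K, (univ.filter (fun i => cap v < (out i v ∩ K).card)).card ≤ 1 := by
  classical
  let E : Finset (Sym2 V) := K.sym2.filter (fun e => e ∈ G.edgeSet)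
  let slots : Sym2 V → Fin 50 → V → Finset ((V × Fin 50 × ℕ) ⊕ V) := fun _ i v =>
    insert (Sum.inr v) ((range (cap v)).image (fun k => Sum.inl (v, i, k)))
  let t : {e // e ∈ E} × Fin 50 → Finset ((V × Fin 50 × ℕ) ⊕ V) := fun x =>
    (K.filter (fun v => v ∈ x.1.1)).biUnion (slots x.1.1 x.2)
  have hall : ∀ s : Finset ({e // e ∈ E} × Fin 50), s.card ≤ (s.biUnion t).card := by
    intro s
    let F : Fin 50 → Finset V := fun i => K.filter (fun v => ∃ x ∈ s, x.2 = i ∧ v ∈ x.1.1)
    let FF : Finset V := K.filter (fun v => ∃ x ∈ s, v ∈ x.1.1)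
    have hFF : ∀ i, F i ⊆ FF := by
      intro i v hv
      simp only [F, Finset.mem_filter] at hv
      obtain ⟨h1, x, hx, _, h2⟩ := hv
      exact Finset.mem_filter.mpr ⟨h1, x, hx, h2⟩
    have hsi : ∀ i, (s.filter (fun x => x.2 = i)).card ≤ edgesIn G (F i) := by
      intro i
      unfold edgesIn
      refine Finset.card_le_card_of_injOn (fun x => x.1.1) ?_ ?_
      · intro x hx
        simp only [Finset.coe_filter, Set.mem_ofPred_eq] at hx ⊢
        have hxE : x.1.1 ∈ E := x.1.2
        simp only [E, Finset.mem_filter] at hxE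
        refine ⟨?_, hxE.2⟩
        rw [Finset.mem_sym2_iff]
        intro a ha
        refine Finset.mem_filter.mpr ⟨Finset.mem_sym2_iff.mp hxE.1 a ha, x, hx.1, hx.2, ha⟩
      · intro x hx y hy hxy
        simp only [Finset.coe_filter, Set.mem_ofPred_eq] at hx hy
        exact Prod.ext (Subtype.ext hxy) (hx.2.trans hy.2.symm)
    -- lower bound for the number of slots
    let S1 : Finset ((V × Fin 50 × ℕ) ⊕ V) :=
      (univ : Finset (Fin 50)).biUnion (fun i => (F i).biUnion
        (fun v => (range (cap v)).image (fun k => Sum.inl (v, i, k))))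
    let S2 : Finset ((V × Fin 50 × ℕ) ⊕ V) := FF.image Sum.inr
    have hsub1 : S1 ⊆ s.biUnion t := by
      intro z hz
      simp only [S1, Finset.mem_biUnion, Finset.mem_image, Finset.mem_univ, true_and,
        Finset.mem_range] at hz
      obtain ⟨i, v, hv, k, hk, rfl⟩ := hz
      simp only [F, Finset.mem_filter] at hv
      obtain ⟨hvK, x, hx, rfl, hvx⟩ := hv
      refine Finset.mem_biUnion.mpr ⟨x, hx, Finset.mem_biUnion.mpr ⟨v, ?_, ?_⟩⟩
      · exact Finset.mem_filter.mpr ⟨hvK, hvx⟩
      · exact Finset.mem_insert_of_mem (Finset.mem_image.mpr ⟨k, Finset.mem_range.mpr hk, rfl⟩)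
    have hsub2 : S2 ⊆ s.biUnion t := by
      intro z hz
      simp only [S2, Finset.mem_image] at hz
      obtain ⟨v, hv, rfl⟩ := hz
      simp only [FF, Finset.mem_filter] at hv
      obtain ⟨hvK, x, hx, hvx⟩ := hv
      refine Finset.mem_biUnion.mpr ⟨x, hx, Finset.mem_biUnion.mpr ⟨v, ?_, ?_⟩⟩
      · exact Finset.mem_filter.mpr ⟨hvK, hvx⟩
      · exact Finset.mem_insert_self _ _
    have hd : Disjoint S1 S2 := by
      rw [Finset.disjoint_left]
      intro z hz hz'
      simp only [S1, Finset.mem_biUnion, Finset.mem_image] at hz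
      simp only [S2, Finset.mem_image] at hz'
      obtain ⟨_, _, _, _, _, _, rfl⟩ := hz
      obtain ⟨_, _, h⟩ := hz'
      exact Sum.inr_ne_inl h
    have hc1 : S1.card = ∑ i, ∑ v ∈ F i, cap v := by
      rw [Finset.card_biUnion]
      · refine Finset.sum_congr rfl (fun i _ => ?_)
        rw [Finset.card_biUnion]
        · refine Finset.sum_congr rfl (fun v _ => ?_)
          rw [Finset.card_image_of_injective, Finset.card_range]
          intro a b hab
          simpa using hab
        · intro v _ w _ hvw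
          change Disjoint _ _
          rw [Finset.disjoint_left]
          intro z hz hz'
          simp only [Finset.mem_image] at hz hz'
          obtain ⟨_, _, rfl⟩ := hz
          obtain ⟨_, _, h⟩ := hz'
          simp only [Sum.inl.injEq, Prod.mk.injEq] at h
          exact hvw h.1.symm
      · intro i _ j _ hij
        change Disjoint _ _
        rw [Finset.disjoint_left]
        intro z hz hz'
        simp only [Finset.mem_biUnion, Finset.mem_image] at hz hz'
        obtain ⟨_, _, _, _, rfl⟩ := hz
        obtain ⟨_, _, _, _, h⟩ := hz'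
        simp only [Sum.inl.injEq, Prod.mk.injEq] at h
        exact hij h.2.1.symm
    have hc2 : S2.card = FF.card := Finset.card_image_of_injective _ Sum.inr_injective
    have hle : S1.card + S2.card ≤ (s.biUnion t).card := by
      rw [← Finset.card_union_of_disjoint hd]
      exact Finset.card_le_card (Finset.union_subset hsub1 hsub2)
    have hs : s.card = ∑ i, (s.filter (fun x => x.2 = i)).card := by
      have hmaps : Set.MapsTo (Prod.snd : {e // e ∈ E} × Fin 50 → Fin 50) ↑s
          ↑(univ : Finset (Fin 50)) := fun x _ => Finset.mem_coe.mpr (Finset.mem_univ _)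
      exact Finset.card_eq_sum_card_fiberwise hmaps
    have h50 : 50 * s.card ≤ 50 * (∑ i, ∑ v ∈ F i, cap v) + 50 * FF.card := by
      rw [hs, Finset.mul_sum]
      calc ∑ i, 50 * (s.filter (fun x => x.2 = i)).card
          ≤ ∑ i : Fin 50, (50 * ∑ v ∈ F i, cap v + FF.card) := by
            refine Finset.sum_le_sum (fun i _ => ?_)
            have h1 := h (F i) (Finset.filter_subset _ _)
            have h2 := hsi i
            have h3 := Finset.card_le_card (hFF i)
            omega
        _ = 50 * (∑ i, ∑ v ∈ F i, cap v) + 50 * FF.card := by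
            rw [Finset.sum_add_distrib, ← Finset.mul_sum]
            simp
    omega
  obtain ⟨f, hfinj, hf⟩ := (Finset.all_card_le_biUnion_card_iff_exists_injective t).mp hall
  have hfV : ∀ x, slotV (f x) ∈ x.1.1 ∧ slotV (f x) ∈ K ∧
      f x ∈ slots x.1.1 x.2 (slotV (f x)) := by
    intro x
    have := hf x
    simp only [t, Finset.mem_biUnion] at this
    obtain ⟨v, hv, hv2⟩ := this
    have hvv : slotV (f x) = v := by
      simp only [slots, Finset.mem_insert, Finset.mem_image] at hv2
      rcases hv2 with h | ⟨k, _, h⟩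
      · rw [h]; rfl
      · rw [← h]; rfl
    rw [hvv]
    exact ⟨(Finset.mem_filter.mp hv).2, (Finset.mem_filter.mp hv).1, hv2⟩
  have hE : ∀ u ∈ K, ∀ v ∈ K, G.Adj u v → s(u, v) ∈ E := by
    intro u hu v hv huv
    simp only [E, Finset.mem_filter, Finset.mk_mem_sym2_iff, SimpleGraph.mem_edgeSet]
    exact ⟨⟨hu, hv⟩, huv⟩
  let out : Fin 50 → V → Finset V := fun i u =>
    K.filter (fun v => ∃ hh : s(u, v) ∈ E, slotV (f (⟨s(u, v), hh⟩, i)) = u)
  refine ⟨out, ?_, ?_⟩
  · intro i u hu v hv huv
    have he := hE u hu v hv huv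
    have h1 := (hfV (⟨s(u, v), he⟩, i)).1
    rcases Sym2.mem_iff.mp h1 with h | h
    · left
      exact Finset.mem_filter.mpr ⟨hv, he, h⟩
    · right
      have he' := hE v hv u hu huv.symm
      refine Finset.mem_filter.mpr ⟨hu, he', ?_⟩
      have : (⟨s(v, u), he'⟩ : {e // e ∈ E}) = ⟨s(u, v), he⟩ := Subtype.ext Sym2.eq_swap
      rw [this]
      exact h
  · intro v hv
    -- a bad copy uses the extra slot of v
    have hbad : ∀ i, cap v < (out i v ∩ K).card → ∃ e, f (e, i) = Sum.inr v := by
      intro i hi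
      by_contra hcon
      push Not at hcon
      have hle : (out i v ∩ K).card ≤ (range (cap v)).card := by
        have hsub : out i v ∩ K = out i v :=
          Finset.inter_eq_left.mpr (Finset.filter_subset _ _)
        rw [hsub]
        have hex : ∀ w ∈ out i v, ∃ k, k < cap v ∧ ∃ hh : s(v, w) ∈ E,
            f (⟨s(v, w), hh⟩, i) = Sum.inl (v, i, k) := by
          intro w hw
          obtain ⟨_, hh, hslot⟩ := Finset.mem_filter.mp hw
          have h2 := (hfV (⟨s(v, w), hh⟩, i)).2.2
          rw [hslot] at h2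
          simp only [slots, Finset.mem_insert, Finset.mem_image, Finset.mem_range] at h2
          rcases h2 with h2 | ⟨k, hk, h2⟩
          · exact absurd h2 (hcon _)
          · exact ⟨k, hk, hh, h2.symm⟩
        choose! k hk using hex
        refine Finset.card_le_card_of_injOn k ?_ ?_
        · intro w hw
          exact Finset.mem_coe.mpr (Finset.mem_range.mpr (hk w hw).1)
        · intro w hw w' hw' hkk
          obtain ⟨_, hh, h1⟩ := hk w hw
          obtain ⟨_, hh', h1'⟩ := hk w' hw'
          rw [hkk, ← h1'] at h1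
          have h2 := hfinj h1
          simp only [Prod.mk.injEq, Subtype.mk.injEq, and_true] at h2
          rcases Sym2.eq_iff.mp h2 with ⟨_, h⟩ | ⟨h3, h4⟩
          · exact h
          · exact h4.trans h3
      rw [Finset.card_range] at hle
      omega
    rw [Finset.card_le_one]
    intro i hi j hj
    obtain ⟨e, he⟩ := hbad i (Finset.mem_filter.mp hi).2
    obtain ⟨e', he'⟩ := hbad j (Finset.mem_filter.mp hj).2
    have := hfinj (he.trans he'.symm)
    exact (Prod.ext_iff.mp this).2

/-! ### Colouring one piece -/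

theorem colour_piece {V : Type} [DecidableEq V] (G : SimpleGraph V) (h3 : G.CliqueFree 3)
    (κ : G.Coloring (Fin 3)) (R q : ℕ) (hq : 920 * 2 ^ R + 1 ≤ q) (K : Finset V)
    (hK : K.card ≤ R) (cap : V → ℕ) (hcap : ∀ v ∈ K, cap v ≤ 2)
    (h : ∀ F ⊆ K, 50 * edgesIn G F ≤ 50 * ∑ v ∈ F, cap v + F.card)
    (A : V → Finset ℕ) (hA : ∀ v ∈ K, (cap v + 2) * (49 * q) ≤ (A v).card + 1) :
    ∃ C : V → Finset ℕ, (∀ v ∈ K, C v ⊆ A v ∧ (C v).card = 49 * q) ∧
      ∀ u ∈ K, ∀ v ∈ K, G.Adj u v → Disjoint (C u) (C v) := by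
  classical
  obtain ⟨out, hcov, hbad⟩ := hall_orient G K cap h
  obtain ⟨s, hs⟩ := split_types K A 50 (by norm_num)
  let W : Fin 50 → Finset V := fun i => K.filter (fun v => (out i v ∩ K).card ≤ cap v)
  have hWK : ∀ i, W i ⊆ K := fun i => Finset.filter_subset _ _
  have hstep : ∀ i : Fin 50, ∃ C : V → Finset ℕ,
      (∀ v ∈ W i, C v ⊆ (A v).filter (fun c => s c = i) ∧ (C v).card = q) ∧
      ∀ u ∈ W i, ∀ v ∈ W i, G.Adj u v → Disjoint (C u) (C v) := by
    intro i
    refine colour_oriented G h3 κ R q (by omega) (out i) (W i).card (W i) rfl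
      ((Finset.card_le_card (hWK i)).trans hK)
      (fun u hu v hv huv => hcov i u (hWK i hu) v (hWK i hv) huv) ?_ _ ?_
    · intro v hv
      have h1 := (Finset.mem_filter.mp hv).2
      have h2 := Finset.card_le_card (Finset.inter_subset_inter_left (s := out i v) (hWK i))
      have h3 := hcap v (hWK i hv)
      omega
    · intro v hv
      have h1 := (Finset.mem_filter.mp hv).2
      have h2 := Finset.card_le_card (Finset.inter_subset_inter_left (s := out i v) (hWK i))
      have hvK := hWK i hv
      have h3 := hcap v hvK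
      have h4 := hs v hvK i
      have h5 := hA v hvK
      have h6 : 2 ^ K.card ≤ 2 ^ R := Nat.pow_le_pow_right (by norm_num) hK
      have h7 : (10 * (out i v ∩ W i).card + 19) * q ≤ (10 * cap v + 19) * q :=
        Nat.mul_le_mul_right _ (by omega)
      refine h7.trans ?_
      have hc : cap v = 0 ∨ cap v = 1 ∨ cap v = 2 := by omega
      rcases hc with hc | hc | hc <;> rw [hc] at h5 ⊢ <;> omega
  choose C hC using hstep
  let D : V → Finset ℕ := fun v => (univ.filter (fun i => v ∈ W i)).biUnion (fun i => C i v)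
  have hD1 : ∀ v ∈ K, D v ⊆ A v := by
    intro v hv c hc
    simp only [D, Finset.mem_biUnion, Finset.mem_filter, Finset.mem_univ, true_and] at hc
    obtain ⟨i, hi, hc⟩ := hc
    exact (Finset.mem_filter.mp (((hC i).1 v hi).1 hc)).1
  have hD2 : ∀ v ∈ K, 49 * q ≤ (D v).card := by
    intro v hv
    have h1 : (D v).card = ∑ i ∈ univ.filter (fun i => v ∈ W i), (C i v).card := by
      refine Finset.card_biUnion ?_
      intro i hi j hj hij
      rw [Finset.mem_coe, Finset.mem_filter] at hi hj
      change Disjoint _ _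
      rw [Finset.disjoint_left]
      intro c hc hc'
      have e1 := (Finset.mem_filter.mp (((hC i).1 v hi.2).1 hc)).2
      have e2 := (Finset.mem_filter.mp (((hC j).1 v hj.2).1 hc')).2
      exact hij (e1.symm.trans e2)
    have h2 : ∑ i ∈ univ.filter (fun i => v ∈ W i), (C i v).card =
        (univ.filter (fun i => v ∈ W i)).card * q := by
      rw [Finset.sum_const_nat]
      intro i hi
      exact ((hC i).1 v (Finset.mem_filter.mp hi).2).2
    have h3 : 49 ≤ (univ.filter (fun i : Fin 50 => v ∈ W i)).card := by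
      have h4 := hbad v hv
      have h5 := Finset.card_filter_add_card_filter_not (s := (univ : Finset (Fin 50)))
        (fun i => cap v < (out i v ∩ K).card)
      have h6 : (univ.filter (fun i : Fin 50 => ¬ cap v < (out i v ∩ K).card)) =
          univ.filter (fun i : Fin 50 => v ∈ W i) := by
        ext i
        simp only [Finset.mem_filter, Finset.mem_univ, true_and, W, hv, not_lt]
      rw [h6, Finset.card_univ, Fintype.card_fin] at h5
      omega
    rw [h1, h2]
    exact Nat.mul_le_mul_right _ h3
  have hD3 : ∀ u ∈ K, ∀ v ∈ K, G.Adj u v → Disjoint (D u) (D v) := by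
    intro u hu v hv huv
    rw [Finset.disjoint_left]
    intro c hc hc'
    simp only [D, Finset.mem_biUnion, Finset.mem_filter, Finset.mem_univ, true_and] at hc hc'
    obtain ⟨i, hi, hc⟩ := hc
    obtain ⟨j, hj, hc'⟩ := hc'
    have e1 := (Finset.mem_filter.mp (((hC i).1 u hi).1 hc)).2
    have e2 := (Finset.mem_filter.mp (((hC j).1 v hj).1 hc')).2
    have hij : i = j := e1.symm.trans e2
    subst hij
    exact Finset.disjoint_left.mp ((hC i).2 u hi v hj huv) hc hc'
  have hex : ∀ v, ∃ D' : Finset ℕ, v ∈ K → D' ⊆ D v ∧ D'.card = 49 * q := by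
    intro v
    by_cases hv : v ∈ K
    · obtain ⟨D', hD1', hD2'⟩ := Finset.exists_subset_card_eq (hD2 v hv)
      exact ⟨D', fun _ => ⟨hD1', hD2'⟩⟩
    · exact ⟨∅, fun h => absurd h hv⟩
  choose D' hD' using hex
  refine ⟨D', fun v hv => ⟨(hD' v hv).1.trans (hD1 v hv), (hD' v hv).2⟩, ?_⟩
  intro u hu v hv huv
  exact Finset.disjoint_of_subset_left (hD' u hu).1
    (Finset.disjoint_of_subset_right (hD' v hv).1 (hD3 u hu v hv huv))

/-! ### Choice of the piece -/

open Classical in
theorem inc_split {V : Type} (G : SimpleGraph V)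
    (U K F : Finset V) (hKU : K ⊆ U) (hF : F ⊆ K) :
    inc G U (K \ F) + (edgesIn G F + ∑ v ∈ F, ((U \ K).filter (fun u => G.Adj v u)).card)
      ≤ inc G U K := by
  unfold inc edgesIn
  let S1 := U.sym2.filter (fun e => e ∈ G.edgeSet ∧ ∃ x ∈ e, x ∈ K \ F)
  let S2 := F.sym2.filter (fun e => e ∈ G.edgeSet)
  let S3 : Finset (Sym2 V) := (F.sigma (fun v => (U \ K).filter (fun u => G.Adj v u))).image
    (fun p => s(p.1, p.2))
  have hS3 : S3.card = ∑ v ∈ F, ((U \ K).filter (fun u => G.Adj v u)).card := by
    rw [← Finset.card_sigma]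
    refine Finset.card_image_of_injOn ?_
    rintro ⟨a, b⟩ hab ⟨c, d⟩ hcd hh
    simp only [Finset.coe_sigma, Set.mem_sigma_iff, Finset.mem_coe, Finset.mem_filter,
      Finset.mem_sdiff] at hab hcd
    rcases Sym2.eq_iff.mp hh with ⟨h1, h2⟩ | ⟨h1, h2⟩
    · simp only at h1 h2
      subst h1 h2
      rfl
    · simp only at h1 h2
      exact absurd (hF hcd.1) (h2 ▸ hab.2.1.2)
  have h12 : Disjoint S1 S2 := by
    rw [Finset.disjoint_left]
    intro e he he'
    obtain ⟨_, _, x, hx, hxK⟩ := Finset.mem_filter.mp he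
    obtain ⟨h1, _⟩ := Finset.mem_filter.mp he'
    exact (Finset.mem_sdiff.mp hxK).2 (Finset.mem_sym2_iff.mp h1 x hx)
  have h13 : Disjoint (S1 ∪ S2) S3 := by
    rw [Finset.disjoint_left]
    intro e he he'
    obtain ⟨⟨a, b⟩, hab, rfl⟩ := Finset.mem_image.mp he'
    simp only [Finset.mem_sigma, Finset.mem_filter, Finset.mem_sdiff] at hab
    rcases Finset.mem_union.mp he with h | h
    · obtain ⟨_, _, x, hx, hxK⟩ := Finset.mem_filter.mp h
      simp only [Sym2.mem_iff] at hx
      rw [Finset.mem_sdiff] at hxK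
      rcases hx with rfl | rfl
      · exact hxK.2 hab.1
      · exact hab.2.1.2 hxK.1
    · obtain ⟨h1, _⟩ := Finset.mem_filter.mp h
      have := Finset.mem_sym2_iff.mp h1 b (by simp)
      exact hab.2.1.2 (hF this)
  have hsub : (S1 ∪ S2) ∪ S3 ⊆ U.sym2.filter (fun e => e ∈ G.edgeSet ∧ ∃ x ∈ e, x ∈ K) := by
    refine Finset.union_subset (Finset.union_subset ?_ ?_) ?_
    · intro e he
      obtain ⟨h1, h2, x, hx, hxK⟩ := Finset.mem_filter.mp he
      exact Finset.mem_filter.mpr ⟨h1, h2, x, hx, (Finset.mem_sdiff.mp hxK).1⟩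
    · intro e he
      obtain ⟨h1, h2⟩ := Finset.mem_filter.mp he
      refine Finset.mem_filter.mpr ⟨?_, h2, ?_⟩
      · rw [Finset.mem_sym2_iff] at h1 ⊢
        exact fun a ha => hKU (hF (h1 a ha))
      · induction e using Sym2.ind with
        | _ a b => exact ⟨a, by simp, hF (Finset.mem_sym2_iff.mp h1 a (by simp))⟩
    · intro e he
      obtain ⟨⟨a, b⟩, hab, rfl⟩ := Finset.mem_image.mp he
      simp only [Finset.mem_sigma, Finset.mem_filter, Finset.mem_sdiff] at hab
      refine Finset.mem_filter.mpr ⟨?_, ?_, a, by simp, hF hab.1⟩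
      · rw [Finset.mk_mem_sym2_iff]
        exact ⟨hKU (hF hab.1), hab.2.1.1⟩
      · exact hab.2.2
  have := Finset.card_le_card hsub
  rw [Finset.card_union_of_disjoint h13, Finset.card_union_of_disjoint h12, hS3] at this
  simp only [S1, S2] at this
  omega

open Classical in
theorem exists_core {V : Type} (G : SimpleGraph V)
    (U C : Finset V) (hCU : C ⊆ U) (hC : C.Nonempty) (hinc : 50 * inc G U C ≤ 101 * C.card) :
    ∃ K ⊆ C, K.Nonempty ∧ ∀ F ⊆ K, 50 * (edgesIn G F +
      ∑ v ∈ F, ((U \ K).filter (fun u => G.Adj v u)).card) ≤ 101 * F.card := by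
  let P : Finset (Finset V) := C.powerset.filter (fun K => K.Nonempty)
  have hP : P.Nonempty := ⟨C, by simp [P, hC]⟩
  obtain ⟨K, hKP, hmax⟩ := Finset.exists_max_image P
    (fun K => 101 * (K.card : ℤ) - 50 * (inc G U K : ℤ)) hP
  have hK := Finset.mem_filter.mp hKP
  have hKC : K ⊆ C := Finset.mem_powerset.mp hK.1
  refine ⟨K, hKC, hK.2, fun F hF => ?_⟩
  have hsplit := inc_split G U K F (hKC.trans hCU) hF
  have hcard : (K \ F).card + F.card = K.card := Finset.card_sdiff_add_card_eq_card hF
  have hKval := hmax C (by simp [P, hC])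
  by_cases hne : (K \ F).Nonempty
  · have h1 := hmax (K \ F) (by
      refine Finset.mem_filter.mpr ⟨Finset.mem_powerset.mpr (Finset.sdiff_subset.trans hKC), hne⟩)
    omega
  · have h1 : (K \ F).card = 0 := by
      rw [Finset.card_eq_zero]
      exact Finset.not_nonempty_iff_eq_empty.mp hne
    omega

theorem list_main (R : ℕ) : ∃ m : ℕ, 0 < m ∧ ∀ (V : Type) [Fintype V] (G : SimpleGraph V),
    G.CliqueFree 3 → G.Colorable 3 →
    (∀ U : Finset V, U.Nonempty →
      ∃ C ⊆ U, C.Nonempty ∧ C.card ≤ R ∧ 50 * inc G U C ≤ 101 * C.card) →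
    ∀ L : V → Finset ℕ, (∀ v, (L v).card = 4 * m - 1) →
      ∃ f : V → Finset ℕ, (∀ v, f v ⊆ L v ∧ (f v).card = m) ∧
        ∀ u v, G.Adj u v → Disjoint (f u) (f v) := by
  classical
  let q := 920 * 2 ^ R + 1
  refine ⟨49 * q, by positivity, ?_⟩
  intro V _ G h3 hcol hpiece L hL
  obtain ⟨κ⟩ := hcol
  have main : ∀ (n : ℕ) (U : Finset V), U.card = n →
      ∃ f : V → Finset ℕ, (∀ v ∈ U, f v ⊆ L v ∧ (f v).card = 49 * q) ∧
        ∀ u ∈ U, ∀ v ∈ U, G.Adj u v → Disjoint (f u) (f v) := by
    intro n
    induction n using Nat.strong_induction_on with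
    | _ n ih =>
    intro U hU
    rcases U.eq_empty_or_nonempty with rfl | hne
    · exact ⟨fun _ => ∅, by simp, by simp⟩
    obtain ⟨C, hCU, hC, hCR, hinc⟩ := hpiece U hne
    obtain ⟨K, hKC, hK, hcore⟩ := exists_core G U C hCU hC hinc
    have hKU : K ⊆ U := hKC.trans hCU
    have hlt : (U \ K).card < n := by
      rw [← hU]
      refine Finset.card_lt_card ⟨Finset.sdiff_subset, fun h => ?_⟩
      obtain ⟨x, hx⟩ := hK
      exact (Finset.mem_sdiff.mp (h (hKU hx))).2 hx
    obtain ⟨f0, hf0, hf0'⟩ := ih _ hlt (U \ K) rfl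
    let d : V → ℕ := fun v => ((U \ K).filter (fun u => G.Adj v u)).card
    have hd : ∀ v ∈ K, d v ≤ 2 := by
      intro v hv
      have := hcore {v} (Finset.singleton_subset_iff.mpr hv)
      simp only [Finset.sum_singleton, Finset.card_singleton] at this
      simp only [d]
      omega
    let cap : V → ℕ := fun v => 2 - d v
    have hcapsum : ∀ F ⊆ K, ∑ v ∈ F, cap v + ∑ v ∈ F, d v = 2 * F.card := by
      intro F hF
      rw [← Finset.sum_add_distrib, Finset.sum_const_nat (m := 2)]
      · ring
      · intro v hv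
        have := hd v (hF hv)
        simp only [cap]
        omega
    let A : V → Finset ℕ := fun v =>
      L v \ ((U \ K).filter (fun u => G.Adj v u)).biUnion f0
    have hA : ∀ v ∈ K, (cap v + 2) * (49 * q) ≤ (A v).card + 1 := by
      intro v hv
      have h1 : (((U \ K).filter (fun u => G.Adj v u)).biUnion f0).card ≤ d v * (49 * q) := by
        refine Finset.card_biUnion_le.trans ?_
        rw [Finset.sum_const_nat (m := 49 * q)]
        intro u hu
        exact (hf0 u (Finset.mem_filter.mp hu).1).2
      have h2 := Finset.le_card_sdiff (((U \ K).filter (fun u => G.Adj v u)).biUnion f0) (L v)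
      have h3 := hL v
      have h4 := hd v hv
      simp only [cap, A]
      have hc : d v = 0 ∨ d v = 1 ∨ d v = 2 := by omega
      rcases hc with hc | hc | hc <;> rw [hc] at h1 ⊢ <;> omega
    obtain ⟨f1, hf1, hf1'⟩ := colour_piece G h3 κ R q le_rfl K
      ((Finset.card_le_card hKC).trans hCR) cap (fun v _ => Nat.sub_le _ _) (by
        intro F hF
        have h1 := hcore F hF
        have h2 := hcapsum F hF
        simp only [d] at h2
        omega) A hA
    refine ⟨fun v => if v ∈ K then f1 v else f0 v, ?_, ?_⟩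
    · intro v hv
      by_cases hvK : v ∈ K
      · simp only [hvK, if_true]
        exact ⟨(hf1 v hvK).1.trans Finset.sdiff_subset, (hf1 v hvK).2⟩
      · simp only [hvK, if_false]
        exact hf0 v (Finset.mem_sdiff.mpr ⟨hv, hvK⟩)
    · have key : ∀ u ∈ K, ∀ v ∈ U \ K, G.Adj u v → Disjoint (f1 u) (f0 v) := by
        intro u hu v hv huv
        refine Finset.disjoint_of_subset_left (hf1 u hu).1 ?_
        refine Finset.disjoint_of_subset_right ?_ Finset.sdiff_disjoint
        intro c hc
        exact Finset.mem_biUnion.mpr ⟨v, Finset.mem_filter.mpr ⟨hv, huv⟩, hc⟩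
      intro u hu v hv huv
      by_cases huK : u ∈ K
      · by_cases hvK : v ∈ K
        · simp only [huK, hvK, if_true]
          exact hf1' u huK v hvK huv
        · simp only [huK, hvK, if_true, if_false]
          exact key u huK v (Finset.mem_sdiff.mpr ⟨hv, hvK⟩) huv
      · by_cases hvK : v ∈ K
        · simp only [huK, hvK, if_true, if_false]
          exact (key v hvK u (Finset.mem_sdiff.mpr ⟨hu, huK⟩) huv.symm).symm
        · simp only [huK, hvK, if_false]
          exact hf0' u (Finset.mem_sdiff.mpr ⟨hu, huK⟩) v (Finset.mem_sdiff.mpr ⟨hv, hvK⟩) huv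
  obtain ⟨f, hf1, hf2⟩ := main _ univ rfl
  exact ⟨f, fun v => hf1 v (Finset.mem_univ v),
    fun u v huv => hf2 u (Finset.mem_univ u) v (Finset.mem_univ v) huv⟩

end Pool.Agent.TFP
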