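import Pool.Agent.Lib.TFP.TreeCut

/-!
Module E2. Separators for `K₅`-minor-free graphs (Alon-Seymour-Thomas).
-/

set_option autoImplicit false

namespace Pool.Agent.TFP

open Finset

/-- the state of the separator argument -/
structure SepState {V : Type} [DecidableEq V] (G : SimpleGraph V) (U : Finset V) (r : ℕ)
    (I : Finset (Fin 4)) (C X : Fin 4 → Finset V) (D : Finset V) : Prop where
  hCU : ∀ i ∈ I, C i ⊆ U
  hCc : ∀ i ∈ I, (G.induce (C i : Set V)).Connected
  hCd : ∀ i ∈ I, ∀ j ∈ I, i ≠ j → Disjoint (C i) (C j)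
  hCa : ∀ i ∈ I, ∀ j ∈ I, i ≠ j → ∃ a ∈ C i, ∃ b ∈ C j, G.Adj a b
  hX : ∀ i ∈ I, X i ⊆ C i ∧ (X i).card ≤ r
  hDU : D ⊆ U
  hDc : (G.induce (D : Set V)).Connected
  hDbig : U.card < 2 * D.card
  hDC : ∀ i ∈ I, Disjoint (C i) D
  hN : ∀ d ∈ D, ∀ y ∈ U, y ∉ D → G.Adj d y → ∃ i ∈ I, y ∈ X i

theorem big_component {V : Type} [DecidableEq V] (G : SimpleGraph V) (U : Finset V) (r : ℕ)
    (hbad : ∀ X ⊆ U, X.card ≤ 4 * r →
      ∃ D ⊆ U \ X, (G.induce (D : Set V)).Connected ∧ U.card < 2 * D.card)
    (X : Finset V) (hXU : X ⊆ U) (hX : X.card ≤ 4 * r) :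
    ∃ D ⊆ U \ X, (G.induce (D : Set V)).Connected ∧ U.card < 2 * D.card ∧
      ∀ d ∈ D, ∀ y ∈ U \ X, G.Adj d y → y ∈ D := by
  classical
  obtain ⟨D0, hD0, hD0c, hD0b⟩ := hbad X hXU hX
  obtain ⟨D, hD, hmax⟩ := Finset.exists_max_image
    ((U \ X).powerset.filter (fun D : Finset V => (G.induce (D : Set V)).Connected)) Finset.card
    ⟨D0, Finset.mem_filter.mpr ⟨Finset.mem_powerset.mpr hD0, hD0c⟩⟩
  obtain ⟨hDs, hDc⟩ := Finset.mem_filter.mp hD
  rw [Finset.mem_powerset] at hDs
  have h1 := hmax D0 (Finset.mem_filter.mpr ⟨Finset.mem_powerset.mpr hD0, hD0c⟩)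
  refine ⟨D, hDs, hDc, by omega, ?_⟩
  intro d hd y hy hadj
  by_contra hyD
  have h2 := hmax (insert y D) (Finset.mem_filter.mpr
    ⟨Finset.mem_powerset.mpr (Finset.insert_subset hy hDs), by
      rw [Finset.coe_insert]
      exact conn_insert hDc (Finset.mem_coe.mpr hd) hadj⟩)
  rw [Finset.card_insert_of_notMem hyD] at h2
  omega

theorem SepState.inside {V : Type} [DecidableEq V] {G : SimpleGraph V} {U : Finset V} {r : ℕ}
    {I : Finset (Fin 4)} {C X : Fin 4 → Finset V} {D : Finset V} (S : SepState G U r I C X D)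
    {X' D' : Finset V} (hX' : ∀ i ∈ I, X i ⊆ X') (hD' : D' ⊆ U \ X')
    (hD'c : (G.induce (D' : Set V)).Connected) (hD'b : U.card < 2 * D'.card) : D' ⊆ D := by
  -- D and D' meet
  have hmeet : ∃ x, x ∈ D' ∧ x ∈ D := by
    by_contra hcon
    push Not at hcon
    have hd : Disjoint D' D := Finset.disjoint_left.mpr hcon
    have h1 : (D' ∪ D).card ≤ U.card :=
      Finset.card_le_card (Finset.union_subset (hD'.trans Finset.sdiff_subset) S.hDU)
    rw [Finset.card_union_of_disjoint hd] at h1
    have := S.hDbig
    omega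
  obtain ⟨x, hx, hxD⟩ := hmeet
  have := conn_induct hD'c (fun v => v ∈ D) hx hxD (by
    intro u hu v hv huv huD
    by_contra hvD
    have hvU := Finset.mem_sdiff.mp (hD' hv)
    obtain ⟨i, hi, hvi⟩ := S.hN u huD v hvU.1 hvD huv
    exact hvU.2 (hX' i hi hvi))
  exact fun v hv => this v hv

theorem no_state {V : Type} [DecidableEq V] (G : SimpleGraph V)
    (h5 : ¬ HasK5Minor G) (U : Finset V) (r : ℕ) (hr : 2 * U.card ≤ r * r)
    (hbad : ∀ X ⊆ U, X.card ≤ 4 * r →
      ∃ D ⊆ U \ X, (G.induce (D : Set V)).Connected ∧ U.card < 2 * D.card) :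
    ∀ (n : ℕ) (I : Finset (Fin 4)) (C X : Fin 4 → Finset V) (D : Finset V),
      5 * D.card + I.card = n → ¬ SepState G U r I C X D := by
  classical
  intro n
  induction n using Nat.strong_induction_on with
  | _ n ih =>
  intro I C X D hn S
  have hDne : D.Nonempty := by
    obtain ⟨x, hx⟩ := conn_nonempty S.hDc
    exact ⟨x, hx⟩
  have hUne : 0 < U.card := Finset.card_pos.mpr (hDne.mono S.hDU)
  have hr0 : 0 < r := by
    rcases Nat.eq_zero_or_pos r with h | h
    · subst h; omega
    · exact h
  by_cases hadj : ∀ i ∈ I, ∃ c ∈ C i, ∃ d ∈ D, G.Adj c d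
  swap
  · -- drop a branch set
    push Not at hadj
    obtain ⟨i, hi, hno⟩ := hadj
    refine ih (5 * D.card + (I.erase i).card) ?_ (I.erase i) C X D rfl ?_
    · rw [← hn]
      have := Finset.card_erase_lt_of_mem hi
      omega
    · have hsub : ∀ j ∈ I.erase i, j ∈ I := fun j hj => Finset.mem_of_mem_erase hj
      refine ⟨fun j hj => S.hCU j (hsub j hj), fun j hj => S.hCc j (hsub j hj),
        fun j hj k hk => S.hCd j (hsub j hj) k (hsub k hk),
        fun j hj k hk => S.hCa j (hsub j hj) k (hsub k hk),
        fun j hj => S.hX j (hsub j hj), S.hDU, S.hDc, S.hDbig,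
        fun j hj => S.hDC j (hsub j hj), ?_⟩
      intro d hd y hy hyD hdy
      obtain ⟨j, hj, hyj⟩ := S.hN d hd y hy hyD hdy
      refine ⟨j, Finset.mem_erase.mpr ⟨?_, hj⟩, hyj⟩
      rintro rfl
      exact hno y ((S.hX j hj).1 hyj) d hd hdy.symm
  by_cases hI : I = univ
  · -- K5 minor
    apply h5
    refine ⟨Fin.cons (D : Set V) (fun i => (C i : Set V)), ?_, ?_, ?_⟩
    · intro i
      refine Fin.cases ?_ (fun j => ?_) i
      · exact S.hDc
      · exact S.hCc j (by rw [hI]; exact Finset.mem_univ _)
    · intro i j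
      refine Fin.cases ?_ (fun i' => ?_) i
      · refine Fin.cases ?_ (fun j' => ?_) j
        · intro h; exact absurd rfl h
        · intro _
          simp only [Fin.cons_zero, Fin.cons_succ]
          exact Finset.disjoint_coe.mpr (S.hDC j' (by rw [hI]; exact Finset.mem_univ _)).symm
      · refine Fin.cases ?_ (fun j' => ?_) j
        · intro _
          simp only [Fin.cons_zero, Fin.cons_succ]
          exact Finset.disjoint_coe.mpr (S.hDC i' (by rw [hI]; exact Finset.mem_univ _))
        · intro h
          simp only [Fin.cons_succ]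
          exact Finset.disjoint_coe.mpr (S.hCd i' (by rw [hI]; exact Finset.mem_univ _) j'
            (by rw [hI]; exact Finset.mem_univ _) (fun h' => h (by rw [h'])))
    · intro i j
      refine Fin.cases ?_ (fun i' => ?_) i
      · refine Fin.cases ?_ (fun j' => ?_) j
        · intro h; exact absurd rfl h
        · intro _
          obtain ⟨c, hc, d, hd, hcd⟩ := hadj j' (by rw [hI]; exact Finset.mem_univ _)
          exact ⟨d, hd, c, hc, hcd.symm⟩
      · refine Fin.cases ?_ (fun j' => ?_) j
        · intro _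
          obtain ⟨c, hc, d, hd, hcd⟩ := hadj i' (by rw [hI]; exact Finset.mem_univ _)
          exact ⟨c, hc, d, hd, hcd⟩
        · intro h
          obtain ⟨a, ha, b, hb, hab⟩ := S.hCa i' (by rw [hI]; exact Finset.mem_univ _) j'
            (by rw [hI]; exact Finset.mem_univ _) (fun h' => h (by rw [h']))
          exact ⟨a, ha, b, hb, hab⟩
  -- a free index
  obtain ⟨j0, hj0⟩ : ∃ j0, j0 ∉ I := by
    by_contra hcon
    push Not at hcon
    exact hI (Finset.eq_univ_of_forall hcon)
  have hIcard : I.card ≤ 3 := by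
    have h1 : I.card < (univ : Finset (Fin 4)).card :=
      Finset.card_lt_card ((Finset.ssubset_univ_iff).mpr hI)
    simp at h1
    omega
  let A : Fin 4 → Finset V := fun i => D.filter (fun d => ∃ c ∈ C i, G.Adj c d)
  let A' : Fin 3 → Finset V := fun t => if j0.succAbove t ∈ I then A (j0.succAbove t) else D
  have hA'D : ∀ t, A' t ⊆ D := by
    intro t
    simp only [A']
    split_ifs
    · exact Finset.filter_subset _ _
    · exact Finset.Subset.refl _
  have hAne : ∀ i ∈ I, (A i).Nonempty := by
    intro i hi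
    obtain ⟨c, hc, d, hd, hcd⟩ := hadj i hi
    exact ⟨d, Finset.mem_filter.mpr ⟨hd, c, hc, hcd⟩⟩
  have hA'ne : ∀ t, (A' t).Nonempty := by
    intro t
    simp only [A']
    split_ifs with h
    · exact hAne _ h
    · exact hDne
  have hbiU : I.biUnion X ⊆ U :=
    Finset.biUnion_subset.mpr (fun i hi => (S.hX i hi).1.trans (S.hCU i hi))
  have hbic : (I.biUnion X).card ≤ 3 * r := by
    refine Finset.card_biUnion_le.trans ?_
    calc ∑ i ∈ I, (X i).card ≤ ∑ i ∈ I, r := Finset.sum_le_sum (fun i hi => (S.hX i hi).2)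
      _ = I.card * r := by rw [Finset.sum_const, smul_eq_mul]
      _ ≤ 3 * r := Nat.mul_le_mul_right _ hIcard
  rcases tree_or_cut G D A' hA'D hA'ne r hr0 with ⟨T, hTD, hTc, hTr, hTm⟩ | ⟨Z, hZD, hZr, hZ⟩
  · -- new branch set T
    have hTmeet : ∀ i ∈ I, ∃ t ∈ T, ∃ c ∈ C i, G.Adj c t := by
      intro i hi
      obtain ⟨t, ht⟩ := Fin.exists_succAbove_eq (x := i) (y := j0)
        (fun h => hj0 (h ▸ hi))
      obtain ⟨x, hx⟩ := hTm t
      rw [Finset.mem_inter] at hx
      have hx2 : x ∈ A i := by
        have := hx.2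
        simp only [A', ht, hi, if_true] at this
        exact this
      obtain ⟨_, c, hc, hcx⟩ := Finset.mem_filter.mp hx2
      exact ⟨x, hx.1, c, hc, hcx⟩
    obtain ⟨D', hD'sub, hD'c, hD'b, hD'cl⟩ := big_component G U r hbad (I.biUnion X ∪ T)
      (Finset.union_subset hbiU (hTD.trans S.hDU)) (by
        refine (Finset.card_union_le _ _).trans ?_
        omega)
    have hD'D : D' ⊆ D := S.inside (X' := I.biUnion X ∪ T)
      (fun i hi => (Finset.subset_biUnion_of_mem X hi).trans Finset.subset_union_left)
      hD'sub hD'c hD'b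
    have hTD' : Disjoint T D' := by
      rw [Finset.disjoint_right]
      intro x hx hxT
      exact (Finset.mem_sdiff.mp (hD'sub hx)).2 (Finset.mem_union_right _ hxT)
    have hcardlt : D'.card < D.card := by
      refine Finset.card_lt_card ⟨hD'D, fun h => ?_⟩
      obtain ⟨x, hx⟩ := conn_nonempty hTc
      exact Finset.disjoint_left.mp hTD' hx (h (hTD hx))
    have hne : ∀ i ∈ I, i ≠ j0 := fun i hi h => hj0 (h ▸ hi)
    refine ih (5 * D'.card + (insert j0 I).card) ?_ (insert j0 I) (Function.update C j0 T)
      (Function.update X j0 T) D' rfl ?_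
    · rw [Finset.card_insert_of_notMem hj0]
      omega
    · refine ⟨?_, ?_, ?_, ?_, ?_, hD'D.trans S.hDU, hD'c, hD'b, ?_, ?_⟩
      · intro i hi
        rcases Finset.mem_insert.mp hi with rfl | hi
        · rw [Function.update_self]; exact hTD.trans S.hDU
        · rw [Function.update_of_ne (hne i hi)]; exact S.hCU i hi
      · intro i hi
        rcases Finset.mem_insert.mp hi with rfl | hi
        · rw [Function.update_self]; exact hTc
        · rw [Function.update_of_ne (hne i hi)]; exact S.hCc i hi
      · intro i hi j hj hij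
        rcases Finset.mem_insert.mp hi with rfl | hi
        · rcases Finset.mem_insert.mp hj with rfl | hj
          · exact absurd rfl hij
          · rw [Function.update_self, Function.update_of_ne (hne j hj)]
            exact (Finset.disjoint_of_subset_right hTD (S.hDC j hj)).symm
        · rcases Finset.mem_insert.mp hj with hjj | hj
          · rw [hjj, Function.update_self, Function.update_of_ne (hne i hi)]
            exact Finset.disjoint_of_subset_right hTD (S.hDC i hi)
          · rw [Function.update_of_ne (hne i hi), Function.update_of_ne (hne j hj)]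
            exact S.hCd i hi j hj hij
      · intro i hi j hj hij
        rcases Finset.mem_insert.mp hi with rfl | hi
        · rcases Finset.mem_insert.mp hj with rfl | hj
          · exact absurd rfl hij
          · rw [Function.update_self, Function.update_of_ne (hne j hj)]
            obtain ⟨t, ht, c, hc, hct⟩ := hTmeet j hj
            exact ⟨t, ht, c, hc, hct.symm⟩
        · rcases Finset.mem_insert.mp hj with hjj | hj
          · rw [hjj, Function.update_self, Function.update_of_ne (hne i hi)]
            obtain ⟨t, ht, c, hc, hct⟩ := hTmeet i hi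
            exact ⟨c, hc, t, ht, hct⟩
          · rw [Function.update_of_ne (hne i hi), Function.update_of_ne (hne j hj)]
            exact S.hCa i hi j hj hij
      · intro i hi
        rcases Finset.mem_insert.mp hi with rfl | hi
        · rw [Function.update_self, Function.update_self]
          exact ⟨Finset.Subset.refl _, hTr⟩
        · rw [Function.update_of_ne (hne i hi), Function.update_of_ne (hne i hi)]
          exact S.hX i hi
      · intro i hi
        rcases Finset.mem_insert.mp hi with rfl | hi
        · rw [Function.update_self]; exact hTD'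
        · rw [Function.update_of_ne (hne i hi)]
          exact Finset.disjoint_of_subset_right hD'D (S.hDC i hi)
      · intro d hd y hy hyD hdy
        by_cases hyX : y ∈ I.biUnion X ∪ T
        · rcases Finset.mem_union.mp hyX with h | h
          · obtain ⟨i, hi, hyi⟩ := Finset.mem_biUnion.mp h
            exact ⟨i, Finset.mem_insert_of_mem hi, by
              rw [Function.update_of_ne (hne i hi)]; exact hyi⟩
          · exact ⟨j0, Finset.mem_insert_self _ _, by rw [Function.update_self]; exact h⟩
        · exact absurd (hD'cl d hd y (Finset.mem_sdiff.mpr ⟨hy, hyX⟩) hdy) hyD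
  · -- a cut Z
    have hZcard : Z.card ≤ r := by
      have h1 : r * Z.card ≤ r * r := by
        have := Finset.card_le_card S.hDU
        omega
      exact Nat.le_of_mul_le_mul_left h1 hr0
    obtain ⟨D0, hD0sub, hD0c, hD0b, hD0cl⟩ := big_component G U r hbad (I.biUnion X ∪ Z)
      (Finset.union_subset hbiU (hZD.trans S.hDU)) (by
        refine (Finset.card_union_le _ _).trans ?_
        omega)
    have hD0D : D0 ⊆ D := S.inside (X' := I.biUnion X ∪ Z)
      (fun i hi => (Finset.subset_biUnion_of_mem X hi).trans Finset.subset_union_left)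
      hD0sub hD0c hD0b
    have hD0Z : D0 ⊆ D \ Z := by
      intro x hx
      refine Finset.mem_sdiff.mpr ⟨hD0D hx, fun h => ?_⟩
      exact (Finset.mem_sdiff.mp (hD0sub hx)).2 (Finset.mem_union_right _ h)
    obtain ⟨a0, ha0⟩ := conn_nonempty hD0c
    obtain ⟨i0, hi0, hdis⟩ : ∃ i0 ∈ I, Disjoint D0 (A i0) := by
      obtain ⟨t, ht⟩ := hZ D0 hD0Z hD0c
      by_cases hmem : j0.succAbove t ∈ I
      · refine ⟨_, hmem, ?_⟩
        simpa only [A', hmem, if_true] using ht
      · exfalso
        simp only [A', hmem, if_false] at ht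
        exact Finset.disjoint_left.mp ht ha0 (hD0D ha0)
    let Q : Finset V := (D \ D0).filter (fun q => ∃ S' : Finset V, S' ⊆ D \ D0 ∧
      (G.induce (S' : Set V)).Connected ∧ q ∈ S' ∧ ∃ a ∈ S', a ∈ A i0)
    have hQD : Q ⊆ D \ D0 := Finset.filter_subset _ _
    have hAQ : A i0 ⊆ Q := by
      intro a ha
      have haD : a ∈ D := (Finset.mem_filter.mp ha).1
      have haD0 : a ∉ D0 := fun h => Finset.disjoint_left.mp hdis h ha
      refine Finset.mem_filter.mpr ⟨Finset.mem_sdiff.mpr ⟨haD, haD0⟩, {a}, ?_, ?_, ?_, a, ?_, ha⟩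
      · exact Finset.singleton_subset_iff.mpr (Finset.mem_sdiff.mpr ⟨haD, haD0⟩)
      · rw [Finset.coe_singleton]; exact conn_singleton a
      · exact Finset.mem_singleton_self a
      · exact Finset.mem_singleton_self a
    have hQcl : ∀ x ∈ Q, ∀ y ∈ D \ D0, G.Adj x y → y ∈ Q := by
      intro x hx y hy hxy
      obtain ⟨_, S', hS'1, hS'2, hS'3, a, ha1, ha2⟩ := Finset.mem_filter.mp hx
      refine Finset.mem_filter.mpr ⟨hy, insert y S', Finset.insert_subset hy hS'1, ?_,
        Finset.mem_insert_self _ _, a, Finset.mem_insert_of_mem ha1, ha2⟩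
      rw [Finset.coe_insert]
      exact conn_insert hS'2 (Finset.mem_coe.mpr hS'3) hxy
    have hQne : Q.Nonempty := (hAne i0 hi0).mono hAQ
    have hD0Q : D0 ⊆ D \ Q := by
      intro x hx
      refine Finset.mem_sdiff.mpr ⟨hD0D hx, fun h => ?_⟩
      exact (Finset.mem_sdiff.mp (hQD h)).2 hx
    have hD'D : D \ Q ⊆ D := Finset.sdiff_subset
    -- D' = D \ Q is connected
    have hD'c : (G.induce ((D \ Q : Finset V) : Set V)).Connected := by
      refine conn_of_induct (a := a0) (Finset.mem_coe.mpr (hD0Q ha0)) ?_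
      intro p hp hstep
      have hpD0 : ∀ v ∈ (D0 : Set V), p v := conn_induct hD0c p ha0 hp (by
        intro u hu v hv huv hpu
        exact hstep u (hD0Q hu) v (hD0Q hv) huv hpu)
      have hall := conn_induct S.hDc (fun v => v ∈ Q ∨ p v) (a := a0) (hD0D ha0) (Or.inr hp) (by
        intro u hu v hv huv hpu
        by_cases hvQ : v ∈ Q
        · exact Or.inl hvQ
        · right
          have hv' : v ∈ D \ Q := Finset.mem_sdiff.mpr ⟨hv, hvQ⟩
          by_cases huQ : u ∈ Q
          · by_cases hvD0 : v ∈ D0
            · exact hpD0 v hvD0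
            · exact absurd (hQcl u huQ v (Finset.mem_sdiff.mpr ⟨hv, hvD0⟩) huv) hvQ
          · have hu' : u ∈ D \ Q := Finset.mem_sdiff.mpr ⟨hu, huQ⟩
            rcases hpu with h | h
            · exact absurd h huQ
            · exact hstep u hu' v hv' huv h)
      intro v hv
      have hv' := Finset.mem_sdiff.mp (Finset.mem_coe.mp hv)
      rcases hall v hv'.1 with h | h
      · exact absurd h hv'.2
      · exact h
    have hCc' : (G.induce ((C i0 ∪ Q : Finset V) : Set V)).Connected := by
      obtain ⟨c0, hc0⟩ := conn_nonempty (S.hCc i0 hi0)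
      refine conn_of_induct (a := c0) (Finset.mem_coe.mpr (Finset.mem_union_left _ hc0)) ?_
      intro p hp hstep
      have hpC : ∀ v ∈ (C i0 : Set V), p v := conn_induct (S.hCc i0 hi0) p hc0 hp (by
        intro u hu v hv huv hpu
        exact hstep u (Finset.mem_union_left _ hu) v (Finset.mem_union_left _ hv) huv hpu)
      intro v hv
      rcases Finset.mem_union.mp (Finset.mem_coe.mp hv) with h | h
      · exact hpC v h
      · obtain ⟨_, S', hS'1, hS'2, hS'3, a, ha1, ha2⟩ := Finset.mem_filter.mp h
        have hS'Q : ∀ x ∈ S', x ∈ Q := fun x hx =>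
          Finset.mem_filter.mpr ⟨hS'1 hx, S', hS'1, hS'2, hx, a, ha1, ha2⟩
        obtain ⟨_, c, hc, hca⟩ := Finset.mem_filter.mp ha2
        have hpa : p a := hstep c (Finset.mem_union_left _ hc) a
          (Finset.mem_union_right _ (hS'Q a ha1)) hca (hpC c hc)
        exact conn_induct hS'2 p (Finset.mem_coe.mpr ha1) hpa (by
          intro u hu v hv huv hpu
          exact hstep u (Finset.mem_union_right _ (hS'Q u hu)) v
            (Finset.mem_union_right _ (hS'Q v hv)) huv hpu) v hS'3
    have hcardlt : (D \ Q).card < D.card := by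
      refine Finset.card_lt_card ⟨hD'D, fun h => ?_⟩
      obtain ⟨x, hx⟩ := hQne
      exact (Finset.mem_sdiff.mp (h (Finset.mem_sdiff.mp (hQD hx)).1)).2 hx
    have hD'b : U.card < 2 * (D \ Q).card := by
      have := Finset.card_le_card hD0Q
      omega
    have hQU : Q ⊆ U := (hQD.trans Finset.sdiff_subset).trans S.hDU
    refine ih (5 * (D \ Q).card + I.card) (by omega) I (Function.update C i0 (C i0 ∪ Q))
      (Function.update X i0 (Z ∩ Q)) (D \ Q) rfl ?_
    refine ⟨?_, ?_, ?_, ?_, ?_, hD'D.trans S.hDU, hD'c, hD'b, ?_, ?_⟩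
    · intro i hi
      by_cases h : i = i0
      · subst h; rw [Function.update_self]; exact Finset.union_subset (S.hCU i hi) hQU
      · rw [Function.update_of_ne h]; exact S.hCU i hi
    · intro i hi
      by_cases h : i = i0
      · subst h; rw [Function.update_self]; exact hCc'
      · rw [Function.update_of_ne h]; exact S.hCc i hi
    · have hQC : ∀ j ∈ I, Disjoint (C j) Q := fun j hj =>
        Finset.disjoint_of_subset_right (hQD.trans Finset.sdiff_subset) (S.hDC j hj)
      intro i hi j hj hij
      by_cases h : i = i0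
      · subst h
        rw [Function.update_self, Function.update_of_ne hij.symm]
        exact Finset.disjoint_union_left.mpr ⟨S.hCd i hi j hj hij, (hQC j hj).symm⟩
      · by_cases h' : j = i0
        · subst h'
          rw [Function.update_self, Function.update_of_ne h]
          exact Finset.disjoint_union_right.mpr ⟨S.hCd i hi j hj hij, hQC i hi⟩
        · rw [Function.update_of_ne h, Function.update_of_ne h']
          exact S.hCd i hi j hj hij
    · intro i hi j hj hij
      obtain ⟨a, ha, b, hb, hab⟩ := S.hCa i hi j hj hij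
      refine ⟨a, ?_, b, ?_, hab⟩
      · by_cases h : i = i0
        · subst h; rw [Function.update_self]; exact Finset.mem_union_left _ ha
        · rw [Function.update_of_ne h]; exact ha
      · by_cases h : j = i0
        · subst h; rw [Function.update_self]; exact Finset.mem_union_left _ hb
        · rw [Function.update_of_ne h]; exact hb
    · intro i hi
      by_cases h : i = i0
      · subst h
        rw [Function.update_self, Function.update_self]
        exact ⟨Finset.inter_subset_right.trans Finset.subset_union_right,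
          (Finset.card_le_card Finset.inter_subset_left).trans hZcard⟩
      · rw [Function.update_of_ne h, Function.update_of_ne h]; exact S.hX i hi
    · intro i hi
      have h1 : Disjoint (C i) (D \ Q) := Finset.disjoint_of_subset_right hD'D (S.hDC i hi)
      by_cases h : i = i0
      · subst h
        rw [Function.update_self]
        exact Finset.disjoint_union_left.mpr ⟨h1, Finset.disjoint_sdiff⟩
      · rw [Function.update_of_ne h]; exact h1
    · intro d hd y hy hyD hdy
      have hdD := Finset.mem_sdiff.mp hd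
      by_cases hyD2 : y ∈ D
      · -- y ∈ Q
        have hyQ : y ∈ Q := by
          by_contra h
          exact hyD (Finset.mem_sdiff.mpr ⟨hyD2, h⟩)
        have hdD0 : d ∈ D0 := by
          by_contra h
          exact hdD.2 (hQcl y hyQ d (Finset.mem_sdiff.mpr ⟨hdD.1, h⟩) hdy.symm)
        have hyD0 : y ∉ D0 := (Finset.mem_sdiff.mp (hQD hyQ)).2
        have hyX : y ∈ I.biUnion X ∪ Z := by
          by_contra h
          exact hyD0 (hD0cl d hdD0 y (Finset.mem_sdiff.mpr ⟨hy, h⟩) hdy)
        have hyZ : y ∈ Z := by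
          rcases Finset.mem_union.mp hyX with h | h
          · obtain ⟨i, hi, hyi⟩ := Finset.mem_biUnion.mp h
            exact absurd hyD2 (Finset.disjoint_left.mp (S.hDC i hi) ((S.hX i hi).1 hyi))
          · exact h
        exact ⟨i0, hi0, by
          rw [Function.update_self]; exact Finset.mem_inter.mpr ⟨hyZ, hyQ⟩⟩
      · obtain ⟨i, hi, hyi⟩ := S.hN d hdD.1 y hy hyD2 hdy
        have hii0 : i ≠ i0 := by
          rintro rfl
          apply hdD.2
          apply hAQ
          exact Finset.mem_filter.mpr ⟨hdD.1, y, (S.hX i hi).1 hyi, hdy.symm⟩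
        exact ⟨i, hi, by rw [Function.update_of_ne hii0]; exact hyi⟩

theorem separator {V : Type} [Fintype V] [DecidableEq V] (G : SimpleGraph V)
    (h5 : ¬ HasK5Minor G) (U : Finset V) (r : ℕ) (hr : 2 * U.card ≤ r * r) :
    ∃ X ⊆ U, X.card ≤ 4 * r ∧
      ∀ D ⊆ U \ X, (G.induce (D : Set V)).Connected → 2 * D.card ≤ U.card := by
  by_contra hcon
  push Not at hcon
  obtain ⟨D, hD, hDc, hDb, hDcl⟩ := big_component G U r hcon ∅ (Finset.empty_subset _) (by simp)
  rw [Finset.sdiff_empty] at hD
  refine no_state G h5 U r hr hcon _ ∅ (fun _ => ∅) (fun _ => ∅) D rfl ?_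
  refine ⟨by simp, by simp, by simp, by simp, by simp, hD, hDc, hDb, by simp, ?_⟩
  intro d hd y hy hyD hdy
  rw [Finset.sdiff_empty] at hDcl
  exact absurd (hDcl d hd y hy hdy) hyD

end Pool.Agent.TFP
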