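import Pool.Agent.Lib.TFP.TriBox
import Pool.Agent.Lib.TFP.Conn

/-!
Module D1. A graph drawn in the plane with arcs is a minor of a finite box of the triangular
lattice.
-/

set_option autoImplicit false

namespace Pool.Agent.TFP

open Finset

/-! ### Branch sets -/

/-- Pairwise disjoint connected branch sets give a minor. -/
theorem isMinorOf_of_branchSets {V ι : Type} {G : SimpleGraph V} {L : SimpleGraph ι}
    (B : V → Set ι) (hB : ∀ v, (L.induce (B v)).Connected)
    (hd : ∀ u v, u ≠ v → Disjoint (B u) (B v))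
    (ha : ∀ u v, G.Adj u v → ∃ x ∈ B u, ∃ y ∈ B v, L.Adj x y) : IsMinorOf G L := by
  classical
  have hmem : ∀ (x : ι) (u v : V), x ∈ B u → x ∈ B v → u = v := by
    intro x u v hu hv
    by_contra h
    exact Set.disjoint_left.mp (hd u v h) hu hv
  set f : ι → Option V := fun x => if h : ∃ v, x ∈ B v then some h.choose else none with hf
  have hfx : ∀ x v, f x = some v ↔ x ∈ B v := by
    intro x v
    constructor
    · intro h
      by_cases h' : ∃ v, x ∈ B v
      · simp only [hf, h', dif_pos, Option.some.injEq] at h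
        rw [← h]
        exact h'.choose_spec
      · simp [hf, h'] at h
    · intro h
      have h' : ∃ v, x ∈ B v := ⟨v, h⟩
      simp only [hf, h', dif_pos, Option.some.injEq]
      exact hmem x _ _ h'.choose_spec h
  refine ⟨f, ?_, ?_⟩
  · intro w
    have : {v | f v = some w} = B w := by
      ext x
      exact hfx x w
    rw [this]
    exact hB w
  · intro w w' hww'
    obtain ⟨x, hx, y, hy, hxy⟩ := ha w w' hww'
    exact ⟨x, y, (hfx x w).mpr hx, (hfx y w').mpr hy, hxy⟩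

/-- The part of `D` reachable from `A` inside `D`. -/
def reachPart {ι : Type} (L : SimpleGraph ι) (A D : Set ι) : Set ι :=
  {x | x ∈ D ∧ ∀ p : ι → Prop, (∀ y ∈ A, p y) →
    (∀ u ∈ D, ∀ v ∈ D, L.Adj u v → p u → p v) → p x}

theorem reachPart_subset {ι : Type} (L : SimpleGraph ι) (A D : Set ι) : reachPart L A D ⊆ D :=
  fun _ h => h.1

theorem subset_reachPart {ι : Type} {L : SimpleGraph ι} {A D : Set ι} (h : A ⊆ D) :
    A ⊆ reachPart L A D :=
  fun x hx => ⟨h hx, fun _ hp _ => hp x hx⟩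

theorem reachPart_step {ι : Type} {L : SimpleGraph ι} {A D : Set ι} {u v : ι}
    (hu : u ∈ reachPart L A D) (hv : v ∈ D) (huv : L.Adj u v) : v ∈ reachPart L A D :=
  ⟨hv, fun p hp hs => hs u hu.1 v hv huv (hu.2 p hp hs)⟩

/-- Connected sets for the vertices and for the edges with the right incidences give a minor. -/
theorem isMinorOf_of_models {V ι : Type} {G : SimpleGraph V} {L : SimpleGraph ι}
    (I : V → Set ι) (J : Sym2 V → Set ι)
    (hI : ∀ v, (L.induce (I v)).Connected)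
    (hII : ∀ u v, u ≠ v → Disjoint (I u) (I v))
    (hJ : ∀ e ∈ G.edgeSet, (L.induce (J e)).Connected)
    (hJI : ∀ e ∈ G.edgeSet, ∀ v ∈ e, (J e ∩ I v).Nonempty)
    (hJI' : ∀ e ∈ G.edgeSet, ∀ v, v ∉ e → Disjoint (J e) (I v))
    (hJJ : ∀ e ∈ G.edgeSet, ∀ e' ∈ G.edgeSet, e ≠ e' → Disjoint (J e) (J e')) :
    IsMinorOf G L := by
  classical
  -- the two ends of an edge, the first one is the owner
  set a : Sym2 V → V := fun e => (Quot.out e).1 with ha
  set b : Sym2 V → V := fun e => (Quot.out e).2 with hb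
  have hab : ∀ e : Sym2 V, e = s(a e, b e) := by
    intro e
    exact (Quot.out_eq e).symm
  have hae : ∀ e : Sym2 V, a e ∈ e := by
    intro e
    have := Sym2.mem_mk_left (a e) (b e)
    rwa [← hab e] at this
  have hbe : ∀ e : Sym2 V, b e ∈ e := by
    intro e
    have := Sym2.mem_mk_right (a e) (b e)
    rwa [← hab e] at this
  have hne : ∀ e ∈ G.edgeSet, a e ≠ b e := by
    intro e he h
    rw [hab e, SimpleGraph.mem_edgeSet] at he
    exact he.ne h
  set D : Sym2 V → Set ι := fun e => I (a e) ∪ (J e \ I (b e)) with hD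
  set R : Sym2 V → Set ι := fun e => reachPart L (I (a e)) (D e) with hR
  have hAD : ∀ e, I (a e) ⊆ D e := fun e => Set.subset_union_left
  set B : V → Set ι := fun v => I v ∪ {x | ∃ e ∈ G.edgeSet, a e = v ∧ x ∈ R e} with hBdef
  refine isMinorOf_of_branchSets B ?_ ?_ ?_
  · intro v
    obtain ⟨x₀, hx₀⟩ := conn_nonempty (hI v)
    refine conn_of_induct (a := x₀) (Or.inl hx₀) ?_
    intro p hp hstep
    have hpI : ∀ y ∈ I v, p y := by
      refine conn_induct (hI v) p hx₀ hp ?_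
      intro u hu w hw huw hpu
      exact hstep u (Or.inl hu) w (Or.inl hw) huw hpu
    rintro x (hx | ⟨e, he, hev, hx⟩)
    · exact hpI x hx
    · have key := hx.2 (fun y => y ∈ R e ∧ p y) (by
        intro y hy
        exact ⟨subset_reachPart (hAD e) hy, hpI y (hev ▸ hy)⟩) (by
        rintro u hu w hw huw ⟨hu1, hu2⟩
        have hw1 : w ∈ R e := reachPart_step hu1 hw huw
        exact ⟨hw1, hstep u (Or.inr ⟨e, he, hev, hu1⟩) w (Or.inr ⟨e, he, hev, hw1⟩) huw hu2⟩)
      exact key.2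
  · intro u v huv
    rw [Set.disjoint_left]
    rintro x (hx | ⟨e, he, hev, hx⟩) (hy | ⟨e', he', hev', hy⟩)
    · exact Set.disjoint_left.mp (hII u v huv) hx hy
    · rcases reachPart_subset _ _ _ hy with h | h
      · rw [hev'] at h
        exact Set.disjoint_left.mp (hII u v huv) hx h
      · by_cases hu : u ∈ e'
        · rw [hab e', Sym2.mem_iff] at hu
          rcases hu with hu | hu
          · exact huv (hu.trans hev')
          · rw [← hu] at h
            exact h.2 hx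
        · exact Set.disjoint_left.mp (hJI' e' he' u hu) h.1 hx
    · rcases reachPart_subset _ _ _ hx with h | h
      · rw [hev] at h
        exact Set.disjoint_left.mp (hII u v huv) h hy
      · by_cases hv : v ∈ e
        · rw [hab e, Sym2.mem_iff] at hv
          rcases hv with hv | hv
          · exact huv (hev.symm.trans hv.symm)
          · rw [← hv] at h
            exact h.2 hy
        · exact Set.disjoint_left.mp (hJI' e he v hv) h.1 hy
    · have hee' : e ≠ e' := by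
        rintro rfl
        exact huv (hev.symm.trans hev')
      rcases reachPart_subset _ _ _ hx with h | h <;> rcases reachPart_subset _ _ _ hy with h' | h'
      · rw [hev] at h
        rw [hev'] at h'
        exact Set.disjoint_left.mp (hII u v huv) h h'
      · rw [hev] at h
        by_cases hu : u ∈ e'
        · rw [hab e', Sym2.mem_iff] at hu
          rcases hu with hu | hu
          · exact huv (hu.trans hev')
          · rw [← hu] at h'
            exact h'.2 h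
        · exact Set.disjoint_left.mp (hJI' e' he' u hu) h'.1 h
      · rw [hev'] at h'
        by_cases hv : v ∈ e
        · rw [hab e, Sym2.mem_iff] at hv
          rcases hv with hv | hv
          · exact huv (hev.symm.trans hv.symm)
          · rw [← hv] at h
            exact h.2 h'
        · exact Set.disjoint_left.mp (hJI' e he v hv) h.1 h'
      · exact Set.disjoint_left.mp (hJJ e he e' he' hee') h.1 h'.1
  · -- adjacency
    have key : ∀ e ∈ G.edgeSet, ∃ x ∈ B (a e), ∃ y ∈ B (b e), L.Adj x y := by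
      intro e he
      by_contra hcon
      push Not at hcon
      obtain ⟨z, hzJ, hzI⟩ := hJI e he (a e) (hae e)
      obtain ⟨z', hz'J, hz'I⟩ := hJI e he (b e) (hbe e)
      have hall : ∀ y ∈ J e, y ∈ R e := by
        refine conn_induct (hJ e he) (fun y => y ∈ R e) hzJ (subset_reachPart (hAD e) hzI) ?_
        intro u hu w hw huw hpu
        by_cases hwI : w ∈ I (b e)
        · exact absurd huw (hcon u (Or.inr ⟨e, he, rfl, hpu⟩) w (Or.inl hwI))
        · exact reachPart_step hpu (Or.inr ⟨hw, hwI⟩) huw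
      rcases reachPart_subset _ _ _ (hall z' hz'J) with h | h
      · exact Set.disjoint_left.mp (hII _ _ (hne e he)) h hz'I
      · exact h.2 hz'I
    intro u v huv
    have he : s(u, v) ∈ G.edgeSet := huv
    obtain ⟨x, hx, y, hy, hxy⟩ := key _ he
    have hcases := hab s(u, v)
    rw [Sym2.eq_iff] at hcases
    rcases hcases with ⟨h1, h2⟩ | ⟨h1, h2⟩
    · rw [← h1] at hx
      rw [← h2] at hy
      exact ⟨x, hx, y, hy, hxy⟩
    · rw [← h2] at hx
      rw [← h1] at hy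
      exact ⟨y, hy, x, hx, hxy.symm⟩

/-! ### The nerve of a cover -/

/-- The cells of a finite closed cover that meet a connected set form a connected vertex set in
any graph in which intersecting cells are adjacent. -/
theorem connected_of_cover {X ι : Type} [TopologicalSpace X] [Finite ι] {L : SimpleGraph ι}
    {cell : ι → Set X} (hc : ∀ i, IsClosed (cell i))
    (hadj : ∀ i j, (cell i ∩ cell j).Nonempty → i = j ∨ L.Adj i j) {S : Set X}
    (hS : IsConnected S) (hcov : S ⊆ ⋃ i, cell i) :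
    (L.induce {i | (cell i ∩ S).Nonempty}).Connected := by
  obtain ⟨q₀, hq₀⟩ := hS.nonempty
  obtain ⟨i₀, hi₀⟩ := Set.mem_iUnion.mp (hcov hq₀)
  refine conn_of_induct (a := i₀) ⟨q₀, hi₀, hq₀⟩ ?_
  intro p hp hstep v hv
  by_contra hpv
  have hcl : ∀ s : Set ι, IsClosed (⋃ i ∈ s, cell i) := by
    intro s
    exact Set.Finite.isClosed_biUnion (Set.toFinite s) (fun i _ => hc i)
  have := isPreconnected_closed_iff.mp hS.isPreconnected
    (⋃ i ∈ {i | (cell i ∩ S).Nonempty ∧ p i}, cell i)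
    (⋃ i ∈ {i | (cell i ∩ S).Nonempty ∧ ¬ p i}, cell i) (hcl _) (hcl _) (by
      intro q hq
      obtain ⟨i, hi⟩ := Set.mem_iUnion.mp (hcov hq)
      by_cases hpi : p i
      · left
        exact Set.mem_biUnion (show i ∈ {i | (cell i ∩ S).Nonempty ∧ p i} from
          ⟨⟨q, hi, hq⟩, hpi⟩) hi
      · right
        exact Set.mem_biUnion (show i ∈ {i | (cell i ∩ S).Nonempty ∧ ¬ p i} from
          ⟨⟨q, hi, hq⟩, hpi⟩) hi) (by
      refine ⟨q₀, hq₀, ?_⟩
      exact Set.mem_biUnion (show i₀ ∈ {i | (cell i ∩ S).Nonempty ∧ p i} from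
          ⟨⟨q₀, hi₀, hq₀⟩, hp⟩) hi₀) (by
      obtain ⟨q, hq1, hq2⟩ := hv
      refine ⟨q, hq2, ?_⟩
      exact Set.mem_biUnion (show v ∈ {i | (cell i ∩ S).Nonempty ∧ ¬ p i} from
          ⟨⟨q, hq1, hq2⟩, hpv⟩) hq1)
  obtain ⟨q, hq, hq1, hq2⟩ := this
  simp only [Set.mem_iUnion, Set.mem_ofPred_eq] at hq1 hq2
  obtain ⟨i, ⟨hi1, hi2⟩, hi3⟩ := hq1
  obtain ⟨j, ⟨hj1, hj2⟩, hj3⟩ := hq2
  rcases hadj i j ⟨q, hi3, hj3⟩ with h | h
  · exact hj2 (h ▸ hi2)
  · exact hj2 (hstep i hi1 j hj1 h hi2)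

/-! ### Bricks -/

/-- The brick with index `x` in the box, mesh `h`, offset `M`. -/
def brick (h : ℝ) (M N : ℕ) (x : Fin N × Fin N) : Set (ℝ × ℝ) :=
  {q | h * (2 * ((x.1 : ℕ) - (M : ℝ)) + ((x.2 : ℕ) - (M : ℝ))) ≤ q.1 ∧
    q.1 ≤ h * (2 * ((x.1 : ℕ) - (M : ℝ)) + ((x.2 : ℕ) - (M : ℝ)) + 2) ∧
    h * ((x.2 : ℕ) - (M : ℝ)) ≤ q.2 ∧ q.2 ≤ h * ((x.2 : ℕ) - (M : ℝ) + 1)}

theorem isClosed_brick (h : ℝ) (M N : ℕ) (x : Fin N × Fin N) : IsClosed (brick h M N x) := by
  unfold brick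
  simp only [Set.ofPred_and]
  refine IsClosed.inter ?_ (IsClosed.inter ?_ (IsClosed.inter ?_ ?_))
  · exact isClosed_le continuous_const continuous_fst
  · exact isClosed_le continuous_fst continuous_const
  · exact isClosed_le continuous_const continuous_snd
  · exact isClosed_le continuous_snd continuous_const

theorem dist_le_of_mem_brick {h : ℝ} (hh : 0 < h) {M N : ℕ} {x : Fin N × Fin N} {q r : ℝ × ℝ}
    (hq : q ∈ brick h M N x) (hr : r ∈ brick h M N x) : dist q r ≤ 2 * h := by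
  obtain ⟨h1, h2, h3, h4⟩ := hq
  obtain ⟨g1, g2, g3, g4⟩ := hr
  rw [Prod.dist_eq, Real.dist_eq, Real.dist_eq]
  refine max_le ?_ ?_
  · rw [abs_le]
    constructor <;> nlinarith
  · rw [abs_le]
    constructor <;> nlinarith

theorem brick_adj {h : ℝ} (hh : 0 < h) {M N : ℕ} (x y : Fin N × Fin N)
    (hxy : (brick h M N x ∩ brick h M N y).Nonempty) : x = y ∨ (triBox N).Adj x y := by
  obtain ⟨q, ⟨h1, h2, h3, h4⟩, ⟨g1, g2, g3, g4⟩⟩ := hxy
  have e1 := le_of_mul_le_mul_left (h1.trans g2) hh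
  have e2 := le_of_mul_le_mul_left (g1.trans h2) hh
  have e3 := le_of_mul_le_mul_left (h3.trans g4) hh
  have e4 := le_of_mul_le_mul_left (g3.trans h4) hh
  have f1 : 2 * ((x.1 : ℕ) : ℤ) + ((x.2 : ℕ) : ℤ) ≤ 2 * ((y.1 : ℕ) : ℤ) + ((y.2 : ℕ) : ℤ) + 2 := by
    have : (2 * ((x.1 : ℕ) : ℝ) + ((x.2 : ℕ) : ℝ)) ≤ 2 * ((y.1 : ℕ) : ℝ) + ((y.2 : ℕ) : ℝ) + 2 := by
      linarith
    exact_mod_cast this
  have f2 : 2 * ((y.1 : ℕ) : ℤ) + ((y.2 : ℕ) : ℤ) ≤ 2 * ((x.1 : ℕ) : ℤ) + ((x.2 : ℕ) : ℤ) + 2 := by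
    have : (2 * ((y.1 : ℕ) : ℝ) + ((y.2 : ℕ) : ℝ)) ≤ 2 * ((x.1 : ℕ) : ℝ) + ((x.2 : ℕ) : ℝ) + 2 := by
      linarith
    exact_mod_cast this
  have f3 : ((x.2 : ℕ) : ℤ) ≤ ((y.2 : ℕ) : ℤ) + 1 := by
    have : ((x.2 : ℕ) : ℝ) ≤ ((y.2 : ℕ) : ℝ) + 1 := by linarith
    exact_mod_cast this
  have f4 : ((y.2 : ℕ) : ℤ) ≤ ((x.2 : ℕ) : ℤ) + 1 := by
    have : ((y.2 : ℕ) : ℝ) ≤ ((x.2 : ℕ) : ℝ) + 1 := by linarith
    exact_mod_cast this
  rcases eq_or_ne x y with hxy | hxy
  · exact Or.inl hxy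
  · right
    have hne : ¬ (((x.1 : ℕ) : ℤ) = ((y.1 : ℕ) : ℤ) ∧ ((x.2 : ℕ) : ℤ) = ((y.2 : ℕ) : ℤ)) := by
      rintro ⟨h5, h6⟩
      exact hxy (Prod.ext (Fin.ext (by exact_mod_cast h5)) (Fin.ext (by exact_mod_cast h6)))
    change triAdj _ _
    unfold triAdj
    simp only
    omega

theorem exists_brick {h R : ℝ} (hh : 0 < h) {M : ℕ} (hM : R / h + 2 ≤ M) {q : ℝ × ℝ}
    (hq1 : |q.1| ≤ R) (hq2 : |q.2| ≤ R) :
    ∃ x : Fin (2 * M + 1) × Fin (2 * M + 1), q ∈ brick h M (2 * M + 1) x := by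
  set j : ℤ := ⌊q.2 / h⌋ with hj
  set i : ℤ := ⌊(q.1 / h - j) / 2⌋ with hi
  have hj1 : (j : ℝ) ≤ q.2 / h := Int.floor_le _
  have hj2 : q.2 / h < j + 1 := Int.lt_floor_add_one _
  have hi1 : (i : ℝ) ≤ (q.1 / h - j) / 2 := Int.floor_le _
  have hi2 : (q.1 / h - j) / 2 < i + 1 := Int.lt_floor_add_one _
  have hb2 : |q.2 / h| ≤ R / h := by
    rw [abs_div, abs_of_pos hh]
    exact div_le_div_of_nonneg_right hq2 hh.le
  have hb1 : |q.1 / h| ≤ R / h := by
    rw [abs_div, abs_of_pos hh]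
    exact div_le_div_of_nonneg_right hq1 hh.le
  rw [abs_le] at hb1 hb2
  have hRh : 0 ≤ R / h := by linarith
  have hjM1 : -(M : ℤ) ≤ j := by
    have : -(M : ℝ) ≤ j := by linarith
    exact_mod_cast this
  have hjM2 : j ≤ M := by
    have : (j : ℝ) ≤ M := by linarith
    exact_mod_cast this
  have hiM1 : -(M : ℤ) ≤ i := by
    have : -(M : ℝ) ≤ i := by linarith
    exact_mod_cast this
  have hiM2 : i ≤ M := by
    have : (i : ℝ) ≤ M := by linarith
    exact_mod_cast this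
  refine ⟨(⟨(i + M).toNat, by omega⟩, ⟨(j + M).toNat, by omega⟩), ?_⟩
  have hci : (((i + M).toNat : ℕ) : ℝ) = i + M := by
    have : (((i + M).toNat : ℕ) : ℤ) = i + M := Int.toNat_of_nonneg (by omega)
    exact_mod_cast this
  have hcj : (((j + M).toNat : ℕ) : ℝ) = j + M := by
    have : (((j + M).toNat : ℕ) : ℤ) = j + M := Int.toNat_of_nonneg (by omega)
    exact_mod_cast this
  unfold brick
  simp only [Set.mem_ofPred_eq, hci, hcj, add_sub_cancel_right]
  have e1 : q.1 = h * (q.1 / h) := by field_simp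
  have e2 : q.2 = h * (q.2 / h) := by field_simp
  refine ⟨?_, ?_, ?_, ?_⟩
  · rw [e1]
    exact mul_le_mul_of_nonneg_left (by linarith) hh.le
  · rw [e1]
    exact mul_le_mul_of_nonneg_left (by linarith) hh.le
  · rw [e2]
    exact mul_le_mul_of_nonneg_left (by linarith) hh.le
  · rw [e2]
    exact mul_le_mul_of_nonneg_left (by linarith) hh.le

/-- A finite family of compact connected plane sets can be replaced by connected vertex sets of a
box of the triangular lattice, keeping the pairs that intersect and the pairs that do not. -/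
theorem exists_box {κ : Type} [Finite κ] (K : κ → Set (ℝ × ℝ)) (hK : ∀ a, IsCompact (K a))
    (hC : ∀ a, IsConnected (K a)) :
    ∃ (N : ℕ) (I : κ → Set (Fin N × Fin N)), (∀ a, ((triBox N).induce (I a)).Connected) ∧
      (∀ a b, Disjoint (K a) (K b) → Disjoint (I a) (I b)) ∧
      (∀ a b, (K a ∩ K b).Nonempty → (I a ∩ I b).Nonempty) := by
  classical
  -- a mesh that separates the disjoint pairs
  have hδ : ∃ δ : ℝ, 0 < δ ∧ ∀ a b, Disjoint (K a) (K b) → ∀ q ∈ K a, ∀ r ∈ K b, δ ≤ dist q r := by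
    have h1 : ∀ c : κ × κ, ∃ δ : ℝ, 0 < δ ∧ (Disjoint (K c.1) (K c.2) →
        ∀ q ∈ K c.1, ∀ r ∈ K c.2, δ ≤ dist q r) := by
      rintro ⟨a, b⟩
      by_cases hab : Disjoint (K a) (K b)
      · obtain ⟨δ, hδ, hd⟩ := hab.exists_thickenings (hK a) (hK b).isClosed
        refine ⟨δ, hδ, fun _ q hq r hr => ?_⟩
        by_contra hlt
        push Not at hlt
        have h2 : r ∈ Metric.thickening δ (K a) := by
          rw [Metric.mem_thickening_iff]
          exact ⟨q, hq, by rwa [dist_comm]⟩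
        exact Set.disjoint_left.mp hd h2 (Metric.self_subset_thickening hδ _ hr)
      · exact ⟨1, one_pos, fun h => absurd h hab⟩
    choose δ hδ hδ' using h1
    cases nonempty_fintype κ
    by_cases hne : Nonempty κ
    · obtain ⟨c₀, _, hc₀⟩ := Finset.exists_min_image (Finset.univ : Finset (κ × κ)) δ
        (Finset.univ_nonempty)
      refine ⟨δ c₀, hδ c₀, ?_⟩
      intro a b hab q hq r hr
      exact (hc₀ (a, b) (Finset.mem_univ _)).trans (hδ' (a, b) hab q hq r hr)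
    · exact ⟨1, one_pos, fun a => absurd ⟨a⟩ hne⟩
  obtain ⟨δ, hδ, hδ'⟩ := hδ
  -- a bound
  have hR : ∃ R : ℝ, ∀ a, ∀ q ∈ K a, |q.1| ≤ R ∧ |q.2| ≤ R := by
    have hcomp : IsCompact (⋃ a, K a) := isCompact_iUnion hK
    obtain ⟨R, hR⟩ := hcomp.isBounded.exists_norm_le
    refine ⟨R, fun a q hq => ?_⟩
    have := hR q (Set.mem_iUnion.mpr ⟨a, hq⟩)
    rw [Prod.norm_def, max_le_iff, Real.norm_eq_abs, Real.norm_eq_abs] at this
    exact this
  obtain ⟨R, hR⟩ := hR
  set h : ℝ := δ / 3 with hh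
  have hpos : 0 < h := by positivity
  obtain ⟨M, hM⟩ := exists_nat_ge (R / h + 2)
  refine ⟨2 * M + 1, fun a => {x | (brick h M (2 * M + 1) x ∩ K a).Nonempty}, ?_, ?_, ?_⟩
  · intro a
    refine connected_of_cover (isClosed_brick h M _) (brick_adj hpos) (hC a) ?_
    intro q hq
    obtain ⟨x, hx⟩ := exists_brick hpos hM (hR a q hq).1 (hR a q hq).2
    exact Set.mem_iUnion.mpr ⟨x, hx⟩
  · intro a b hab
    rw [Set.disjoint_left]
    rintro x ⟨q, hq1, hq2⟩ ⟨r, hr1, hr2⟩
    have h1 := hδ' a b hab q hq2 r hr2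
    have h2 := dist_le_of_mem_brick hpos hq1 hr1
    rw [hh] at h2
    linarith
  · rintro a b ⟨q, hqa, hqb⟩
    obtain ⟨x, hx⟩ := exists_brick hpos hM (hR a q hqa).1 (hR a q hqa).2
    exact ⟨x, ⟨q, hx, hqa⟩, ⟨q, hx, hqb⟩⟩

/-! ### The main statement -/

theorem exists_minor_of_hasDrawing {V : Type} [Fintype V] (G : SimpleGraph V) (h : HasDrawing G) :
    ∃ N : ℕ, IsMinorOf G (triBox N) := by
  classical
  obtain ⟨p, γ, hp, hγ, hcross⟩ := h
  set a : Sym2 V → V := fun e => (Quot.out e).1 with ha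
  set b : Sym2 V → V := fun e => (Quot.out e).2 with hb
  have hab : ∀ e : Sym2 V, s(a e, b e) = e := fun e => Quot.out_eq e
  have hadj : ∀ e ∈ G.edgeSet, G.Adj (a e) (b e) := by
    intro e he
    rwa [← hab e, SimpleGraph.mem_edgeSet] at he
  set c : Sym2 V → ℝ → ℝ × ℝ :=
    fun e t => γ (a e) (b e) (Set.projIcc 0 1 zero_le_one t) with hc
  have hproj : ∀ t ∈ Set.Icc (0 : ℝ) 1, ((Set.projIcc 0 1 zero_le_one t : Set.Icc (0 : ℝ) 1) : ℝ) = t := by
    intro t ht
    rw [Set.projIcc_of_mem _ ht]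
  have hcont : ∀ e ∈ G.edgeSet, Continuous (c e) := fun e he =>
    (hγ _ _ (hadj e he)).1.comp continuous_projIcc
  have hc0 : ∀ e ∈ G.edgeSet, c e 0 = p (a e) := by
    intro e he
    have : Set.projIcc (0 : ℝ) 1 zero_le_one 0 = 0 := Set.projIcc_left _
    simp only [hc, this]
    exact (hγ _ _ (hadj e he)).2.2.1
  have hc1 : ∀ e ∈ G.edgeSet, c e 1 = p (b e) := by
    intro e he
    have : Set.projIcc (0 : ℝ) 1 zero_le_one 1 = 1 := Set.projIcc_right _
    simp only [hc, this]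
    exact (hγ _ _ (hadj e he)).2.2.2.1
  have F0 : ∀ t ∈ Set.Ioo (0 : ℝ) 1, (Set.projIcc 0 1 zero_le_one t : Set.Icc (0 : ℝ) 1) ≠ 0 ∧
      (Set.projIcc 0 1 zero_le_one t : Set.Icc (0 : ℝ) 1) ≠ 1 := by
    intro t ht
    have h1 := hproj t ⟨ht.1.le, ht.2.le⟩
    constructor
    · intro h0
      rw [h0] at h1
      exact ht.1.ne h1
    · intro h0
      rw [h0] at h1
      exact ht.2.ne' h1
  have F1 : ∀ e ∈ G.edgeSet, ∀ t ∈ Set.Ioo (0 : ℝ) 1, ∀ w, c e t ≠ p w := by
    intro e he t ht w heq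
    have := (hγ _ _ (hadj e he)).2.2.2.2 (Set.projIcc 0 1 zero_le_one t) ⟨w, heq.symm⟩
    rcases this with h | h
    · exact (F0 t ht).1 h
    · exact (F0 t ht).2 h
  have F2 : ∀ e ∈ G.edgeSet, ∀ e' ∈ G.edgeSet, e ≠ e' → ∀ s ∈ Set.Ioo (0 : ℝ) 1, ∀ t,
      c e s ≠ c e' t := by
    intro e he e' he' hee' s hs t heq
    have := hcross (a e) (b e) (a e') (b e') (hadj e he) (hadj e' he') (by
      intro hmk
      have h1 := congrFun hmk (a e, b e)
      rw [Sym2.eq_iff] at h1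
      have h2 : (a e, b e) = (a e', b e') := by
        rcases h1 with h1 | h1
        · exact h1.1
        · exact h1.2
      rw [Prod.mk.injEq] at h2
      apply hee'
      rw [← hab e, ← hab e', h2.1, h2.2]) _ _ heq
    rcases this with h | h
    · exact (F0 s hs).1 h
    · exact (F0 s hs).2 h
  have F3 : ∀ e ∈ G.edgeSet, ∀ s ∈ Set.Icc (0 : ℝ) 1, ∀ t ∈ Set.Icc (0 : ℝ) 1,
      c e s = c e t → s = t := by
    intro e he s hs t ht heq
    have := (hγ _ _ (hadj e he)).2.1 heq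
    rw [← hproj s hs, ← hproj t ht, this]
  -- the sets
  set P : V → Sym2 V → Set (ℝ × ℝ) := fun v e =>
    if e ∈ G.edgeSet ∧ a e = v then c e '' Set.Icc 0 (1 / 3)
    else if e ∈ G.edgeSet ∧ b e = v then c e '' Set.Icc (2 / 3) 1
    else {p v} with hP
  have hPmem : ∀ v e, p v ∈ P v e := by
    intro v e
    simp only [hP]
    split_ifs with h1 h2
    · exact ⟨0, ⟨le_rfl, by norm_num⟩, by rw [hc0 e h1.1, h1.2]⟩
    · exact ⟨1, ⟨by norm_num, le_rfl⟩, by rw [hc1 e h2.1, h2.2]⟩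
    · exact Set.mem_singleton _
  have hPcomp : ∀ v e, IsCompact (P v e) := by
    intro v e
    simp only [hP]
    split_ifs with h1 h2
    · exact isCompact_Icc.image (hcont e h1.1)
    · exact isCompact_Icc.image (hcont e h2.1)
    · exact isCompact_singleton
  have hPpre : ∀ v e, IsPreconnected (P v e) := by
    intro v e
    simp only [hP]
    split_ifs with h1 h2
    · exact isPreconnected_Icc.image _ (hcont e h1.1).continuousOn
    · exact isPreconnected_Icc.image _ (hcont e h2.1).continuousOn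
    · exact isPreconnected_singleton
  have hPchar : ∀ v e q, q ∈ P v e → q = p v ∨ (e ∈ G.edgeSet ∧ ∃ t ∈ Set.Ioo (0 : ℝ) 1,
      c e t = q ∧ ((a e = v ∧ t ≤ 1 / 3) ∨ (b e = v ∧ 2 / 3 ≤ t))) := by
    intro v e q hq
    simp only [hP] at hq
    split_ifs at hq with h1 h2
    · obtain ⟨t, ht, rfl⟩ := hq
      rcases eq_or_lt_of_le ht.1 with h0 | h0
      · left
        rw [← h0, hc0 e h1.1, h1.2]
      · right
        exact ⟨h1.1, t, ⟨h0, by linarith [ht.2]⟩, rfl, Or.inl ⟨h1.2, ht.2⟩⟩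
    · obtain ⟨t, ht, rfl⟩ := hq
      rcases eq_or_lt_of_le ht.2 with h0 | h0
      · left
        rw [h0, hc1 e h2.1, h2.2]
      · right
        exact ⟨h2.1, t, ⟨by linarith [ht.1], h0⟩, rfl, Or.inr ⟨h2.2, ht.1⟩⟩
    · exact Or.inl hq
  set K : V ⊕ G.edgeSet → Set (ℝ × ℝ) := fun x => match x with
    | Sum.inl v => ⋃ e : Sym2 V, P v e
    | Sum.inr e => c e '' Set.Icc (1 / 3) (2 / 3) with hKdef
  have hT : ∀ v q, q ∈ K (Sum.inl v) → q = p v ∨ ∃ e ∈ G.edgeSet, ∃ t ∈ Set.Ioo (0 : ℝ) 1,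
      c e t = q ∧ ((a e = v ∧ t ≤ 1 / 3) ∨ (b e = v ∧ 2 / 3 ≤ t)) := by
    intro v q hq
    obtain ⟨e, he⟩ := Set.mem_iUnion.mp hq
    rcases hPchar v e q he with h | h
    · exact Or.inl h
    · exact Or.inr ⟨e, h⟩
  have hM : ∀ (e : G.edgeSet) q, q ∈ K (Sum.inr e) → ∃ t ∈ Set.Ioo (0 : ℝ) 1, c e t = q ∧
      1 / 3 ≤ t ∧ t ≤ 2 / 3 := by
    rintro e q ⟨t, ht, rfl⟩
    exact ⟨t, ⟨by linarith [ht.1], by linarith [ht.2]⟩, rfl, ht⟩
  obtain ⟨N, I, hI1, hI2, hI3⟩ := exists_box K (by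
    rintro (v | e)
    · exact isCompact_iUnion (hPcomp v)
    · exact isCompact_Icc.image (hcont e e.2)) (by
    rintro (v | e)
    · refine ⟨⟨p v, Set.mem_iUnion.mpr ⟨s(v, v), hPmem v _⟩⟩, ?_⟩
      exact isPreconnected_iUnion ⟨p v, Set.mem_iInter.mpr (hPmem v)⟩ (hPpre v)
    · refine ⟨⟨c e (1 / 3), 1 / 3, ⟨le_rfl, by norm_num⟩, rfl⟩, ?_⟩
      exact isPreconnected_Icc.image _ (hcont e e.2).continuousOn)
  have hend : ∀ e ∈ G.edgeSet, ∀ v, a e = v ∨ b e = v → v ∈ e := by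
    intro e _ v hv
    rcases hv with rfl | rfl
    · have := Sym2.mem_mk_left (a e) (b e)
      rwa [hab e] at this
    · have := Sym2.mem_mk_right (a e) (b e)
      rwa [hab e] at this
  refine ⟨N, isMinorOf_of_models (fun v => I (Sum.inl v))
    (fun e => if h : e ∈ G.edgeSet then I (Sum.inr ⟨e, h⟩) else ∅) ?_ ?_ ?_ ?_ ?_ ?_⟩
  · exact fun v => hI1 _
  · intro u v huv
    apply hI2
    rw [Set.disjoint_left]
    intro q hq1 hq2
    rcases hT u q hq1 with h1 | ⟨e, he, t, ht, rfl, h1⟩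
    · rcases hT v q hq2 with h2 | ⟨e, he, t, ht, rfl, h2⟩
      · exact huv (hp (h1.symm.trans h2))
      · exact F1 e he t ht u h1
    · rcases hT v _ hq2 with h2 | ⟨e', he', t', ht', heq, h2⟩
      · exact F1 e he t ht v h2
      · by_cases hee' : e = e'
        · subst hee'
          have := F3 e he t' ⟨ht'.1.le, ht'.2.le⟩ t ⟨ht.1.le, ht.2.le⟩ heq
          subst this
          rcases h1 with h1 | h1 <;> rcases h2 with h2 | h2
          · exact huv (h1.1.symm.trans h2.1)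
          · linarith [h1.2, h2.2]
          · linarith [h1.2, h2.2]
          · exact huv (h1.1.symm.trans h2.1)
        · exact F2 e he e' he' hee' t ht t' heq.symm
  · intro e he
    rw [dif_pos he]
    exact hI1 _
  · intro e he v hv
    rw [dif_pos he]
    apply hI3
    rw [← hab e, Sym2.mem_iff] at hv
    rcases hv with rfl | rfl
    · refine ⟨c e (1 / 3), ⟨1 / 3, ⟨le_rfl, by norm_num⟩, rfl⟩, Set.mem_iUnion.mpr ⟨e, ?_⟩⟩
      simp only [hP, he, true_and, if_true]
      exact ⟨1 / 3, ⟨by norm_num, le_rfl⟩, rfl⟩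
    · refine ⟨c e (2 / 3), ⟨2 / 3, ⟨by norm_num, le_rfl⟩, rfl⟩, Set.mem_iUnion.mpr ⟨e, ?_⟩⟩
      have hne : a e ≠ b e := (hadj e he).ne
      simp only [hP, he, true_and, if_true, if_neg hne]
      exact ⟨2 / 3, ⟨le_rfl, by norm_num⟩, rfl⟩
  · intro e he v hv
    rw [dif_pos he]
    apply hI2
    rw [Set.disjoint_left]
    intro q hq1 hq2
    obtain ⟨t, ht, rfl, _⟩ := hM ⟨e, he⟩ q hq1
    rcases hT v _ hq2 with h2 | ⟨e', he', t', ht', heq, h2⟩
    · exact F1 e he t ht v h2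
    · by_cases hee' : e = e'
      · subst hee'
        apply hv
        rcases h2 with h2 | h2
        · exact hend e he v (Or.inl h2.1)
        · exact hend e he v (Or.inr h2.1)
      · exact F2 e he e' he' hee' t ht t' heq.symm
  · intro e he e' he' hee'
    rw [dif_pos he, dif_pos he']
    apply hI2
    rw [Set.disjoint_left]
    intro q hq1 hq2
    obtain ⟨t, ht, rfl, _⟩ := hM ⟨e, he⟩ q hq1
    obtain ⟨t', ht', heq, _⟩ := hM ⟨e', he'⟩ _ hq2
    exact F2 e he e' he' hee' t ht t' heq.symm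

end Pool.Agent.TFP
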