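import Pool.Agent.Lib.TFP.Conn

/-!
Module E1. The tree-or-cut lemma of Alon, Seymour and Thomas, for three sets.
-/

set_option autoImplicit false

namespace Pool.Agent.TFP

open Finset

open Classical in
/-- vertices of `D × Bool` reachable in at most `j` steps in the layer graph -/
noncomputable def lay {V : Type} (G : SimpleGraph V) (D : Finset V) (A : Fin 3 → Finset V) :
    ℕ → Finset (V × Bool)
  | 0 => (A 0).image (fun a => (a, false))
  | (j + 1) => lay G D A j ∪ (D ×ˢ (univ : Finset Bool)).filter (fun x => ∃ y ∈ lay G D A j,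
      (G.Adj y.1 x.1 ∧ y.2 = x.2) ∨ (y.1 = x.1 ∧ x.1 ∈ A 1 ∧ y.2 = false ∧ x.2 = true))

theorem mem_lay_zero {V : Type} (G : SimpleGraph V) (D : Finset V) (A : Fin 3 → Finset V)
    (x : V × Bool) : x ∈ lay G D A 0 ↔ x.1 ∈ A 0 ∧ x.2 = false := by
  classical
  rw [lay, Finset.mem_image]
  constructor
  · rintro ⟨a, ha, rfl⟩; exact ⟨ha, rfl⟩
  · rintro ⟨h1, h2⟩; exact ⟨x.1, h1, Prod.ext rfl h2.symm⟩

theorem mem_lay_succ {V : Type} (G : SimpleGraph V) (D : Finset V) (A : Fin 3 → Finset V)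
    (j : ℕ) (x : V × Bool) : x ∈ lay G D A (j + 1) ↔ x ∈ lay G D A j ∨ (x.1 ∈ D ∧
      ∃ y ∈ lay G D A j,
      (G.Adj y.1 x.1 ∧ y.2 = x.2) ∨ (y.1 = x.1 ∧ x.1 ∈ A 1 ∧ y.2 = false ∧ x.2 = true)) := by
  classical
  rw [lay, Finset.mem_union, Finset.mem_filter, Finset.mem_product]
  simp only [Finset.mem_univ, and_true]

theorem lay_mono {V : Type} (G : SimpleGraph V) (D : Finset V) (A : Fin 3 → Finset V) (j : ℕ) :
    lay G D A j ⊆ lay G D A (j + 1) := by
  intro x hx
  rw [mem_lay_succ]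
  exact Or.inl hx

theorem lay_mono' {V : Type} (G : SimpleGraph V) (D : Finset V) (A : Fin 3 → Finset V)
    {i j : ℕ} (h : i ≤ j) : lay G D A i ⊆ lay G D A j := by
  induction h with
  | refl => exact Finset.Subset.refl _
  | step _ ih => exact ih.trans (lay_mono G D A _)

theorem lay_sub {V : Type} (G : SimpleGraph V) (D : Finset V) (A : Fin 3 → Finset V)
    (hA : A 0 ⊆ D) (j : ℕ) : ∀ x ∈ lay G D A j, x.1 ∈ D := by
  induction j with
  | zero =>
    intro x hx
    rw [mem_lay_zero] at hx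
    exact hA hx.1
  | succ j ih =>
    intro x hx
    rw [mem_lay_succ] at hx
    rcases hx with h | h
    · exact ih x h
    · exact h.1

theorem lay_tree {V : Type} [DecidableEq V] (G : SimpleGraph V) (D : Finset V)
    (A : Fin 3 → Finset V) (hA : A 0 ⊆ D) (j : ℕ) : ∀ x ∈ lay G D A j, ∃ T ⊆ D,
      (G.induce (T : Set V)).Connected ∧ T.card ≤ j + 1 ∧ x.1 ∈ T ∧ (T ∩ A 0).Nonempty ∧
      (x.2 = true → (T ∩ A 1).Nonempty) := by
  induction j with
  | zero =>
    intro x hx
    rw [mem_lay_zero] at hx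
    obtain ⟨ha, hf⟩ := hx
    refine ⟨{x.1}, Finset.singleton_subset_iff.mpr (hA ha), ?_, by simp, by simp, ?_, ?_⟩
    · rw [Finset.coe_singleton]; exact conn_singleton _
    · exact ⟨x.1, by simp [ha]⟩
    · intro h; rw [hf] at h; simp at h
  | succ j ih =>
    intro x hx
    rw [mem_lay_succ] at hx
    rcases hx with hx | ⟨hxD', y, hy, hyx⟩
    · obtain ⟨T, h1, h2, h3, h4⟩ := ih x hx
      exact ⟨T, h1, h2, h3.trans (Nat.le_succ _), h4⟩
    · obtain ⟨T, hTD, hTc, hTcard, hyT, hT0, hT1⟩ := ih y hy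
      rcases hyx with ⟨hadj, hb⟩ | ⟨heq, hx1, hyf, hxt⟩
      · refine ⟨insert x.1 T, Finset.insert_subset hxD' hTD, ?_, ?_, Finset.mem_insert_self _ _,
          ?_, ?_⟩
        · rw [Finset.coe_insert]
          exact conn_insert hTc (Finset.mem_coe.mpr hyT) hadj
        · exact (Finset.card_insert_le _ _).trans (Nat.succ_le_succ hTcard)
        · obtain ⟨z, hz⟩ := hT0
          rw [Finset.mem_inter] at hz
          exact ⟨z, Finset.mem_inter.mpr ⟨Finset.mem_insert_of_mem hz.1, hz.2⟩⟩
        · intro hx2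
          obtain ⟨z, hz⟩ := hT1 (hb.trans hx2)
          rw [Finset.mem_inter] at hz
          exact ⟨z, Finset.mem_inter.mpr ⟨Finset.mem_insert_of_mem hz.1, hz.2⟩⟩
      · refine ⟨T, hTD, hTc, hTcard.trans (Nat.le_succ _), heq ▸ hyT, hT0, fun _ => ?_⟩
        exact ⟨x.1, Finset.mem_inter.mpr ⟨heq ▸ hyT, hx1⟩⟩

theorem tree_or_cut {V : Type} [DecidableEq V] (G : SimpleGraph V) (D : Finset V)
    (A : Fin 3 → Finset V) (hA : ∀ i, A i ⊆ D) (hne : ∀ i, (A i).Nonempty) (r : ℕ) (hr : 0 < r) :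
    (∃ T ⊆ D, (G.induce (T : Set V)).Connected ∧ T.card ≤ r ∧ ∀ i, (T ∩ A i).Nonempty) ∨
    (∃ Z ⊆ D, r * Z.card ≤ 2 * D.card ∧
      ∀ T ⊆ D \ Z, (G.induce (T : Set V)).Connected → ∃ i, Disjoint T (A i)) := by
  by_cases hreach : ∃ a ∈ A 2, (a, true) ∈ lay G D A (r - 1)
  · left
    obtain ⟨a, ha2, haL⟩ := hreach
    obtain ⟨T, h1, h2, h3, h4, h5, h6⟩ := lay_tree G D A (hA 0) (r - 1) _ haL
    refine ⟨T, h1, h2, by omega, ?_⟩
    intro i
    fin_cases i
    · exact h5
    · exact h6 rfl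
    · exact ⟨a, Finset.mem_inter.mpr ⟨h4, ha2⟩⟩
  · right
    push Not at hreach
    -- the layers
    let L : ℕ → Finset (V × Bool) := fun j =>
      if j = 0 then lay G D A 0 else lay G D A j \ lay G D A (j - 1)
    have hLsub : ∀ j, L j ⊆ lay G D A j := by
      intro j
      by_cases hj : j = 0
      · simp [L, hj]
      · simp only [L, hj, if_false]; exact Finset.sdiff_subset
    have hdisj : ∀ i ∈ range r, ∀ j ∈ range r, i ≠ j → Disjoint (L i) (L j) := by
      have key : ∀ i j, i < j → Disjoint (L i) (L j) := by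
        intro i j hij
        rw [Finset.disjoint_left]
        intro x hx hx'
        have hj : j ≠ 0 := by omega
        simp only [L, hj, if_false, Finset.mem_sdiff] at hx'
        exact hx'.2 (lay_mono' G D A (by omega) (hLsub i hx))
      intro i _ j _ hij
      rcases Nat.lt_or_gt_of_ne hij with h | h
      · exact key i j h
      · exact (key j i h).symm
    have hsum : ∑ j ∈ range r, (L j).card ≤ 2 * D.card := by
      rw [← Finset.card_biUnion hdisj]
      calc _ ≤ (D ×ˢ (univ : Finset Bool)).card := by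
            refine Finset.card_le_card (Finset.biUnion_subset.mpr (fun j _ => ?_))
            intro x hx
            rw [Finset.mem_product]
            exact ⟨lay_sub G D A (hA 0) j x (hLsub j hx), Finset.mem_univ _⟩
        _ = 2 * D.card := by
            rw [Finset.card_product]; simp [mul_comm]
    have hex : ∃ j ∈ range r, r * (L j).card ≤ 2 * D.card := by
      by_contra hcon
      push Not at hcon
      have h1 : ∑ j ∈ range r, (2 * D.card) < ∑ j ∈ range r, r * (L j).card :=
        Finset.sum_lt_sum_of_nonempty ⟨0, by simp [hr]⟩ hcon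
      have h2 := Nat.mul_le_mul_left r hsum
      rw [Finset.mul_sum] at h2
      rw [Finset.sum_const, Finset.card_range, smul_eq_mul] at h1
      omega
    obtain ⟨j, hjr, hj⟩ := hex
    rw [Finset.mem_range] at hjr
    refine ⟨(L j).image Prod.fst, ?_, ?_, ?_⟩
    · intro v hv
      obtain ⟨x, hx, rfl⟩ := Finset.mem_image.mp hv
      exact lay_sub G D A (hA 0) j x (hLsub j hx)
    · exact (Nat.mul_le_mul_left _ Finset.card_image_le).trans hj
    · intro T hT hTc
      by_contra hcon
      push Not at hcon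
      have hmeet : ∀ i, ∃ a, a ∈ T ∧ a ∈ A i := by
        intro i
        have := hcon i
        rw [Finset.not_disjoint_iff] at this
        exact this
      obtain ⟨a0, ha0T, ha0⟩ := hmeet 0
      obtain ⟨a1, ha1T, ha1⟩ := hmeet 1
      obtain ⟨a2, ha2T, ha2⟩ := hmeet 2
      have hTZ : ∀ v ∈ T, ∀ b, (v, b) ∉ L j := by
        intro v hv b hb
        exact (Finset.mem_sdiff.mp (hT hv)).2 (Finset.mem_image.mpr ⟨(v, b), hb, rfl⟩)
      have h0 : (a0, false) ∈ lay G D A 0 := by
        rw [mem_lay_zero]; exact ⟨ha0, rfl⟩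
      have hj0 : j ≠ 0 := by
        rintro rfl
        exact hTZ a0 ha0T false (by simpa [L] using h0)
      have hcl : ∀ v ∈ T, ∀ b, (v, b) ∈ lay G D A j → (v, b) ∈ lay G D A (j - 1) := by
        intro v hv b hb
        by_contra hcon'
        apply hTZ v hv b
        simp only [L, hj0, if_false]
        exact Finset.mem_sdiff.mpr ⟨hb, hcon'⟩
      have hsucc : j = (j - 1) + 1 := by omega
      have hstep : ∀ b, ∀ u ∈ (T : Set V), ∀ v ∈ (T : Set V), G.Adj u v →
          (u, b) ∈ lay G D A (j - 1) → (v, b) ∈ lay G D A (j - 1) := by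
        intro b u hu v hv huv hub
        apply hcl v hv b
        rw [hsucc, mem_lay_succ]
        right
        exact ⟨(Finset.mem_sdiff.mp (hT hv)).1, (u, b), hub, Or.inl ⟨huv, rfl⟩⟩
      have hall0 : ∀ v ∈ (T : Set V), (v, false) ∈ lay G D A (j - 1) :=
        conn_induct hTc (fun v => (v, false) ∈ lay G D A (j - 1)) ha0T
          (lay_mono' G D A (Nat.zero_le _) h0) (hstep false)
      have h1 : (a1, true) ∈ lay G D A (j - 1) := by
        apply hcl a1 ha1T true
        rw [hsucc, mem_lay_succ]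
        right
        exact ⟨(Finset.mem_sdiff.mp (hT ha1T)).1, (a1, false), hall0 a1 ha1T,
          Or.inr ⟨rfl, ha1, rfl, rfl⟩⟩
      have hall1 : ∀ v ∈ (T : Set V), (v, true) ∈ lay G D A (j - 1) :=
        conn_induct hTc (fun v => (v, true) ∈ lay G D A (j - 1)) ha1T h1 (hstep true)
      exact hreach a2 ha2 (lay_mono' G D A (by omega) (hall1 a2 ha2T))

end Pool.Agent.TFP
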