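import Pool.Agent.Lib.TFP.Defs

/-!
Module D2. A finite box of the triangular lattice is MacLane planar.
-/

set_option autoImplicit false

namespace Pool.Agent.TFP

open Finset

/-- adjacency in the triangular lattice on `ℤ × ℤ` : difference in
`±(1,0), ±(0,1), ±(1,-1)`. -/
def triAdj (a b : ℤ × ℤ) : Prop :=
  (b.1 = a.1 + 1 ∧ b.2 = a.2) ∨ (b.1 = a.1 - 1 ∧ b.2 = a.2) ∨
  (b.1 = a.1 ∧ b.2 = a.2 + 1) ∨ (b.1 = a.1 ∧ b.2 = a.2 - 1) ∨
  (b.1 = a.1 + 1 ∧ b.2 = a.2 - 1) ∨ (b.1 = a.1 - 1 ∧ b.2 = a.2 + 1)

/-- the box `{0..N-1}²` of the triangular lattice -/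
def triBox (N : ℕ) : SimpleGraph (Fin N × Fin N) where
  Adj a b := triAdj ((a.1 : ℕ), (a.2 : ℕ)) ((b.1 : ℕ), (b.2 : ℕ))
  symm := ⟨by
    rintro a b h
    unfold triAdj at h ⊢
    simp only at h ⊢
    omega⟩
  loopless := ⟨by
    rintro a h
    unfold triAdj at h
    simp only at h
    omega⟩

/-- the chain of a triangle -/
def triChain {V : Type} [DecidableEq V] (a b c : V) : Sym2 V → ZMod 2 :=
  Pi.single s(a, b) 1 + Pi.single s(b, c) 1 + Pi.single s(a, c) 1

theorem sum_single_edge {V : Type} [DecidableEq V] [Fintype V] {a b : V} (hab : a ≠ b) (w : V) :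
    ∑ u, (Pi.single s(a, b) (1 : ZMod 2) : Sym2 V → ZMod 2) s(w, u) =
      (if w = a then 1 else 0) + (if w = b then 1 else 0) := by
  by_cases hwa : w = a
  · subst hwa
    have hwb : ¬ w = b := hab
    rw [Finset.sum_eq_single b]
    · simp [hwb]
    · intro u _ hu
      rw [Pi.single_eq_of_ne]
      intro h
      rcases Sym2.eq_iff.mp h with ⟨_, h⟩ | ⟨h, _⟩
      · exact hu h
      · exact hab h
    · simp
  · by_cases hwb : w = b
    · subst hwb
      rw [Finset.sum_eq_single a]
      · rw [Sym2.eq_swap]; simp [hwa]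
      · intro u _ hu
        rw [Pi.single_eq_of_ne]
        intro h
        rcases Sym2.eq_iff.mp h with ⟨h, _⟩ | ⟨_, h⟩
        · exact hwa h
        · exact hu h
      · simp
    · simp only [hwa, hwb, if_false, add_zero]
      refine Finset.sum_eq_zero (fun u _ => ?_)
      rw [Pi.single_eq_of_ne]
      intro h
      rcases Sym2.eq_iff.mp h with ⟨h, _⟩ | ⟨h, _⟩
      · exact hwa h
      · exact hwb h

theorem triChain_ne_zero {V : Type} [DecidableEq V] {a b c : V} {e : Sym2 V}
    (h : triChain a b c e ≠ 0) : e = s(a, b) ∨ e = s(b, c) ∨ e = s(a, c) := by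
  by_contra hcon
  push Not at hcon
  apply h
  simp [triChain, Pi.single_eq_of_ne hcon.1, Pi.single_eq_of_ne hcon.2.1,
    Pi.single_eq_of_ne hcon.2.2]

theorem triChain_mem {V : Type} [DecidableEq V] [Fintype V] {G : SimpleGraph V} {a b c : V}
    (hab : G.Adj a b) (hbc : G.Adj b c) (hac : G.Adj a c) : triChain a b c ∈ cycleSpace G := by
  refine ⟨fun e he => ?_, fun w => ?_⟩
  · rcases triChain_ne_zero he with rfl | rfl | rfl
    · exact hab
    · exact hbc
    · exact hac
  · simp only [triChain, Pi.add_apply, Finset.sum_add_distrib]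
    rw [sum_single_edge hab.ne, sum_single_edge hbc.ne, sum_single_edge hac.ne]
    have h2 : ∀ x y z : ZMod 2, x + y + (y + z) + (x + z) = 0 := by decide
    exact h2 _ _ _

theorem MPlanar.of_fintype {V : Type} [Fintype V] (G : SimpleGraph V) {ι : Type} [Fintype ι]
    (B : ι → Sym2 V → ZMod 2) (h1 : ∀ i, B i ∈ cycleSpace G)
    (h2 : ∀ e, (univ.filter (fun i => B i e ≠ 0)).card ≤ 2)
    (h3 : cycleSpace G ≤ Submodule.span (ZMod 2) (Set.range B)) : MPlanar G := by
  classical
  let f := Fintype.equivFin ι
  refine ⟨Fintype.card ι, fun i => B (f.symm i), fun i => h1 _, ?_, ?_⟩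
  · intro e
    refine le_trans ?_ (h2 e)
    refine Finset.card_le_card_of_injOn f.symm ?_ (f.symm.injective.injOn)
    intro i hi
    rw [Finset.mem_coe, Finset.mem_filter] at hi ⊢
    exact ⟨Finset.mem_univ _, hi.2⟩
  · have : Set.range (fun i => B (f.symm i)) = Set.range B := by
      ext x
      constructor
      · rintro ⟨i, rfl⟩; exact ⟨_, rfl⟩
      · rintro ⟨i, rfl⟩; exact ⟨f i, by simp⟩
    rw [this]
    exact h3

/-- left neighbour -/
def lft {N : ℕ} (v : Fin N × Fin N) (_h : 1 ≤ v.1.val) : Fin N × Fin N :=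
  (⟨v.1.val - 1, by omega⟩, v.2)

/-- lower neighbour -/
def dwn {N : ℕ} (v : Fin N × Fin N) (_h : 1 ≤ v.2.val) : Fin N × Fin N :=
  (v.1, ⟨v.2.val - 1, by omega⟩)

/-- lower right neighbour -/
def drt {N : ℕ} (v : Fin N × Fin N) (h : v.1.val + 1 < N) (_h : 1 ≤ v.2.val) : Fin N × Fin N :=
  (⟨v.1.val + 1, h⟩, ⟨v.2.val - 1, by omega⟩)

/-- the family of triangles -/
def triB (N : ℕ) (x : (Fin N × Fin N) × Bool) : Sym2 (Fin N × Fin N) → ZMod 2 :=
  if x.2 = true then
    (if h : 1 ≤ x.1.1.val ∧ 1 ≤ x.1.2.val then triChain x.1 (lft x.1 h.1) (dwn x.1 h.2) else 0)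
  else
    (if h : x.1.1.val + 1 < N ∧ 1 ≤ x.1.2.val then
      triChain x.1 (dwn x.1 h.2) (drt x.1 h.1 h.2) else 0)

theorem adj_lft {N : ℕ} (v : Fin N × Fin N) (h : 1 ≤ v.1.val) : (triBox N).Adj v (lft v h) := by
  have h1 : ((v.1.val - 1 : ℕ) : ℤ) = (v.1.val : ℤ) - 1 := by push_cast [h]; rfl
  exact Or.inr (Or.inl ⟨h1, rfl⟩)

theorem adj_dwn {N : ℕ} (v : Fin N × Fin N) (h : 1 ≤ v.2.val) : (triBox N).Adj v (dwn v h) := by
  have h1 : ((v.2.val - 1 : ℕ) : ℤ) = (v.2.val : ℤ) - 1 := by push_cast [h]; rfl
  exact Or.inr (Or.inr (Or.inr (Or.inl ⟨rfl, h1⟩)))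

theorem adj_drt {N : ℕ} (v : Fin N × Fin N) (h : v.1.val + 1 < N) (h' : 1 ≤ v.2.val) :
    (triBox N).Adj v (drt v h h') := by
  have h1 : ((v.2.val - 1 : ℕ) : ℤ) = (v.2.val : ℤ) - 1 := by push_cast [h']; rfl
  exact Or.inr (Or.inr (Or.inr (Or.inr (Or.inl ⟨by simp [drt], h1⟩))))

theorem adj_lft_dwn {N : ℕ} (v : Fin N × Fin N) (h : 1 ≤ v.1.val) (h' : 1 ≤ v.2.val) :
    (triBox N).Adj (lft v h) (dwn v h') := by
  have h1 : ((v.2.val - 1 : ℕ) : ℤ) = (v.2.val : ℤ) - 1 := by push_cast [h']; rfl
  have h2 : ((v.1.val - 1 : ℕ) : ℤ) = (v.1.val : ℤ) - 1 := by push_cast [h]; rfl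
  refine Or.inr (Or.inr (Or.inr (Or.inr (Or.inl ⟨?_, h1⟩))))
  show (v.1.val : ℤ) = ((v.1.val - 1 : ℕ) : ℤ) + 1
  omega

theorem adj_dwn_drt {N : ℕ} (v : Fin N × Fin N) (h : v.1.val + 1 < N) (h' : 1 ≤ v.2.val) :
    (triBox N).Adj (dwn v h') (drt v h h') := by
  refine Or.inl ⟨?_, rfl⟩
  show ((v.1.val + 1 : ℕ) : ℤ) = (v.1.val : ℤ) + 1
  omega

theorem triB_mem (N : ℕ) (x : (Fin N × Fin N) × Bool) : triB N x ∈ cycleSpace (triBox N) := by
  unfold triB
  split_ifs with h1 h2 h2
  · exact triChain_mem (adj_lft _ _) (adj_lft_dwn _ _ _) (adj_dwn _ _)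
  · exact Submodule.zero_mem _
  · exact triChain_mem (adj_dwn _ _) (adj_dwn_drt _ _ _) (adj_drt _ _ _)
  · exact Submodule.zero_mem _

theorem triB_unique (N : ℕ) (v w : Fin N × Fin N) (b : Bool) (e : Sym2 (Fin N × Fin N))
    (hv : triB N (v, b) e ≠ 0) (hw : triB N (w, b) e ≠ 0) : v = w := by
  unfold triB at hv hw
  have key : ∀ p q r s : Fin N × Fin N, s(p, q) = s(r, s) →
      (p.1.val = r.1.val ∧ p.2.val = r.2.val ∧ q.1.val = s.1.val ∧ q.2.val = s.2.val) ∨
      (p.1.val = s.1.val ∧ p.2.val = s.2.val ∧ q.1.val = r.1.val ∧ q.2.val = r.2.val) := by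
    intro p q r s h
    rcases Sym2.eq_iff.mp h with ⟨rfl, rfl⟩ | ⟨rfl, rfl⟩
    · exact Or.inl ⟨rfl, rfl, rfl, rfl⟩
    · exact Or.inr ⟨rfl, rfl, rfl, rfl⟩
  have hext : v.1.val = w.1.val → v.2.val = w.2.val → v = w := fun h1 h2 =>
    Prod.ext (Fin.ext h1) (Fin.ext h2)
  cases b with
  | true =>
    simp only [if_true] at hv hw
    split_ifs at hv with h1
    · split_ifs at hw with h2
      · rcases triChain_ne_zero hv with h | h | h <;> rcases triChain_ne_zero hw with h' | h' | h' <;>
          rw [h] at h' <;>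
          (have := key _ _ _ _ h'; simp only [lft, dwn] at this; apply hext <;> omega)
      · simp at hw
    · simp at hv
  | false =>
    simp only [Bool.false_eq_true, if_false] at hv hw
    split_ifs at hv with h1
    · split_ifs at hw with h2
      · rcases triChain_ne_zero hv with h | h | h <;> rcases triChain_ne_zero hw with h' | h' | h' <;>
          rw [h] at h' <;>
          (have := key _ _ _ _ h'; simp only [drt, dwn] at this; apply hext <;> omega)
      · simp at hw
    · simp at hv

/-- the key of a vertex -/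
def key {N : ℕ} (v : Fin N × Fin N) : ℕ := v.2.val * N + v.1.val

theorem snd_le_of_key_le {N : ℕ} {u v : Fin N × Fin N} (h : key u ≤ key v) :
    u.2.val ≤ v.2.val := by
  by_contra hcon
  push Not at hcon
  have h1 : (v.2.val + 1) * N ≤ u.2.val * N := Nat.mul_le_mul_right _ hcon
  rw [Nat.succ_mul] at h1
  have h2 := v.1.isLt
  unfold key at h
  omega

theorem key_inj {N : ℕ} {u v : Fin N × Fin N} (h : key u = key v) : u = v := by
  have h1 := snd_le_of_key_le h.le
  have h2 := snd_le_of_key_le h.ge
  have h3 : u.2.val = v.2.val := le_antisymm h1 h2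
  unfold key at h
  rw [h3] at h
  exact Prod.ext (Fin.ext (by omega)) (Fin.ext h3)

theorem lower_nbr {N : ℕ} {u v : Fin N × Fin N} (hadj : (triBox N).Adj v u) (h : key u ≤ key v) :
    (u.1.val + 1 = v.1.val ∧ u.2.val = v.2.val) ∨ (u.1.val = v.1.val ∧ u.2.val + 1 = v.2.val) ∨
      (u.1.val = v.1.val + 1 ∧ u.2.val + 1 = v.2.val) := by
  have h1 := snd_le_of_key_le h
  have hadj' : triAdj ((v.1 : ℕ), (v.2 : ℕ)) ((u.1 : ℕ), (u.2 : ℕ)) := hadj
  unfold triAdj at hadj'
  simp only at hadj'
  by_cases h3 : u.2.val = v.2.val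
  · unfold key at h
    rw [h3] at h
    omega
  · omega

theorem star_zero {V : Type} [Fintype V] {G : SimpleGraph V} {F : Sym2 V → ZMod 2}
    (hF : F ∈ cycleSpace G) (v u0 : V) (h : ∀ u, u ≠ u0 → F s(v, u) = 0) (u : V) :
    F s(v, u) = 0 := by
  by_cases hu : u = u0
  · subst hu
    have := hF.2 v
    rwa [Finset.sum_eq_single u (fun w _ hw => h w hw) (by simp)] at this
  · exact h u hu

theorem triChain_star {V : Type} [DecidableEq V] {v a b : V} (hva : v ≠ a) (hvb : v ≠ b)
    (u : V) : triChain v a b s(v, u) = (if u = a then 1 else 0) + (if u = b then 1 else 0) := by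
  have h1 : (Pi.single s(a, b) 1 : Sym2 V → ZMod 2) s(v, u) = 0 := by
    rw [Pi.single_eq_of_ne]
    intro h
    rcases Sym2.eq_iff.mp h with ⟨h, _⟩ | ⟨h, _⟩
    · exact hva h
    · exact hvb h
  have h2 : ∀ c : V, v ≠ c → (Pi.single s(v, c) 1 : Sym2 V → ZMod 2) s(v, u) =
      (if u = c then 1 else 0) := by
    intro c hc
    by_cases huc : u = c
    · subst huc; simp
    · rw [if_neg huc, Pi.single_eq_of_ne]
      intro h
      rcases Sym2.eq_iff.mp h with ⟨_, h⟩ | ⟨h, _⟩
      · exact huc h
      · exact hc h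
  simp only [triChain, Pi.add_apply]
  rw [h1, h2 a hva, h2 b hvb, add_zero]

theorem triB_supp {N : ℕ} (v : Fin N × Fin N) (b : Bool) (e : Sym2 (Fin N × Fin N))
    (he : triB N (v, b) e ≠ 0) (w : Fin N × Fin N) (hw : w ∈ e) : key w ≤ key v := by
  have hk1 : ∀ h : 1 ≤ v.1.val, key (lft v h) ≤ key v := by
    intro h; unfold key lft; simp only; omega
  have hk2 : ∀ h : 1 ≤ v.2.val, key (dwn v h) ≤ key v := by
    intro h
    unfold key dwn
    simp only
    have : (v.2.val - 1) * N ≤ v.2.val * N := Nat.mul_le_mul_right _ (by omega)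
    omega
  have hk3 : ∀ (h : v.1.val + 1 < N) (h' : 1 ≤ v.2.val), key (drt v h h') ≤ key v := by
    intro h h'
    unfold key drt
    simp only
    obtain ⟨k, hk⟩ : ∃ k, v.2.val = k + 1 := ⟨v.2.val - 1, by omega⟩
    rw [hk, Nat.add_sub_cancel, Nat.succ_mul]
    omega
  unfold triB at he
  cases b with
  | true =>
    simp only [if_true] at he
    split_ifs at he with h1
    · rcases triChain_ne_zero he with h | h | h <;> rw [h, Sym2.mem_iff] at hw <;>
        rcases hw with rfl | rfl
      · exact le_refl _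
      · exact hk1 _
      · exact hk1 _
      · exact hk2 _
      · exact le_refl _
      · exact hk2 _
    · simp at he
  | false =>
    simp only [Bool.false_eq_true, if_false] at he
    split_ifs at he with h1
    · rcases triChain_ne_zero he with h | h | h <;> rw [h, Sym2.mem_iff] at hw <;>
        rcases hw with rfl | rfl
      · exact le_refl _
      · exact hk2 _
      · exact hk2 _
      · exact hk3 _ _
      · exact le_refl _
      · exact hk3 _ _
    · simp at he

theorem span_triB {N : ℕ} (n : ℕ) : ∀ F : Sym2 (Fin N × Fin N) → ZMod 2,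
    F ∈ cycleSpace (triBox N) → (∀ e, F e ≠ 0 → ∀ w ∈ e, key w < n) →
      F ∈ Submodule.span (ZMod 2) (Set.range (triB N)) := by
  induction n with
  | zero =>
    intro F _ h
    have : F = 0 := by
      funext e
      by_contra hne
      induction e with | _ p q =>
      exact absurd (h _ hne p (Sym2.mem_mk_left _ _)) (by omega)
    rw [this]
    exact Submodule.zero_mem _
  | succ n ih =>
    intro F hF h
    by_cases hv : ∃ v : Fin N × Fin N, key v = n
    swap
    · refine ih F hF (fun e he w hw => ?_)
      have h1 := h e he w hw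
      rcases Nat.lt_or_eq_of_le (Nat.lt_succ_iff.mp h1) with h2 | h2
      · exact h2
      · exact absurd ⟨w, h2⟩ hv
    obtain ⟨v, hv⟩ := hv
    -- suffices: star vanishes
    have hred : ∀ F' : Sym2 (Fin N × Fin N) → ZMod 2, F' ∈ cycleSpace (triBox N) →
        (∀ e, F' e ≠ 0 → ∀ w ∈ e, key w < n + 1) → (∀ u, F' s(v, u) = 0) →
          F' ∈ Submodule.span (ZMod 2) (Set.range (triB N)) := by
      intro F' hF' h' hz
      refine ih F' hF' (fun e he w hw => ?_)
      have h1 := h' e he w hw
      rcases Nat.lt_or_eq_of_le (Nat.lt_succ_iff.mp h1) with h2 | h2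
      · exact h2
      · exfalso
        have hwv : w = v := key_inj (h2.trans hv.symm)
        subst hwv
        obtain ⟨u, rfl⟩ := Sym2.mem_iff_exists.mp hw
        exact he (hz u)
    -- outside lower neighbours values vanish
    have hout : ∀ F' : Sym2 (Fin N × Fin N) → ZMod 2, F' ∈ cycleSpace (triBox N) →
        (∀ e, F' e ≠ 0 → ∀ w ∈ e, key w < n + 1) → ∀ u, F' s(v, u) ≠ 0 →
        ((u.1.val + 1 = v.1.val ∧ u.2.val = v.2.val) ∨
          (u.1.val = v.1.val ∧ u.2.val + 1 = v.2.val) ∨
          (u.1.val = v.1.val + 1 ∧ u.2.val + 1 = v.2.val)) := by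
      intro F' hF' h' u hu
      have hadj : (triBox N).Adj v u := hF'.1 _ hu
      refine lower_nbr hadj ?_
      have := h' _ hu u (Sym2.mem_mk_right _ _)
      omega
    by_cases hy : 1 ≤ v.2.val
    swap
    · refine hred F hF h (fun u => ?_)
      by_cases hx : 1 ≤ v.1.val
      · refine star_zero hF v (lft v hx) (fun u hu => ?_) u
        by_contra hne
        rcases hout F hF h u hne with h1 | h1 | h1
        · apply hu
          refine Prod.ext (Fin.ext ?_) (Fin.ext ?_)
          · show u.1.val = v.1.val - 1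
            omega
          · exact h1.2
        · omega
        · omega
      · by_contra hne
        rcases hout F hF h u hne with h1 | h1 | h1 <;> omega
    · -- main case
      set α : ZMod 2 := if hx : 1 ≤ v.1.val then F s(v, lft v hx) else 0 with hα
      set γ : ZMod 2 := if hx : v.1.val + 1 < N then F s(v, drt v hx hy) else 0 with hγ
      set F' : Sym2 (Fin N × Fin N) → ZMod 2 :=
        F + (α • triB N (v, true) + γ • triB N (v, false)) with hF'def
      have hcor : (α • triB N (v, true) + γ • triB N (v, false)) ∈ cycleSpace (triBox N) :=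
        Submodule.add_mem _ (Submodule.smul_mem _ _ (triB_mem _ _))
          (Submodule.smul_mem _ _ (triB_mem _ _))
      have hcor2 : (α • triB N (v, true) + γ • triB N (v, false)) ∈
          Submodule.span (ZMod 2) (Set.range (triB N)) :=
        Submodule.add_mem _ (Submodule.smul_mem _ _ (Submodule.subset_span ⟨_, rfl⟩))
          (Submodule.smul_mem _ _ (Submodule.subset_span ⟨_, rfl⟩))
      have hF'm : F' ∈ cycleSpace (triBox N) := Submodule.add_mem _ hF hcor
      have hF's : ∀ e, F' e ≠ 0 → ∀ w ∈ e, key w < n + 1 := by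
        intro e he w hw
        by_cases h1 : F e = 0
        · by_cases h2 : triB N (v, true) e = 0
          · by_cases h3 : triB N (v, false) e = 0
            · exfalso
              apply he
              simp [hF'def, h1, h2, h3]
            · have := triB_supp v false e h3 w hw
              omega
          · have := triB_supp v true e h2 w hw
            omega
        · exact h e h1 w hw
      have hmem : F' ∈ Submodule.span (ZMod 2) (Set.range (triB N)) := by
        refine hred F' hF'm hF's (star_zero hF'm v (dwn v hy) (fun u hu => ?_))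
        by_contra hne
        have hself : ∀ x : ZMod 2, x + x = 0 := by decide
        have hudwn : ¬ (u.1.val = v.1.val ∧ u.2.val + 1 = v.2.val) := by
          intro hh
          apply hu
          refine Prod.ext (Fin.ext hh.1) (Fin.ext ?_)
          show u.2.val = v.2.val - 1
          omega
        have hT : ∀ hx : 1 ≤ v.1.val, triB N (v, true) s(v, u) = if u = lft v hx then 1 else 0 := by
          intro hx
          unfold triB
          simp only [if_true]
          rw [dif_pos ⟨hx, hy⟩, triChain_star, if_neg hu, add_zero]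
          · exact (adj_lft v hx).ne
          · exact (adj_dwn v hy).ne
        have hT' : ∀ hx : ¬ (1 ≤ v.1.val), triB N (v, true) s(v, u) = 0 := by
          intro hx
          unfold triB
          simp only [if_true]
          rw [dif_neg (fun hh => hx hh.1)]
          rfl
        have hS : ∀ hx : v.1.val + 1 < N,
            triB N (v, false) s(v, u) = if u = drt v hx hy then 1 else 0 := by
          intro hx
          unfold triB
          simp only [Bool.false_eq_true, if_false]
          rw [dif_pos ⟨hx, hy⟩, triChain_star, if_neg hu, zero_add]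
          · exact (adj_dwn v hy).ne
          · exact (adj_drt v hx hy).ne
        have hS' : ∀ hx : ¬ (v.1.val + 1 < N), triB N (v, false) s(v, u) = 0 := by
          intro hx
          unfold triB
          simp only [Bool.false_eq_true, if_false]
          rw [dif_neg (fun hh => hx hh.1)]
          rfl
        apply hne
        show F s(v, u) + (α * triB N (v, true) s(v, u) + γ * triB N (v, false) s(v, u)) = 0
        rcases hout F' hF'm hF's u hne with h1 | h1 | h1
        · have hx : 1 ≤ v.1.val := by omega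
          have hul : u = lft v hx := by
            refine Prod.ext (Fin.ext ?_) (Fin.ext h1.2)
            show u.1.val = v.1.val - 1
            omega
          rw [hT hx, if_pos hul]
          have h0 : triB N (v, false) s(v, u) = 0 := by
            by_cases hx' : v.1.val + 1 < N
            · rw [hS hx', if_neg]
              intro hh
              have h2 : u.1.val = v.1.val + 1 := by rw [hh]; rfl
              omega
            · exact hS' hx'
          rw [h0, hα, dif_pos hx, ← hul, mul_one, mul_zero, add_zero]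
          exact hself _
        · exact absurd h1 hudwn
        · have hx : v.1.val + 1 < N := by have := u.1.isLt; omega
          have hul : u = drt v hx hy := by
            refine Prod.ext (Fin.ext h1.1) (Fin.ext ?_)
            show u.2.val = v.2.val - 1
            omega
          rw [hS hx, if_pos hul]
          have h0 : triB N (v, true) s(v, u) = 0 := by
            by_cases hx' : 1 ≤ v.1.val
            · rw [hT hx', if_neg]
              intro hh
              have h2 : u.1.val = v.1.val - 1 := by rw [hh]; rfl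
              omega
            · exact hT' hx'
          rw [h0, hγ, dif_pos hx, ← hul, mul_one, mul_zero, zero_add]
          exact hself _
      have hsub : F = F' + (α • triB N (v, true) + γ • triB N (v, false)) := by
        rw [hF'def, add_assoc]
        have : ∀ G : Sym2 (Fin N × Fin N) → ZMod 2, G + G = 0 := by
          intro G
          funext e
          exact (by decide : ∀ x : ZMod 2, x + x = 0) _
        rw [this, add_zero]
      rw [hsub]
      exact Submodule.add_mem _ hmem hcor2

theorem mPlanar_triBox (N : ℕ) : MPlanar (triBox N) := by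
  classical
  refine MPlanar.of_fintype (triBox N) (triB N) (triB_mem N) ?_ ?_
  · intro e
    calc (univ.filter (fun i => triB N i e ≠ 0)).card
        ≤ (univ : Finset Bool).card := by
          refine Finset.card_le_card_of_injOn Prod.snd (fun i _ => Finset.mem_coe.mpr (Finset.mem_univ _)) ?_
          rintro ⟨v, b⟩ hv ⟨w, c⟩ hw hbc
          rw [Finset.mem_coe, Finset.mem_filter] at hv hw
          simp only at hbc
          subst hbc
          rw [triB_unique N v w b e hv.2 hw.2]
      _ ≤ 2 := by simp
  · intro F hF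
    have : ∃ n, ∀ v : Fin N × Fin N, key v < n := by
      refine ⟨N * N + N, fun v => ?_⟩
      have h1 : v.2.val * N ≤ N * N := Nat.mul_le_mul_right _ v.2.isLt.le
      have h2 := v.1.isLt
      unfold key
      omega
    obtain ⟨n, hn⟩ := this
    exact span_triB n F hF (fun e _ w _ => hn w)

end Pool.Agent.TFP
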